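import Pool.Agent.H493.MX.Field

set_option autoImplicit false

/-! The mesoscopic Gaussian field relative to universality classes. -/

open Complex Filter Topology Set MeasureTheory ProbabilityTheory
open scoped BoundedContinuousFunction RealInnerProductSpace

namespace Pool.Agent.H493.MX

open Pool.Agent.H203.ME Pool.Agent.H203.ME.CLTL Pool.Agent.H203.ME.FINL Pool.Agent.H493.WB
open Pool.Agent.H510.UZ (Near Ms Ms_fin)

variable {k : ℕ} {f : Fin k → ℝ → ℝ} {h : Fin k → ℝ → ℝ}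

/-- **the field relative to universality classes, two-sided** -/
theorem near_field {K : Set ℂ} (hK : IsCompact K) (hKs : ∀ z ∈ K, 1 / 2 < z.re ∧ z.re < 1)
    {n : ℕ} (𝒜 : Fin n → Set (ℂ → ℂ)) {r r' C ε : ℝ} (hr : r < r') (hC : 0 ≤ C) (hε : 0 < ε)
    (hf : ∀ j, ContDiff ℝ 2 (f j)) (hs : ∀ j, HasCompactSupport (f j)) (hh : Scales h)
    (ψ : EuclideanSpace ℝ (Fin k) →ᵇ ℝ) (hψ : ∀ x, 0 ≤ ψ x) :
    ∀ᶠ T : ℝ in atTop, ∀ a : Fin n → ℝ, (∀ i, 0 ≤ a i ∧ a i ≤ C * T) →
      ∀ A B : ℝ, T ≤ A → A ≤ B → B ≤ 2 * T →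
      (∫ x, ψ x ∂(multivariateGaussian 0 (cM f h))) *
          Ms A B (fun t => ∀ i, Near K (𝒜 i) r (t + a i)) - ε * T ≤
        (∫ t in {t | t ∈ Ioc A B ∧ ∀ i, Near K (𝒜 i) r' (t + a i)},
          ψ (Xv f (fun j => h j T) T t)) ∧
      (∫ t in {t | t ∈ Ioc A B ∧ ∀ i, Near K (𝒜 i) r (t + a i)},
          ψ (Xv f (fun j => h j T) T t)) ≤
        (∫ x, ψ x ∂(multivariateGaussian 0 (cM f h))) *
          Ms A B (fun t => ∀ i, Near K (𝒜 i) r' (t + a i)) + ε * T := by
  classical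
  have : CompactSpace K := isCompact_iff_compactSpace.1 hK
  have hδ : 0 < r' - r := by linarith
  set φ : Fin n → ℝ → ℝ := fun i t => wt (𝒜 i) r hδ (shape (fun z hz => (hKs z hz).2) t) with hφ
  have hφB : ∀ i, Continuous (φ i) ∧ BAP (φ i) := fun i => wt_BAP hKs hK (𝒜 i) r hδ
  have hφ0 : ∀ i t, 0 ≤ φ i t := fun i t => wt_nonneg _ _ _ _
  have hφ1 : ∀ i t, φ i t ≤ 1 := fun i t => wt_le _ _ _ _
  set m : ℝ := ∫ x, ψ x ∂(multivariateGaussian 0 (cM f h)) with hm
  have hm0 : 0 ≤ m := integral_nonneg hψ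
  have hcont : ∀ᶠ T : ℝ in atTop, ContinuousOn (fun t => Xv f (fun j => h j T) T t) (Icc T (2 * T)) := by
    filter_upwards [c2c_ev hf hs hh, eventually_ge_atTop (3 : ℝ)] with T h1 h2
    unfold Xv
    refine (PiLp.continuous_toLp 2 _).comp_continuousOn ?_
    rw [continuousOn_pi]
    exact fun j => XF_contOn (h1 j) h2
  filter_upwards [field_weights (fun i => (hφB i).1.measurable) hφ0 hφ1 (fun i => (hφB i).2) hC hε
    one_pos hf hs hh ψ, hcont, eventually_ge_atTop (1 : ℝ)] with T hT hc hT1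
  intro a ha A B hA hAB hB
  set Y : ℝ → ℝ := fun t => ψ (Xv f (fun j => h j T) T t) with hY
  have hsub : Ioc A B ⊆ Icc T (2 * T) := fun t ht => ⟨by linarith [ht.1], by linarith [ht.2]⟩
  have hY0 : ∀ t, 0 ≤ Y t := fun t => hψ _
  have hYi : IntegrableOn Y (Ioc A B) := by
    refine Integrable.of_bound (C := ‖ψ‖) ?_ ?_
    · exact (ψ.continuous.comp_continuousOn (hc.mono hsub)).aestronglyMeasurable measurableSet_Ioc
    · filter_upwards with t
      exact ψ.norm_coe_le_norm _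
  have hPm := PWt_meas (fun i => (hφB i).1.measurable) a
  have hP0 := PWt_nonneg hφ0 a
  have hP1 := PWt_le hφ0 hφ1 a
  have hPi : IntegrableOn (PWt φ a) (Ioc A B) := by
    refine Integrable.of_bound (C := 1) hPm.aestronglyMeasurable ?_
    filter_upwards with t
    rw [Real.norm_of_nonneg (hP0 t)]
    exact hP1 t
  have hPYi : IntegrableOn (fun t => PWt φ a t * Y t) (Ioc A B) := by
    refine Integrable.of_bound (C := 1 * ‖ψ‖) ?_ ?_
    · exact hPm.aestronglyMeasurable.mul hYi.aestronglyMeasurable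
    · filter_upwards with t
      rw [norm_mul, Real.norm_of_nonneg (hP0 t)]
      exact mul_le_mul (hP1 t) (ψ.norm_coe_le_norm _) (norm_nonneg _) zero_le_one
  have key : |(∫ t in Ioc A B, PWt φ a t * Y t) - m * ∫ t in Ioc A B, PWt φ a t| ≤ ε * T := by
    have h3 := hT _ ⟨a, A, B, fun _ => 0, ha, hA, hAB, hB, Ph_zero T 1 (by linarith), rfl⟩
    have e : (∫ t in T..(2 * T), (Ioc A B).indicator (fun t => PWt φ a t *
        ((1 + Real.cos ((fun _ : ℝ => (0 : ℝ)) t)) / 2)) t * (ψ (Xv f (fun j => h j T) T t) - m)) =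
        (∫ t in Ioc A B, PWt φ a t * Y t) - m * ∫ t in Ioc A B, PWt φ a t := by
      have e1 : (∫ t in T..(2 * T), (Ioc A B).indicator (fun t => PWt φ a t *
        ((1 + Real.cos ((fun _ : ℝ => (0 : ℝ)) t)) / 2)) t * (ψ (Xv f (fun j => h j T) T t) - m)) =
          ∫ t in A..B, (PWt φ a t * Y t - m * PWt φ a t) := by
        rw [← ind_int hA hAB hB]
        refine intervalIntegral.integral_congr fun t _ => ?_
        by_cases ht : t ∈ Ioc A B
        · simp only [indicator_of_mem ht, Real.cos_zero, hY]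
          ring
        · simp only [indicator_of_notMem ht, zero_mul]
      rw [e1, intervalIntegral.integral_of_le hAB, integral_sub hPYi (hPi.const_mul m),
        integral_const_mul]
    rw [← e]
    exact h3
  rw [abs_le] at key
  have hopen : ∀ x : ℝ, IsOpen {t : ℝ | ∀ i, Near K (𝒜 i) x (t + a i)} := by
    intro x
    have : {t : ℝ | ∀ i, Near K (𝒜 i) x (t + a i)} =
        ⋂ i, (fun t : ℝ => t + a i) ⁻¹' {t | Near K (𝒜 i) x t} := by
      ext t; simp
    rw [this]
    exact isOpen_iInter_of_finite fun i => (near_open hKs (𝒜 i) x).preimage (by fun_prop)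
  set E : Set ℝ := {t | t ∈ Ioc A B ∧ ∀ i, Near K (𝒜 i) r (t + a i)} with hE
  set E' : Set ℝ := {t | t ∈ Ioc A B ∧ ∀ i, Near K (𝒜 i) r' (t + a i)} with hE'
  have hEm : MeasurableSet E := measurableSet_Ioc.inter (hopen r).measurableSet
  have hE'm : MeasurableSet E' := measurableSet_Ioc.inter (hopen r').measurableSet
  have hEs : E ⊆ Ioc A B := fun t ht => ht.1
  have hE's : E' ⊆ Ioc A B := fun t ht => ht.1
  have hone : ∀ t ∈ E, PWt φ a t = 1 := fun t ht =>
    Finset.prod_eq_one fun i _ => wt_one hKs hδ (ht.2 i)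
  have hzero : ∀ t ∈ Ioc A B, t ∉ E' → PWt φ a t = 0 := by
    intro t ht ht'
    have : ∃ i, ¬ Near K (𝒜 i) r' (t + a i) := by
      by_contra hcon
      push Not at hcon
      exact ht' ⟨ht, hcon⟩
    obtain ⟨i, hi⟩ := this
    unfold PWt
    refine Finset.prod_eq_zero (Finset.mem_univ i) ?_
    refine wt_zero hKs hδ ?_
    rwa [show r + (r' - r) = r' by ring]
  -- masses
  have hMsE : Ms A B (fun t => ∀ i, Near K (𝒜 i) r (t + a i)) = ∫ t in E, (1 : ℝ) := by
    rw [setIntegral_const, smul_eq_mul, mul_one]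
    rfl
  have hMsE' : Ms A B (fun t => ∀ i, Near K (𝒜 i) r' (t + a i)) = ∫ t in E', (1 : ℝ) := by
    rw [setIntegral_const, smul_eq_mul, mul_one]
    rfl
  have c1 : (∫ t in E, (1 : ℝ)) ≤ ∫ t in Ioc A B, PWt φ a t := by
    have e2 : ∫ t in E, (1 : ℝ) = ∫ t in E, PWt φ a t :=
      setIntegral_congr_fun hEm fun t ht => (hone t ht).symm
    rw [e2]
    exact setIntegral_mono_set hPi (Eventually.of_forall hP0) (Eventually.of_forall hEs)
  have c2 : (∫ t in Ioc A B, PWt φ a t) ≤ ∫ t in E', (1 : ℝ) := by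
    have e2 : ∫ t in Ioc A B, PWt φ a t = ∫ t in E', PWt φ a t := by
      refine setIntegral_eq_of_subset_of_forall_sdiff_eq_zero measurableSet_Ioc hE's fun t ht => ?_
      exact hzero t ht.1 ht.2
    rw [e2]
    refine setIntegral_mono (hPi.mono_set hE's) ?_ fun t => hP1 t
    exact integrableOn_const (ne_top_of_le_ne_top measure_Ioc_lt_top.ne (measure_mono hE's))
  have c3 : (∫ t in E, Y t) ≤ ∫ t in Ioc A B, PWt φ a t * Y t := by
    have e2 : ∫ t in E, Y t = ∫ t in E, PWt φ a t * Y t :=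
      setIntegral_congr_fun hEm fun t ht => by simp only [hone t ht, one_mul]
    rw [e2]
    exact setIntegral_mono_set hPYi (Eventually.of_forall fun t => mul_nonneg (hP0 t) (hY0 t))
      (Eventually.of_forall hEs)
  have c4 : (∫ t in Ioc A B, PWt φ a t * Y t) ≤ ∫ t in E', Y t := by
    have e2 : ∫ t in Ioc A B, PWt φ a t * Y t = ∫ t in E', PWt φ a t * Y t := by
      refine setIntegral_eq_of_subset_of_forall_sdiff_eq_zero measurableSet_Ioc hE's fun t ht => ?_
      rw [hzero t ht.1 ht.2, zero_mul]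
    rw [e2]
    refine setIntegral_mono (hPYi.mono_set hE's) (hYi.mono_set hE's) fun t => ?_
    exact mul_le_of_le_one_left (hY0 t) (hP1 t)
  rw [hMsE, hMsE']
  have d1 : m * (∫ t in E, (1 : ℝ)) ≤ m * ∫ t in Ioc A B, PWt φ a t :=
    mul_le_mul_of_nonneg_left c1 hm0
  have d2 : m * (∫ t in Ioc A B, PWt φ a t) ≤ m * ∫ t in E', (1 : ℝ) :=
    mul_le_mul_of_nonneg_left c2 hm0
  constructor <;> linarith [key.1, key.2]

end Pool.Agent.H493.MX
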