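import Pool.Agent.H493.MX.Weak

set_option autoImplicit false

/-! The mesoscopic Gaussian field relative to weights. -/

open Complex Filter Topology Set MeasureTheory ProbabilityTheory
open scoped BoundedContinuousFunction RealInnerProductSpace

namespace Pool.Agent.H493.MX

open Pool.Agent.H203.ME Pool.Agent.H203.ME.CLTL Pool.Agent.H203.ME.FINL Pool.Agent.H493.WB

/-- the class of weights -/
def Wcl {n : ℕ} (φ : Fin n → ℝ → ℝ) (K δ T : ℝ) : Set (ℝ → ℝ) :=
  {W | ∃ (a : Fin n → ℝ) (A B : ℝ) (θ : ℝ → ℝ), (∀ i, 0 ≤ a i ∧ a i ≤ K * T) ∧ T ≤ A ∧ A ≤ B ∧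
    B ≤ 2 * T ∧ Ph T δ θ ∧
    W = (Ioc A B).indicator (fun t => PWt φ a t * ((1 + Real.cos (θ t)) / 2))}

lemma ind_int {G : Type} [NormedAddCommGroup G] [NormedSpace ℝ G] {T A B : ℝ} (hA : T ≤ A)
    (hAB : A ≤ B) (hB : B ≤ 2 * T) (g : ℝ → G) :
    ∫ t in T..(2 * T), (Ioc A B).indicator g t = ∫ t in A..B, g t := by
  rw [intervalIntegral.integral_of_le (by linarith), intervalIntegral.integral_of_le hAB,
    setIntegral_indicator measurableSet_Ioc]
  congr 2
  exact inter_eq_right.2 (Ioc_subset_Ioc hA hB)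

lemma PWt_meas {n : ℕ} {φ : Fin n → ℝ → ℝ} (hm : ∀ i, Measurable (φ i)) (a : Fin n → ℝ) :
    Measurable (PWt φ a) := by
  unfold PWt
  exact Finset.measurable_fun_prod _ fun i _ => (hm i).comp (measurable_id.add_const _)

lemma PWt_nonneg {n : ℕ} {φ : Fin n → ℝ → ℝ} (h0 : ∀ i t, 0 ≤ φ i t) (a : Fin n → ℝ) (t : ℝ) :
    0 ≤ PWt φ a t := Finset.prod_nonneg fun i _ => h0 i _

lemma PWt_le {n : ℕ} {φ : Fin n → ℝ → ℝ} (h0 : ∀ i t, 0 ≤ φ i t) (h1 : ∀ i t, φ i t ≤ 1)
    (a : Fin n → ℝ) (t : ℝ) : PWt φ a t ≤ 1 := Finset.prod_le_one (fun i _ => h0 i _) fun i _ => h1 i _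

lemma Wcl_prop {n : ℕ} {φ : Fin n → ℝ → ℝ} (hm : ∀ i, Measurable (φ i)) (h0 : ∀ i t, 0 ≤ φ i t)
    (h1 : ∀ i t, φ i t ≤ 1) {K δ T : ℝ} {W : ℝ → ℝ} (hW : W ∈ Wcl φ K δ T) :
    Measurable W ∧ ∀ t, 0 ≤ W t ∧ W t ≤ 1 := by
  obtain ⟨a, A, B, θ, -, -, -, -, hθ, rfl⟩ := hW
  have hθc := hθ.diff.continuous
  refine ⟨Measurable.indicator ((PWt_meas hm a).mul (Continuous.measurable (by fun_prop)))
    measurableSet_Ioc, fun t => ?_⟩
  have c1 := Real.neg_one_le_cos (θ t)
  have c2 := Real.cos_le_one (θ t)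
  have p0 := PWt_nonneg h0 a t
  have p1 := PWt_le h0 h1 a t
  have q0 : 0 ≤ (1 + Real.cos (θ t)) / 2 := by linarith
  have q1 : (1 + Real.cos (θ t)) / 2 ≤ 1 := by linarith
  by_cases ht : t ∈ Ioc A B
  · rw [indicator_of_mem ht]
    exact ⟨mul_nonneg p0 q0, mul_le_one₀ p1 q0 q1⟩
  · rw [indicator_of_notMem ht]
    exact ⟨le_rfl, zero_le_one⟩

lemma Ph_zero (T δ : ℝ) (hT : 0 ≤ T) : Ph T δ (fun _ => 0) := by
  refine ⟨differentiable_const _, fun s _ t _ => ?_⟩
  simp only [deriv_const, sub_self, abs_zero]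
  exact mul_nonneg (Real.rpow_nonneg hT _) (abs_nonneg _)

lemma Ph_shift {T δ : ℝ} {θ : ℝ → ℝ} (h : Ph T δ θ) (c : ℝ) : Ph T δ (fun t => θ t + c) := by
  have h1 := h.add_linear 0 c
  have e : (fun t => θ t + (0 * t + c)) = fun t => θ t + c := by
    funext t
    ring
  rwa [e] at h1

lemma norm_exp_gauss {x : ℝ} (hx : 0 ≤ x) : ‖cexp (-(x : ℂ) / 2)‖ ≤ 1 := by
  have : (-(x : ℂ) / 2) = ((-x / 2 : ℝ) : ℂ) := by push_cast; ring
  rw [this, Complex.norm_exp, Complex.ofReal_re, Real.exp_le_one_iff]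
  linarith

lemma cos_split (x : ℝ) : (((1 + Real.cos x) / 2 : ℝ) : ℂ) =
    1 / 2 * cexp (((0 : ℝ) : ℂ) * I) + 1 / 4 * cexp ((x : ℂ) * I) + 1 / 4 * cexp (((-x : ℝ) : ℂ) * I) := by
  push_cast
  rw [Complex.cos, zero_mul, Complex.exp_zero]
  ring

variable {k : ℕ} {f : Fin k → ℝ → ℝ} {h : Fin k → ℝ → ℝ}

/-- **the mesoscopic Gaussian field relative to weights in `[0, 1]`** -/
theorem field_weights {n : ℕ} {φ : Fin n → ℝ → ℝ} (hm : ∀ i, Measurable (φ i))
    (h0 : ∀ i t, 0 ≤ φ i t) (h1 : ∀ i t, φ i t ≤ 1) (hB : ∀ i, BAP (φ i)) {K ε δ : ℝ} (hK : 0 ≤ K)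
    (hε : 0 < ε) (hδ : 0 < δ) (hf : ∀ j, ContDiff ℝ 2 (f j)) (hs : ∀ j, HasCompactSupport (f j))
    (hh : Scales h) (ψ : EuclideanSpace ℝ (Fin k) →ᵇ ℝ) :
    ∀ᶠ T : ℝ in atTop, ∀ W ∈ Wcl φ K δ T,
      |∫ t in T..(2 * T), W t * (ψ (Xv f (fun j => h j T) T t) -
        ∫ x, ψ x ∂(multivariateGaussian 0 (cM f h)))| ≤ ε * T := by
  classical
  have hcont : ∀ᶠ T : ℝ in atTop, ContinuousOn (fun t => Xv f (fun j => h j T) T t) (Icc T (2 * T)) := by
    filter_upwards [c2c_ev hf hs hh, eventually_ge_atTop (3 : ℝ)] with T h1 h2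
    unfold Xv
    refine (PiLp.continuous_toLp 2 _).comp_continuousOn ?_
    rw [continuousOn_pi]
    exact fun j => XF_contOn (h1 j) h2
  have hmeas : ∀ᶠ T : ℝ in atTop, AEMeasurable (fun t => Xv f (fun j => h j T) T t) (volume.restrict (Ioc T (2 * T))) := by
    filter_upwards [hcont] with T h1
    exact (h1.mono Ioc_subset_Icc_self).aemeasurable measurableSet_Ioc
  refine wweak (X := fun T t => Xv f (fun j => h j T) T t) (ν := multivariateGaussian 0 (cM f h))
    (Wcl φ K δ) hmeas (fun T W hW => Wcl_prop hm h0 h1 hW) ?_ ψ hε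
  intro u e he
  rw [charG t_COV hf hs hh]
  set Q : ℝ := ∑ i, ∑ j, u i * u j * cM f h i j with hQ
  obtain ⟨V, hV, hA⟩ := adm_ev t_ADM hf hs hh u
  obtain ⟨η, T0, hη, -, hT0, hmix⟩ := mix_char hm h0 h1 hB hV hK (show 0 < e / 2 by positivity) hδ
  have hsg := sg_ev t_COV hf hs hh u
  have hsg2 : Tendsto (fun T => cexp (-(sg (cb f h u T) : ℂ) / 2)) atTop (𝓝 (cexp (-(Q : ℂ) / 2))) := by
    refine (Complex.continuous_exp.tendsto _).comp ?_
    exact (((Complex.continuous_ofReal.tendsto _).comp hsg).neg).div_const 2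
  rw [Metric.tendsto_nhds] at hsg2
  filter_upwards [hA η hη, eventually_ge_atTop T0, c2c_ev hf hs hh, hsg2 (e / 2) (by positivity)]
    with T hT1 hT2 hT3 hT4
  have hT10 : 10 ≤ T := hT0.trans hT2
  have hF := hT1 (fun _ => 1) (fun j => by simp)
  have h4 : (fun x => ∑ j, (1 : ℝ) * (u j * f j (x / h j T))) = cb f h u T := by
    funext x
    exact Finset.sum_congr rfl fun j _ => one_mul _
  rw [h4] at hF
  intro W hW
  obtain ⟨hWm, hW01⟩ := Wcl_prop hm h0 h1 hW
  obtain ⟨a, A, B, θ, ha, hA1, hAB, hB1, hθ, rfl⟩ := hW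
  set F := cb f h u T with hFdef
  set Z : ℝ → ℂ := fun t => cexp (I * (XF F T t : ℂ)) - cexp (-(sg F : ℂ) / 2) with hZ
  have hXc : ContinuousOn (XF F T) (Icc T (2 * T)) := XF_contOn hF.c2 (by linarith)
  have hZc : ContinuousOn Z (Icc T (2 * T)) :=
    (ContinuousOn.cexp (continuousOn_const.mul (Complex.continuous_ofReal.comp_continuousOn
      hXc))).sub continuousOn_const
  have hZ2 : ∀ t, ‖Z t‖ ≤ 2 := by
    intro t
    rw [hZ]
    refine (norm_sub_le _ _).trans ?_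
    have q1 : ‖cexp (I * (XF F T t : ℂ))‖ = 1 := by
      rw [mul_comm]; exact Complex.norm_exp_ofReal_mul_I _
    rw [q1]
    linarith [norm_exp_gauss (sg_nonneg F)]
  have hsub : Ioc A B ⊆ Icc T (2 * T) := fun t ht => ⟨by linarith [ht.1], by linarith [ht.2]⟩
  have hii : ∀ c : ℂ, ∀ θ' : ℝ → ℝ, Continuous θ' →
      IntervalIntegrable (fun t => c * (cexp ((θ' t : ℂ) * I) * (PWt φ a t : ℂ) * Z t)) volume A B := by
    intro c θ' hθ'
    refine IntervalIntegrable.const_mul ?_ c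
    rw [intervalIntegrable_iff_integrableOn_Ioc_of_le hAB]
    refine Integrable.of_bound (C := 1 * 1 * 2) ?_ ?_
    · refine ((Continuous.aestronglyMeasurable (by fun_prop)).mul
        (Complex.measurable_ofReal.comp (PWt_meas hm a)).aestronglyMeasurable).mul ?_
      exact (hZc.mono hsub).aestronglyMeasurable measurableSet_Ioc
    · filter_upwards with t
      rw [norm_mul, norm_mul, Complex.norm_exp_ofReal_mul_I, Complex.norm_real,
        Real.norm_of_nonneg (PWt_nonneg h0 a t)]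
      gcongr
      · exact PWt_le h0 h1 a t
      · exact hZ2 t
  -- replace the inner product
  have e1 : (∫ t in T..(2 * T), (((Ioc A B).indicator (fun t => PWt φ a t * ((1 + Real.cos (θ t)) / 2)) t : ℝ) : ℂ) *
      (cexp (⟪Xv f (fun j => h j T) T t, u⟫ * I) - cexp (-(Q : ℂ) / 2))) =
      (∫ t in A..B, ((PWt φ a t * ((1 + Real.cos (θ t)) / 2) : ℝ) : ℂ) * Z t) +
      ∫ t in A..B, ((PWt φ a t * ((1 + Real.cos (θ t)) / 2) : ℝ) : ℂ) *
        (cexp (-(sg F : ℂ) / 2) - cexp (-(Q : ℂ) / 2)) := by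
    rw [← intervalIntegral.integral_add]
    · rw [← ind_int hA1 hAB hB1]
      refine intervalIntegral.integral_congr fun t ht => ?_
      rw [uIcc_of_le (by linarith)] at ht
      by_cases htA : t ∈ Ioc A B
      · simp only [indicator_of_mem htA]
        rw [inner_Xv hT3 u (by linarith) ht.1 ht.2, hZ, ← hFdef]
        simp only
        rw [mul_comm I]
        ring
      · simp only [indicator_of_notMem htA]
        simp
    · refine ((hii (1 / 2) (fun _ => 0) continuous_const).add (hii (1 / 4) θ hθ.diff.continuous)).add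
        (hii (1 / 4) (fun t => - θ t) hθ.diff.continuous.neg) |>.congr fun t _ => ?_
      rw [Complex.ofReal_mul, cos_split]
      ring
    · rw [intervalIntegrable_iff_integrableOn_Ioc_of_le hAB]
      refine Integrable.of_bound (C := 1 * ‖cexp (-(sg F : ℂ) / 2) - cexp (-(Q : ℂ) / 2)‖) ?_ ?_
      · have hc := hθ.diff.continuous
        refine AEStronglyMeasurable.mul ?_ aestronglyMeasurable_const
        exact (Complex.measurable_ofReal.comp ((PWt_meas hm a).mul
          (Continuous.measurable (by fun_prop)))).aestronglyMeasurable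
      · filter_upwards with t
        have c1 := Real.neg_one_le_cos (θ t)
        have c2 := Real.cos_le_one (θ t)
        rw [norm_mul, Complex.norm_real, Real.norm_of_nonneg (mul_nonneg (PWt_nonneg h0 a t) (by linarith))]
        refine mul_le_mul_of_nonneg_right ?_ (norm_nonneg _)
        exact mul_le_one₀ (PWt_le h0 h1 a t) (by linarith) (by linarith)
  rw [e1]
  have e2 : (∫ t in A..B, ((PWt φ a t * ((1 + Real.cos (θ t)) / 2) : ℝ) : ℂ) * Z t) =
      1 / 2 * (∫ t in A..B, cexp (((0 : ℝ) : ℂ) * I) * (PWt φ a t : ℂ) * Z t) +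
      1 / 4 * (∫ t in A..B, cexp ((θ t : ℂ) * I) * (PWt φ a t : ℂ) * Z t) +
      1 / 4 * (∫ t in A..B, cexp (((- θ t : ℝ) : ℂ) * I) * (PWt φ a t : ℂ) * Z t) := by
    simp_rw [← intervalIntegral.integral_const_mul]
    rw [← intervalIntegral.integral_add (hii _ _ continuous_const) (hii _ _ hθ.diff.continuous),
      ← intervalIntegral.integral_add ((hii _ _ continuous_const).add (hii _ _ hθ.diff.continuous))
        (hii _ (fun t => - θ t) hθ.diff.continuous.neg)]
    refine intervalIntegral.integral_congr fun t _ => ?_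
    rw [Complex.ofReal_mul, cos_split]
    ring
  have b0 := hmix T hT2 F hF (fun _ => 0) (Ph_zero T δ (by linarith)) a ha A B hA1 hAB hB1
  have b1 := hmix T hT2 F hF θ hθ a ha A B hA1 hAB hB1
  have b2 := hmix T hT2 F hF (fun t => - θ t) hθ.neg a ha A B hA1 hAB hB1
  have c1 : ‖∫ t in A..B, ((PWt φ a t * ((1 + Real.cos (θ t)) / 2) : ℝ) : ℂ) * Z t‖ ≤ e / 2 * T := by
    rw [e2]
    refine (norm_add₃_le).trans ?_
    rw [norm_mul, norm_mul, norm_mul]
    have n1 : ‖(1 / 2 : ℂ)‖ = 1 / 2 := by norm_num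
    have n2 : ‖(1 / 4 : ℂ)‖ = 1 / 4 := by norm_num
    rw [n1, n2]
    have b0' : ‖∫ t in A..B, cexp (((0 : ℝ) : ℂ) * I) * (PWt φ a t : ℂ) * Z t‖ ≤ e / 2 * T := b0
    have b1' : ‖∫ t in A..B, cexp ((θ t : ℂ) * I) * (PWt φ a t : ℂ) * Z t‖ ≤ e / 2 * T := b1
    have b2' : ‖∫ t in A..B, cexp (((- θ t : ℝ) : ℂ) * I) * (PWt φ a t : ℂ) * Z t‖ ≤ e / 2 * T := b2
    linarith
  have c2 : ‖∫ t in A..B, ((PWt φ a t * ((1 + Real.cos (θ t)) / 2) : ℝ) : ℂ) *
        (cexp (-(sg F : ℂ) / 2) - cexp (-(Q : ℂ) / 2))‖ ≤ e / 2 * T := by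
    rw [dist_eq_norm] at hT4
    have := intervalIntegral.norm_integral_le_of_norm_le_const (a := A) (b := B)
      (f := fun t => ((PWt φ a t * ((1 + Real.cos (θ t)) / 2) : ℝ) : ℂ) *
        (cexp (-(sg F : ℂ) / 2) - cexp (-(Q : ℂ) / 2))) (C := e / 2) (fun t _ => ?_)
    · rw [abs_of_nonneg (by linarith)] at this
      refine this.trans ?_
      apply mul_le_mul_of_nonneg_left _ (by positivity)
      linarith
    · have c1 := Real.neg_one_le_cos (θ t)
      have c2 := Real.cos_le_one (θ t)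
      rw [norm_mul, Complex.norm_real, Real.norm_of_nonneg (mul_nonneg (PWt_nonneg h0 a t) (by linarith))]
      calc _ ≤ 1 * (e / 2) := mul_le_mul (mul_le_one₀ (PWt_le h0 h1 a t) (by linarith) (by linarith))
            hT4.le (norm_nonneg _) zero_le_one
        _ = e / 2 := one_mul _
  refine (norm_add_le _ _).trans ?_
  linarith

/-- **mixing of the mesoscopic Gaussian field** -/
theorem field_mix {n : ℕ} {φ : Fin n → ℝ → ℝ} (hm : ∀ i, Measurable (φ i))
    (h0 : ∀ i t, 0 ≤ φ i t) (h1 : ∀ i t, φ i t ≤ 1) (hB : ∀ i, BAP (φ i)) {K ε δ : ℝ} (hK : 0 ≤ K)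
    (hε : 0 < ε) (hδ : 0 < δ) (hf : ∀ j, ContDiff ℝ 2 (f j)) (hs : ∀ j, HasCompactSupport (f j))
    (hh : Scales h) (ψ : EuclideanSpace ℝ (Fin k) →ᵇ ℝ) :
    ∀ᶠ T : ℝ in atTop, ∀ θ : ℝ → ℝ, Ph T δ θ → ∀ a : Fin n → ℝ, (∀ i, 0 ≤ a i ∧ a i ≤ K * T) →
      ∀ A B : ℝ, T ≤ A → A ≤ B → B ≤ 2 * T →
      ‖∫ t in A..B, cexp ((θ t : ℂ) * I) * (((PWt φ a t) * (ψ (Xv f (fun j => h j T) T t) -
        ∫ x, ψ x ∂(multivariateGaussian 0 (cM f h))) : ℝ) : ℂ)‖ ≤ ε * T := by
  have hmeas : ∀ᶠ T : ℝ in atTop, ContinuousOn (fun t => Xv f (fun j => h j T) T t) (Icc T (2 * T)) := by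
    filter_upwards [c2c_ev hf hs hh, eventually_ge_atTop (3 : ℝ)] with T h1 h2
    unfold Xv
    refine (PiLp.continuous_toLp 2 _).comp_continuousOn ?_
    rw [continuousOn_pi]
    exact fun j => XF_contOn (h1 j) h2
  filter_upwards [field_weights hm h0 h1 hB hK (show 0 < ε / 6 by positivity) hδ hf hs hh ψ,
    hmeas, eventually_ge_atTop (1 : ℝ)] with T hT hc hT1
  intro θ hθ a ha A B hA hAB hB1
  set m : ℝ := ∫ x, ψ x ∂(multivariateGaussian 0 (cM f h)) with hm'
  set Y : ℝ → ℝ := fun t => PWt φ a t * (ψ (Xv f (fun j => h j T) T t) - m) with hY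
  have hsub : Ioc A B ⊆ Icc T (2 * T) := fun t ht => ⟨by linarith [ht.1], by linarith [ht.2]⟩
  have hYi : ∀ g : ℝ → ℝ, Continuous g → (∀ t, |g t| ≤ 1) →
      IntervalIntegrable (fun t => g t * Y t) volume A B := by
    intro g hg hg1
    rw [intervalIntegrable_iff_integrableOn_Ioc_of_le hAB]
    refine Integrable.of_bound (C := 1 * (1 * (‖ψ‖ + |m|))) ?_ ?_
    · refine hg.aestronglyMeasurable.mul ((PWt_meas hm a).aestronglyMeasurable.mul ?_)
      exact ((ψ.continuous.comp_continuousOn (hc.mono hsub)).sub continuousOn_const).aestronglyMeasurable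
        measurableSet_Ioc
    · filter_upwards with t
      rw [hY, norm_mul, norm_mul, Real.norm_of_nonneg (PWt_nonneg h0 a t)]
      refine mul_le_mul (hg1 t) (mul_le_mul (PWt_le h0 h1 a t) ?_ (norm_nonneg _) zero_le_one)
        (mul_nonneg (PWt_nonneg h0 a t) (norm_nonneg _)) zero_le_one
      exact (norm_sub_le _ _).trans (add_le_add (ψ.norm_coe_le_norm _) (le_of_eq rfl))
  have key : ∀ θ' : ℝ → ℝ, Ph T δ θ' → |∫ t in A..B, (1 + Real.cos (θ' t)) / 2 * Y t| ≤ ε / 6 * T := by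
    intro θ' hθ'
    have h3 := hT _ ⟨a, A, B, θ', ha, hA, hAB, hB1, hθ', rfl⟩
    have e : (∫ t in T..(2 * T), (Ioc A B).indicator (fun t => PWt φ a t * ((1 + Real.cos (θ' t)) / 2)) t *
        (ψ (Xv f (fun j => h j T) T t) - m)) = ∫ t in A..B, (1 + Real.cos (θ' t)) / 2 * Y t := by
      rw [← ind_int hA hAB hB1]
      refine intervalIntegral.integral_congr fun t _ => ?_
      by_cases ht : t ∈ Ioc A B
      · simp only [indicator_of_mem ht, hY]
        ring
      · simp only [indicator_of_notMem ht, zero_mul]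
    rw [← e]
    exact h3
  have k0 := key _ (Ph_zero T δ (by linarith))
  have k1 := key θ hθ
  have k2 := key _ (Ph_shift hθ (-(Real.pi / 2)))
  have hcos : Continuous fun t => Real.cos (θ t) := Real.continuous_cos.comp hθ.diff.continuous
  have hsin : Continuous fun t => Real.sin (θ t) := Real.continuous_sin.comp hθ.diff.continuous
  simp only [Real.cos_zero] at k0
  have e0 : (∫ t in A..B, (1 + 1 : ℝ) / 2 * Y t) = ∫ t in A..B, Y t := by
    refine intervalIntegral.integral_congr fun t _ => ?_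
    ring
  rw [e0] at k0
  have i0 : IntervalIntegrable Y volume A B := by
    have := hYi (fun _ => 1) continuous_const (fun _ => by simp)
    simpa using this
  have i1 := hYi _ hcos (fun t => Real.abs_cos_le_one _)
  have i2 := hYi _ hsin (fun t => Real.abs_sin_le_one _)
  have e1 : (∫ t in A..B, (1 + Real.cos (θ t)) / 2 * Y t) =
      1 / 2 * (∫ t in A..B, Y t) + 1 / 2 * ∫ t in A..B, Real.cos (θ t) * Y t := by
    rw [← intervalIntegral.integral_const_mul, ← intervalIntegral.integral_const_mul,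
      ← intervalIntegral.integral_add (i0.const_mul _) (i1.const_mul _)]
    refine intervalIntegral.integral_congr fun t _ => ?_
    ring
  have e2 : (∫ t in A..B, (1 + Real.cos (θ t + -(Real.pi / 2))) / 2 * Y t) =
      1 / 2 * (∫ t in A..B, Y t) + 1 / 2 * ∫ t in A..B, Real.sin (θ t) * Y t := by
    rw [← intervalIntegral.integral_const_mul, ← intervalIntegral.integral_const_mul,
      ← intervalIntegral.integral_add (i0.const_mul _) (i2.const_mul _)]
    refine intervalIntegral.integral_congr fun t _ => ?_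
    rw [← sub_eq_add_neg, Real.cos_sub_pi_div_two]
    ring
  rw [e1] at k1
  rw [e2] at k2
  rw [abs_le] at k0 k1 k2
  have j1 : IntervalIntegrable (fun t => ((Real.cos (θ t) * Y t : ℝ) : ℂ)) volume A B :=
    ⟨i1.1.ofReal, i1.2.ofReal⟩
  have j2 : IntervalIntegrable (fun t => ((Real.sin (θ t) * Y t : ℝ) : ℂ) * I) volume A B :=
    IntervalIntegrable.mul_const ⟨i2.1.ofReal, i2.2.ofReal⟩ _
  have e3 : (∫ t in A..B, cexp ((θ t : ℂ) * I) * ((Y t : ℝ) : ℂ)) =
      ((∫ t in A..B, Real.cos (θ t) * Y t : ℝ) : ℂ) +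
      ((∫ t in A..B, Real.sin (θ t) * Y t : ℝ) : ℂ) * I := by
    rw [← intervalIntegral.integral_ofReal, ← intervalIntegral.integral_ofReal,
      ← intervalIntegral.integral_mul_const, ← intervalIntegral.integral_add j1 j2]
    refine intervalIntegral.integral_congr fun t _ => ?_
    rw [Complex.exp_mul_I]
    push_cast
    ring
  change ‖∫ t in A..B, cexp ((θ t : ℂ) * I) * ((Y t : ℝ) : ℂ)‖ ≤ ε * T
  rw [e3]
  refine (norm_add_le _ _).trans ?_
  rw [norm_mul, Complex.norm_I, mul_one, Complex.norm_real, Complex.norm_real, Real.norm_eq_abs,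
    Real.norm_eq_abs]
  have q1 : |∫ t in A..B, Real.cos (θ t) * Y t| ≤ ε / 2 * T := by
    rw [abs_le]
    constructor <;> linarith [k0.1, k0.2, k1.1, k1.2]
  have q2 : |∫ t in A..B, Real.sin (θ t) * Y t| ≤ ε / 2 * T := by
    rw [abs_le]
    constructor <;> linarith [k0.1, k0.2, k2.1, k2.2]
  linarith

end Pool.Agent.H493.MX
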