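import Pool.Agent.H493.MX.TMom
import Pool.Agent.H203.ME.MAIN

set_option autoImplicit false

/-! The central limit theorem for prime polynomials against arbitrary exponentials, in intervals. -/

open Complex Filter Topology Set MeasureTheory

namespace Pool.Agent.H493.MX

open Pool.Agent.H203.ME Pool.Agent.H203.ME.MOML Pool.Agent.H203.ME.CLTL

lemma Kjl_le {j l m : ℕ} (h : j + l = m) : Kjl j l ≤ 2 * m.factorial * (m + 1) ^ 2 := by
  unfold Kjl
  have h1 : (j.factorial : ℝ) ≤ m.factorial := by exact_mod_cast Nat.factorial_le (by omega)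
  have h2 : (l.factorial : ℝ) ≤ m.factorial := by exact_mod_cast Nat.factorial_le (by omega)
  have h3 : (j : ℝ) ≤ m := by exact_mod_cast (show j ≤ m by omega)
  have h4 : (l : ℝ) ≤ m := by exact_mod_cast (show l ≤ m by omega)
  have h5 : (0 : ℝ) < m.factorial := by exact_mod_cast Nat.factorial_pos m
  have h6 : (0 : ℝ) ≤ m := Nat.cast_nonneg _
  calc (j.factorial * j ^ 2 + (l.factorial * j + j.factorial + (j.factorial * l + l.factorial)) : ℝ)
      ≤ m.factorial * m ^ 2 + (m.factorial * m + m.factorial + (m.factorial * m + m.factorial)) := by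
        gcongr
    _ ≤ _ := by nlinarith [mul_nonneg h5.le h6, mul_nonneg h5.le (mul_nonneg h6 h6)]

theorem tmo (N : ℕ) (a : ℕ → ℂ) (θ lam A B : ℝ) (hN : 1 ≤ N) (hθ : 0 < θ) (hθ1 : θ ≤ 1)
    (hAB : A ≤ B) (ha : ∀ p, ‖a p‖ ≤ θ) (m : ℕ) :
    ‖∫ t in A..B, ex lam t * ((((AA N a t).re : ℝ) : ℂ) ^ m - GG (SS N a) m)‖ ≤
      (B - A) * (2 * m.factorial * (m + 1) ^ 2 * θ * (1 + SS N a) ^ m) + 4 * (N : ℝ) ^ (2 * m) := by
  set S := SS N a with hS
  have hS0 : 0 ≤ S := SS_nonneg N a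
  have hN' : (1 : ℝ) ≤ N := by exact_mod_cast hN
  have hc := cont_AA N a
  have hcj : Continuous fun t => (starRingEnd ℂ) (AA N a t) := Complex.continuous_conj.comp hc
  set W : ℕ → ℂ := fun j => if j = m - j then (j.factorial : ℂ) * (S : ℂ) ^ j else 0 with hW
  have e1 : ∀ t : ℝ, ex lam t * ((((AA N a t).re : ℝ) : ℂ) ^ m - GG S m) =
      ∑ j ∈ Finset.range (m + 1), ((1 / 2) ^ m * (m.choose j : ℂ)) *
        (ex lam t * ((AA N a t) ^ j * ((starRingEnd ℂ) (AA N a t)) ^ (m - j) - W j)) := by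
    intro t
    unfold GG
    rw [Complex.re_eq_add_conj, div_pow, add_pow, Finset.sum_div, Finset.mul_sum,
      ← Finset.sum_sub_distrib, Finset.mul_sum]
    refine Finset.sum_congr rfl fun j _ => ?_
    rw [hW]
    simp only [one_div, inv_pow]
    ring
  simp_rw [e1]
  have hcont : ∀ j : ℕ, Continuous fun t : ℝ =>
      ((1 / 2) ^ m * (m.choose j : ℂ)) * (ex lam t * ((AA N a t) ^ j *
        ((starRingEnd ℂ) (AA N a t)) ^ (m - j) - W j)) := fun j =>
    continuous_const.mul ((ex_cont lam).mul (((hc.pow j).mul (hcj.pow _)).sub continuous_const))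
  rw [intervalIntegral.integral_finsetSum fun j _ => (hcont j).intervalIntegrable _ _]
  have hb : ∀ j ∈ Finset.range (m + 1),
      ‖∫ t in A..B, ((1 / 2) ^ m * (m.choose j : ℂ)) * (ex lam t * ((AA N a t) ^ j *
        ((starRingEnd ℂ) (AA N a t)) ^ (m - j) - W j))‖ ≤
      ((1 / 2) ^ m * (m.choose j : ℝ)) *
        ((B - A) * (2 * m.factorial * (m + 1) ^ 2 * θ * (1 + S) ^ m) + 4 * (N : ℝ) ^ (2 * m)) := by
    intro j hj
    have hjm : j + (m - j) = m := by rw [Finset.mem_range] at hj; omega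
    rw [intervalIntegral.integral_const_mul, norm_mul]
    have e2 : ‖((1 / 2) ^ m * (m.choose j : ℂ))‖ = (1 / 2) ^ m * (m.choose j : ℝ) := by
      rw [norm_mul, norm_pow, Complex.norm_natCast]
      norm_num
    rw [e2]
    refine mul_le_mul_of_nonneg_left ?_ (by positivity)
    have h1 := tmom j (m - j) N a θ lam A B hN hθ hθ1 hAB ha
    rw [hjm] at h1
    refine h1.trans ?_
    have h2 := Kjl_le hjm
    have h3 : 0 ≤ B - A := by linarith
    change (B - A) * (Kjl j (m - j) * θ * (1 + S) ^ m) + _ ≤ _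
    gcongr
  refine (norm_sum_le _ _).trans ((Finset.sum_le_sum hb).trans (le_of_eq ?_))
  rw [← Finset.sum_mul, ← Finset.mul_sum]
  have hch : ∑ j ∈ Finset.range (m + 1), (m.choose j : ℝ) = 2 ^ m := by
    exact_mod_cast Nat.sum_range_choose m
  rw [hch, ← mul_pow]
  norm_num

/-- the characteristic function against an exponential -/
theorem tchar (N : ℕ) (a : ℕ → ℂ) (θ lam A B S0 : ℝ) (hN : 1 ≤ N) (hθ : 0 < θ) (hθ1 : θ ≤ 1)
    (hAB : A ≤ B) (ha : ∀ p, ‖a p‖ ≤ θ) (hS : SS N a ≤ S0) (K : ℕ) :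
    ‖∫ t in A..B, ex lam t * (cexp (I * ((AA N a t).re : ℂ)) -
      ∑ q ∈ Finset.range K, (-(SS N a : ℂ) / 4) ^ q / (q.factorial : ℂ))‖ ≤
      (B - A) * ((S0 / 4) ^ K / K.factorial +
        (2 * K + 1) * (2 * (2 * K + 1) ^ 2 * θ * (1 + S0) ^ (2 * K))) +
        (2 * K + 1) * (4 * (N : ℝ) ^ (4 * K)) := by
  set S := SS N a with hSdef
  have hS0 : 0 ≤ S := SS_nonneg N a
  have hN' : (1 : ℝ) ≤ N := by exact_mod_cast hN
  have hBA : 0 ≤ B - A := by linarith
  have hc := cont_AA N a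
  have hcr : Continuous fun t : ℝ => (AA N a t).re := Complex.continuous_re.comp hc
  have hcc : Continuous fun t : ℝ => (((AA N a t).re : ℝ) : ℂ) := Complex.continuous_ofReal.comp hcr
  -- the error of one moment
  set E : ℝ := (B - A) * (2 * (2 * K + 1) ^ 2 * θ * (1 + S0) ^ (2 * K)) +
    4 * (N : ℝ) ^ (4 * K) with hE
  have hmo : ∀ (la : ℝ) (m : ℕ), m ≤ 2 * K →
      ‖∫ t in A..B, ex la t * ((((AA N a t).re : ℝ) : ℂ) ^ m - GG S m)‖ ≤ (m.factorial : ℝ) * E := by
    intro la m hm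
    refine (tmo N a θ la A B hN hθ hθ1 hAB ha m).trans ?_
    rw [hE, mul_add]
    have f2 : (m : ℝ) + 1 ≤ 2 * K + 1 := by
      have : (m : ℝ) ≤ 2 * K := by exact_mod_cast hm
      linarith
    have f3 : (1 + S) ^ m ≤ (1 + S0) ^ (2 * K) :=
      (pow_le_pow_left₀ (by linarith) (by linarith) m).trans
        (pow_le_pow_right₀ (by linarith) hm)
    have f4 : (N : ℝ) ^ (2 * m) ≤ (N : ℝ) ^ (4 * K) := pow_le_pow_right₀ hN' (by omega)
    have f5 : (1 : ℝ) ≤ m.factorial := by exact_mod_cast Nat.factorial_pos m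
    refine add_le_add ?_ ?_
    · calc (B - A) * (2 * m.factorial * (m + 1) ^ 2 * θ * (1 + S) ^ m)
          ≤ (B - A) * (2 * m.factorial * (2 * K + 1) ^ 2 * θ * (1 + S0) ^ (2 * K)) := by gcongr
        _ = _ := by ring
    · calc 4 * (N : ℝ) ^ (2 * m) ≤ 4 * (N : ℝ) ^ (4 * K) := by gcongr
        _ ≤ (m.factorial : ℝ) * (4 * (N : ℝ) ^ (4 * K)) :=
            le_mul_of_one_le_left (by positivity) f5
  have hS00 : 0 ≤ S0 := hS0.trans hS
  have hE0 : 0 ≤ E := by positivity
  -- the remainder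
  set R : ℝ → ℂ := fun t => cexp (I * ((AA N a t).re : ℂ)) - ∑ m ∈ Finset.range (2 * K),
      (I * ((AA N a t).re : ℂ)) ^ m / (m.factorial : ℂ) with hR
  have hRc : Continuous R := by
    rw [hR]
    fun_prop
  have e1 : ∀ t : ℝ, ex lam t * (cexp (I * ((AA N a t).re : ℂ)) -
      ∑ q ∈ Finset.range K, (-(S : ℂ) / 4) ^ q / (q.factorial : ℂ)) =
      ex lam t * R t + ∑ m ∈ Finset.range (2 * K), (I ^ m / (m.factorial : ℂ)) *
        (ex lam t * ((((AA N a t).re : ℝ) : ℂ) ^ m - GG S m)) := by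
    intro t
    rw [← GG_sum S K, hR]
    have e2 : ∑ m ∈ Finset.range (2 * K), (I ^ m / (m.factorial : ℂ)) *
        (ex lam t * ((((AA N a t).re : ℝ) : ℂ) ^ m - GG S m)) =
        ex lam t * (∑ m ∈ Finset.range (2 * K), (I * ((AA N a t).re : ℂ)) ^ m / (m.factorial : ℂ)) -
        ex lam t * ∑ m ∈ Finset.range (2 * K), I ^ m / (m.factorial : ℂ) * GG S m := by
      rw [Finset.mul_sum, Finset.mul_sum, ← Finset.sum_sub_distrib]
      refine Finset.sum_congr rfl fun m _ => ?_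
      rw [mul_pow]
      ring
    rw [e2]
    ring
  simp_rw [e1]
  have hcont : ∀ m : ℕ, Continuous fun t : ℝ => (I ^ m / (m.factorial : ℂ)) *
        (ex lam t * ((((AA N a t).re : ℝ) : ℂ) ^ m - GG S m)) := fun m =>
    continuous_const.mul ((ex_cont lam).mul ((hcc.pow m).sub continuous_const))
  have i1 : IntervalIntegrable (fun t : ℝ => ex lam t * R t) volume A B :=
    ((ex_cont lam).mul hRc).intervalIntegrable _ _
  have i2 : IntervalIntegrable (fun t : ℝ => ∑ m ∈ Finset.range (2 * K), (I ^ m / (m.factorial : ℂ)) *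
        (ex lam t * ((((AA N a t).re : ℝ) : ℂ) ^ m - GG S m))) volume A B :=
    (continuous_finsetSum _ fun m _ => hcont m).intervalIntegrable _ _
  rw [intervalIntegral.integral_add i1 i2,
    intervalIntegral.integral_finsetSum fun m _ => (hcont m).intervalIntegrable _ _]
  have hpart2 : ‖∑ m ∈ Finset.range (2 * K), ∫ t in A..B, (I ^ m / (m.factorial : ℂ)) *
        (ex lam t * ((((AA N a t).re : ℝ) : ℂ) ^ m - GG S m))‖ ≤ 2 * K * E := by
    refine (norm_sum_le _ _).trans ?_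
    have : ∀ m ∈ Finset.range (2 * K), ‖∫ t in A..B, (I ^ m / (m.factorial : ℂ)) *
        (ex lam t * ((((AA N a t).re : ℝ) : ℂ) ^ m - GG S m))‖ ≤ E := by
      intro m hm
      rw [intervalIntegral.integral_const_mul, norm_mul, norm_div, norm_pow, Complex.norm_I,
        one_pow, Complex.norm_natCast]
      have f5 : (0 : ℝ) < m.factorial := by exact_mod_cast Nat.factorial_pos m
      have := hmo lam m (by rw [Finset.mem_range] at hm; omega)
      rw [one_div, inv_mul_le_iff₀ f5]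
      exact this
    refine (Finset.sum_le_sum this).trans ?_
    simp
  have hpart1 : ‖∫ t in A..B, ex lam t * R t‖ ≤ (B - A) * ((S0 / 4) ^ K / K.factorial) + E := by
    have hb : ‖∫ t in A..B, ex lam t * R t‖ ≤
        ∫ t in A..B, (AA N a t).re ^ (2 * K) / (2 * K).factorial := by
      refine intervalIntegral.norm_integral_le_of_norm_le hAB ?_ ?_
      · filter_upwards with t _
        have h5 := rem_abs (2 * K) ((AA N a t).re)
        rw [pow_mul |(AA N a t).re|, sq_abs, ← pow_mul] at h5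
        rw [norm_mul, ex_norm, one_mul]
        exact h5
      · apply Continuous.intervalIntegrable
        fun_prop
    refine hb.trans ?_
    have f5 : (0 : ℝ) < (2 * K).factorial := by exact_mod_cast Nat.factorial_pos (2 * K)
    have f6 : (0 : ℝ) < K.factorial := by exact_mod_cast Nat.factorial_pos K
    rw [intervalIntegral.integral_div, div_le_iff₀ f5]
    have h5 := hmo 0 (2 * K) le_rfl
    have e3 : ∫ t in A..B, ex 0 t * ((((AA N a t).re : ℝ) : ℂ) ^ (2 * K) - GG S (2 * K)) =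
        ((∫ t in A..B, (AA N a t).re ^ (2 * K) : ℝ) : ℂ) - (B - A : ℝ) * GG S (2 * K) := by
      have e4 : ∀ t : ℝ, ex 0 t * ((((AA N a t).re : ℝ) : ℂ) ^ (2 * K) - GG S (2 * K)) =
          (((AA N a t).re ^ (2 * K) : ℝ) : ℂ) - GG S (2 * K) := by
        intro t
        have : ex 0 t = 1 := by unfold ex; simp
        rw [this, one_mul]
        push_cast
        rfl
      simp_rw [e4]
      rw [intervalIntegral.integral_sub]
      · rw [intervalIntegral.integral_ofReal, intervalIntegral.integral_const]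
        simp
      · apply Continuous.intervalIntegrable
        fun_prop
      · exact intervalIntegrable_const
    rw [e3] at h5
    have h7 : ‖GG S (2 * K)‖ = ((2 * K).factorial : ℝ) / K.factorial * (S / 4) ^ K := by
      rw [GG_even, norm_mul, norm_div, norm_pow, norm_div, Complex.norm_natCast,
        Complex.norm_natCast, Complex.norm_real, Real.norm_of_nonneg hS0]
      norm_num
    have h8 : (S / 4) ^ K ≤ (S0 / 4) ^ K := pow_le_pow_left₀ (by positivity) (by linarith) K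
    have hpos : 0 ≤ ∫ t in A..B, (AA N a t).re ^ (2 * K) := by
      apply intervalIntegral.integral_nonneg hAB
      intro t _
      rw [pow_mul]
      positivity
    have h9 : (∫ t in A..B, (AA N a t).re ^ (2 * K)) ≤
        ‖(((∫ t in A..B, (AA N a t).re ^ (2 * K) : ℝ) : ℂ) - (B - A : ℝ) * GG S (2 * K))‖ +
        ‖((B - A : ℝ) : ℂ) * GG S (2 * K)‖ := by
      have := norm_add_le (((∫ t in A..B, (AA N a t).re ^ (2 * K) : ℝ) : ℂ) -
        (B - A : ℝ) * GG S (2 * K)) (((B - A : ℝ) : ℂ) * GG S (2 * K))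
      rw [sub_add_cancel, Complex.norm_real, Real.norm_of_nonneg hpos] at this
      exact this
    rw [norm_mul, Complex.norm_real, Real.norm_of_nonneg hBA, h7] at h9
    calc (∫ t in A..B, (AA N a t).re ^ (2 * K))
        ≤ ((2 * K).factorial : ℝ) * E + (B - A) * (((2 * K).factorial : ℝ) / K.factorial * (S / 4) ^ K) := by
          linarith
      _ ≤ ((2 * K).factorial : ℝ) * E + (B - A) * (((2 * K).factorial : ℝ) / K.factorial * (S0 / 4) ^ K) := by
          gcongr
      _ = ((B - A) * ((S0 / 4) ^ K / K.factorial) + E) * (2 * K).factorial := by ring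
  refine (norm_add_le _ _).trans ((add_le_add hpart1 hpart2).trans (le_of_eq ?_))
  rw [hE]
  ring

/-- **the central limit theorem against exponentials, in short intervals** -/
theorem tclt {S0 ε δ : ℝ} (hS0 : 0 < S0) (hε : 0 < ε) (hδ : 0 < δ) :
    ∃ η κ T0 : ℝ, 0 < η ∧ 0 < κ ∧ κ ≤ 1 ∧ 1 ≤ T0 ∧ ∀ T : ℝ, T0 ≤ T →
      ∀ (N : ℕ) (a : ℕ → ℂ), (N : ℝ) ≤ T ^ κ → (∀ p : ℕ, ‖a p‖ ≤ η) → SS N a ≤ S0 →
      ∀ lam A B : ℝ, A ≤ B →
        ‖∫ t in A..B, ex lam t * (cexp (I * ((AA N a t).re : ℂ)) - cexp (-(SS N a : ℂ) / 4))‖ ≤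
          ε * (B - A) + ε * T ^ δ := by
  -- the number of terms
  have hlim : Tendsto (fun K : ℕ => (S0 / 4) ^ K / K.factorial * (1 + Real.exp (S0 / 4))) atTop
      (𝓝 (0 * (1 + Real.exp (S0 / 4)))) :=
    (FloorSemiring.tendsto_pow_div_factorial_atTop (S0 / 4)).mul_const _
  rw [zero_mul] at hlim
  obtain ⟨K, hK1, hK⟩ := ((eventually_ge_atTop 1).and
    (hlim.eventually (gt_mem_nhds (show (0 : ℝ) < ε / 2 by positivity)))).exists
  have hKR : (1 : ℝ) ≤ K := by exact_mod_cast hK1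
  set D : ℝ := (2 * K + 1) * (2 * (2 * K + 1) ^ 2 * (1 + S0) ^ (2 * K)) with hD
  have hD0 : 0 < D := by positivity
  set η : ℝ := min 1 (ε / (2 * (D + 1))) with hη
  have hη0 : 0 < η := lt_min one_pos (by positivity)
  have hη1 : η ≤ 1 := min_le_left _ _
  have hηD : D * η ≤ ε / 2 := by
    have h1 : η ≤ ε / (2 * (D + 1)) := min_le_right _ _
    calc D * η ≤ D * (ε / (2 * (D + 1))) := mul_le_mul_of_nonneg_left h1 hD0.le
      _ = ε / 2 * (D / (D + 1)) := by field_simp
      _ ≤ ε / 2 * 1 := by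
          refine mul_le_mul_of_nonneg_left ?_ (by positivity)
          rw [div_le_one (by positivity)]
          linarith
      _ = ε / 2 := mul_one _
  set κ : ℝ := min 1 (δ / (8 * K)) with hκ
  have hκ0 : 0 < κ := lt_min one_pos (by positivity)
  have hκ1 : κ ≤ 1 := min_le_left _ _
  have hκδ : κ * (4 * K) ≤ δ / 2 := by
    calc κ * (4 * K) ≤ δ / (8 * K) * (4 * K) := by
          gcongr
          exact min_le_right _ _
      _ = δ / 2 := by field_simp; norm_num
  have hev : ∀ᶠ T : ℝ in atTop, (2 * K + 1) * 4 / ε ≤ T ^ (δ / 2) :=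
    (tendsto_rpow_atTop (by positivity)).eventually (eventually_ge_atTop _)
  obtain ⟨T1, hT1⟩ := eventually_atTop.1 hev
  refine ⟨η, κ, max 1 T1, hη0, hκ0, hκ1, le_max_left _ _, ?_⟩
  intro T hT N a hN ha hS lam A B hAB
  have hTge : 1 ≤ T := (le_max_left _ _).trans hT
  have hTpos : 0 < T := by linarith
  have hT2 := hT1 T ((le_max_right _ _).trans hT)
  have hBA : 0 ≤ B - A := by linarith
  -- replace `N` by `max N 1`
  have hfil : (Finset.Icc 1 (max N 1)).filter Nat.Prime = (Finset.Icc 1 N).filter Nat.Prime := by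
    ext p
    simp only [Finset.mem_filter, Finset.mem_Icc]
    constructor
    · rintro ⟨⟨h1, h2⟩, h3⟩
      refine ⟨⟨h1, ?_⟩, h3⟩
      rcases le_max_iff.1 h2 with h4 | h4
      · exact h4
      · have := h3.two_le
        omega
    · rintro ⟨⟨h1, h2⟩, h3⟩
      exact ⟨⟨h1, h2.trans (le_max_left _ _)⟩, h3⟩
  have hAA : ∀ t, AA N a t = AA (max N 1) a t := by
    intro t
    unfold AA
    rw [hfil]
  have hSS : SS N a = SS (max N 1) a := by
    unfold SS
    rw [hfil]
  simp_rw [hAA]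
  rw [hSS] at hS ⊢
  have hSn := SS_nonneg (max N 1) a
  have hM := tchar (max N 1) a η lam A B S0 (le_max_right _ _) hη0 hη1 hAB ha hS K
  have hNT : ((max N 1 : ℕ) : ℝ) ≤ T ^ κ := by
    rw [Nat.cast_max, Nat.cast_one]
    exact max_le hN (Real.one_le_rpow hTge hκ0.le)
  have hpow : ((max N 1 : ℕ) : ℝ) ^ (4 * K) ≤ T ^ (δ / 2) := by
    calc ((max N 1 : ℕ) : ℝ) ^ (4 * K) ≤ (T ^ κ) ^ (4 * K) :=
          pow_le_pow_left₀ (Nat.cast_nonneg _) hNT _
      _ = T ^ (κ * (4 * K)) := by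
          rw [← Real.rpow_natCast, ← Real.rpow_mul hTpos.le]
          congr 1
          push_cast
          ring
      _ ≤ T ^ (δ / 2) := Real.rpow_le_rpow_of_exponent_le hTge hκδ
  have hfin : (2 * K + 1) * (4 * ((max N 1 : ℕ) : ℝ) ^ (4 * K)) ≤ ε * T ^ δ := by
    have h1 : T ^ δ = T ^ (δ / 2) * T ^ (δ / 2) := by
      rw [← Real.rpow_add hTpos]
      norm_num
    have h0 : 0 < T ^ (δ / 2) := Real.rpow_pos_of_pos hTpos _
    rw [div_le_iff₀ hε] at hT2
    calc (2 * K + 1) * (4 * ((max N 1 : ℕ) : ℝ) ^ (4 * K))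
        ≤ (2 * K + 1) * (4 * T ^ (δ / 2)) := by gcongr
      _ = ((2 * K + 1) * 4) * T ^ (δ / 2) := by ring
      _ ≤ (T ^ (δ / 2) * ε) * T ^ (δ / 2) := by gcongr
      _ = ε * T ^ δ := by rw [h1]; ring
  have hexp : ‖∑ q ∈ Finset.range K, (-(SS (max N 1) a : ℂ) / 4) ^ q / (q.factorial : ℂ) -
      cexp (-((SS (max N 1) a : ℝ) : ℂ) / 4)‖ ≤
      (S0 / 4) ^ K / K.factorial * Real.exp (S0 / 4) := by
    rw [norm_sub_rev]
    have h1 := Complex.norm_exp_sub_sum_le_exp_norm_sub_sum (-((SS (max N 1) a : ℝ) : ℂ) / 4) K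
    have h2 : ‖(-((SS (max N 1) a : ℝ) : ℂ) / 4)‖ = SS (max N 1) a / 4 := by
      rw [norm_div, norm_neg, Complex.norm_real, Real.norm_of_nonneg hSn]
      norm_num
    rw [h2] at h1
    refine h1.trans ((tail_exp _ (by positivity) K).trans ?_)
    have h3 : (SS (max N 1) a / 4) ^ K ≤ (S0 / 4) ^ K := pow_le_pow_left₀ (by positivity) (by linarith) K
    have h4 : Real.exp (SS (max N 1) a / 4) ≤ Real.exp (S0 / 4) := Real.exp_le_exp.2 (by linarith)
    gcongr
  set W : ℂ := ∑ q ∈ Finset.range K, (-(SS (max N 1) a : ℂ) / 4) ^ q / (q.factorial : ℂ) with hW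
  have hc := cont_AA (max N 1) a
  have hcc : Continuous fun t : ℝ => (((AA (max N 1) a t).re : ℝ) : ℂ) :=
    Complex.continuous_ofReal.comp (Complex.continuous_re.comp hc)
  have e1 : (∫ t in A..B, ex lam t * (cexp (I * ((AA (max N 1) a t).re : ℂ)) -
      cexp (-(SS (max N 1) a : ℂ) / 4))) =
      (∫ t in A..B, ex lam t * (cexp (I * ((AA (max N 1) a t).re : ℂ)) - W)) +
      (∫ t in A..B, ex lam t * (W - cexp (-(SS (max N 1) a : ℂ) / 4))) := by
    rw [← intervalIntegral.integral_add]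
    · refine intervalIntegral.integral_congr fun t _ => ?_
      ring
    · apply Continuous.intervalIntegrable
      exact (ex_cont lam).mul (by fun_prop)
    · apply Continuous.intervalIntegrable
      exact (ex_cont lam).mul (by fun_prop)
  rw [e1]
  have h2 : ‖∫ t in A..B, ex lam t * (W - cexp (-(SS (max N 1) a : ℂ) / 4))‖ ≤
      (S0 / 4) ^ K / K.factorial * Real.exp (S0 / 4) * (B - A) := by
    have := intervalIntegral.norm_integral_le_of_norm_le_const (a := A) (b := B)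
      (f := fun t => ex lam t * (W - cexp (-(SS (max N 1) a : ℂ) / 4)))
      (C := (S0 / 4) ^ K / K.factorial * Real.exp (S0 / 4))
      (fun t _ => by rw [norm_mul, ex_norm, one_mul]; exact hexp)
    rwa [abs_of_nonneg hBA] at this
  refine (norm_add_le _ _).trans ((add_le_add hM h2).trans ?_)
  have e3 : (2 * (K : ℝ) + 1) * (2 * (2 * K + 1) ^ 2 * η * (1 + S0) ^ (2 * K)) = D * η := by
    rw [hD]; ring
  rw [e3]
  have h5 : (S0 / 4) ^ K / K.factorial + D * η + (S0 / 4) ^ K / K.factorial * Real.exp (S0 / 4) ≤ ε := by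
    have : (S0 / 4) ^ K / K.factorial * (1 + Real.exp (S0 / 4)) =
      (S0 / 4) ^ K / K.factorial + (S0 / 4) ^ K / K.factorial * Real.exp (S0 / 4) := by ring
    linarith
  calc (B - A) * ((S0 / 4) ^ K / K.factorial + D * η) +
        (2 * K + 1) * (4 * ((max N 1 : ℕ) : ℝ) ^ (4 * K)) +
        (S0 / 4) ^ K / K.factorial * Real.exp (S0 / 4) * (B - A)
      = (B - A) * ((S0 / 4) ^ K / K.factorial + D * η +
          (S0 / 4) ^ K / K.factorial * Real.exp (S0 / 4)) +
        (2 * K + 1) * (4 * ((max N 1 : ℕ) : ℝ) ^ (4 * K)) := by ring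
    _ ≤ (B - A) * ε + ε * T ^ δ := by gcongr
    _ = _ := by ring

/-- phases which are almost linear in short intervals -/
structure Ph (T δ : ℝ) (θ : ℝ → ℝ) : Prop where
  diff : Differentiable ℝ θ
  lip : ∀ s ∈ Icc T (2 * T), ∀ t ∈ Icc T (2 * T), |deriv θ s - deriv θ t| ≤ T ^ (-δ) * |s - t|

lemma Ph.mono {T δ δ' : ℝ} {θ : ℝ → ℝ} (h : Ph T δ θ) (hT : 1 ≤ T) (hδ : δ' ≤ δ) : Ph T δ' θ :=
  ⟨h.diff, fun s hs t ht => (h.lip s hs t ht).trans (mul_le_mul_of_nonneg_right
    (Real.rpow_le_rpow_of_exponent_le hT (by linarith)) (abs_nonneg _))⟩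

lemma Ph.add_linear {T δ : ℝ} {θ : ℝ → ℝ} (h : Ph T δ θ) (lam c : ℝ) :
    Ph T δ (fun t => θ t + (lam * t + c)) := by
  have hd : ∀ t, HasDerivAt (fun t => θ t + (lam * t + c)) (deriv θ t + lam) t := by
    intro t
    have h1 : HasDerivAt (fun t : ℝ => lam * t + c) lam t := by
      have := ((hasDerivAt_id t).const_mul lam).add_const c
      simpa using this
    exact (h.diff t).hasDerivAt.add h1
  refine ⟨fun t => (hd t).differentiableAt, fun s hs t ht => ?_⟩
  rw [(hd s).deriv, (hd t).deriv]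
  have := h.lip s hs t ht
  rwa [add_sub_add_right_eq_sub]

lemma Ph.neg {T δ : ℝ} {θ : ℝ → ℝ} (h : Ph T δ θ) : Ph T δ (fun t => - θ t) := by
  refine ⟨h.diff.neg, fun s hs t ht => ?_⟩
  have e : ∀ t, deriv (fun t => - θ t) t = - deriv θ t := fun t => deriv.fun_neg
  rw [e, e, ← neg_sub_neg, neg_neg, neg_neg, abs_sub_comm]
  rw [abs_sub_comm]
  have := h.lip s hs t ht
  rwa [abs_sub_comm (deriv θ t)]

lemma Ph.taylor {T δ H c t : ℝ} {θ : ℝ → ℝ} (h : Ph T δ θ) (hc : T ≤ c) (hcH : c + H ≤ 2 * T)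
    (ht : t ∈ Icc c (c + H)) : |θ t - (θ c + deriv θ c * (t - c))| ≤ T ^ (-δ) * H ^ 2 := by
  have hT0 : 0 ≤ T := by linarith [ht.1, ht.2, hc, hcH]
  have hp : 0 ≤ T ^ (-δ) := Real.rpow_nonneg hT0 _
  have h1 : ∀ x ∈ Icc c (c + H), HasDerivWithinAt (fun x => θ x - deriv θ c * x)
      (deriv θ x - deriv θ c) (Icc c (c + H)) x := by
    intro x _
    have h2 : HasDerivAt (fun x : ℝ => deriv θ c * x) (deriv θ c) x := by
      simpa using (hasDerivAt_id x).const_mul (deriv θ c)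
    exact ((h.diff x).hasDerivAt.sub h2).hasDerivWithinAt
  have h2 : ∀ x ∈ Icc c (c + H), ‖deriv θ x - deriv θ c‖ ≤ T ^ (-δ) * H := by
    intro x hx
    rw [Real.norm_eq_abs]
    refine (h.lip x ⟨by linarith [hx.1], by linarith [hx.2]⟩ c ⟨hc, by linarith [ht.1, ht.2]⟩).trans ?_
    refine mul_le_mul_of_nonneg_left ?_ hp
    rw [abs_of_nonneg (by linarith [hx.1])]
    linarith [hx.2]
  have h3 := (convex_Icc c (c + H)).norm_image_sub_le_of_norm_hasDerivWithin_le h1 h2
    (left_mem_Icc.2 (by linarith [ht.1, ht.2])) ht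
  rw [Real.norm_eq_abs, Real.norm_eq_abs, abs_of_nonneg (by linarith [ht.1] : (0 : ℝ) ≤ t - c)] at h3
  have e : θ t - (θ c + deriv θ c * (t - c)) = θ t - deriv θ c * t - (θ c - deriv θ c * c) := by ring
  rw [e]
  refine h3.trans ?_
  have h4 : t - c ≤ H := by linarith [ht.2]
  have hH : 0 ≤ H := by linarith [ht.1, ht.2]
  calc T ^ (-δ) * H * (t - c) ≤ T ^ (-δ) * H * H := by gcongr
    _ = _ := by ring

/-- integrals over long intervals from integrals over short ones -/
lemma short_sum {g : ℝ → ℂ} (hg : Continuous g) {C H A B e : ℝ} (hC : ∀ t, ‖g t‖ ≤ C) (hH : 0 < H)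
    (hAB : A ≤ B) (he : 0 ≤ e) (h : ∀ c, A ≤ c → c + H ≤ B → ‖∫ t in c..(c + H), g t‖ ≤ e * H) :
    ‖∫ t in A..B, g t‖ ≤ e * (B - A) + C * H := by
  have hC0 : 0 ≤ C := (norm_nonneg _).trans (hC 0)
  set M : ℕ := ⌊(B - A) / H⌋₊ with hM
  have hMle : (M : ℝ) * H ≤ B - A := by
    rw [← le_div_iff₀ hH]
    exact Nat.floor_le (div_nonneg (by linarith) hH.le)
  have hMlt : B - A < (M + 1) * H := by
    rw [← div_lt_iff₀ hH]
    exact Nat.lt_floor_add_one _
  have h1 : ∀ n : ℕ, (n : ℝ) * H ≤ B - A → ‖∫ t in A..(A + n * H), g t‖ ≤ e * (n * H) := by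
    intro n
    induction n with
    | zero => intro _; simp
    | succ n ih =>
      intro hn
      push_cast at hn ⊢
      have h2 := ih (by nlinarith)
      have h3 := h (A + n * H) (by nlinarith) (by nlinarith)
      have e1 : A + (n + 1) * H = A + n * H + H := by ring
      rw [e1, ← intervalIntegral.integral_add_adjacent_intervals (b := A + n * H)
        (hg.intervalIntegrable _ _) (hg.intervalIntegrable _ _)]
      refine (norm_add_le _ _).trans ?_
      linarith
  have h2 := h1 M hMle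
  rw [← intervalIntegral.integral_add_adjacent_intervals (b := A + M * H)
    (hg.intervalIntegrable _ _) (hg.intervalIntegrable _ _)]
  have h3 := intervalIntegral.norm_integral_le_of_norm_le_const (a := A + M * H) (b := B) (f := g)
    (C := C) (fun t _ => hC t)
  rw [abs_of_nonneg (by linarith)] at h3
  refine (norm_add_le _ _).trans ?_
  have h4 : C * (B - (A + M * H)) ≤ C * H := by
    apply mul_le_mul_of_nonneg_left _ hC0
    nlinarith
  have h5 : e * (M * H) ≤ e * (B - A) := mul_le_mul_of_nonneg_left hMle he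
  linarith

/-- **the central limit theorem for prime polynomials against phases which are almost linear in
short intervals** -/
theorem tph {S0 ε δ : ℝ} (hS0 : 0 < S0) (hε : 0 < ε) (hδ : 0 < δ) :
    ∃ η κ T0 : ℝ, 0 < η ∧ 0 < κ ∧ κ ≤ 1 ∧ 1 ≤ T0 ∧ ∀ T : ℝ, T0 ≤ T →
      ∀ (N : ℕ) (a : ℕ → ℂ), (N : ℝ) ≤ T ^ κ → (∀ p : ℕ, ‖a p‖ ≤ η) → SS N a ≤ S0 →
      ∀ θ : ℝ → ℝ, Ph T δ θ → ∀ A B : ℝ, T ≤ A → A ≤ B → B ≤ 2 * T →
        ‖∫ t in A..B, cexp ((θ t : ℂ) * I) *
          (cexp (I * ((AA N a t).re : ℂ)) - cexp (-(SS N a : ℂ) / 4))‖ ≤ ε * T := by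
  wlog hδ1 : δ ≤ 1 generalizing δ
  · obtain ⟨η, κ, T0, h1, h2, h3, h4, h5⟩ := this one_pos le_rfl
    refine ⟨η, κ, T0, h1, h2, h3, h4, fun T hT N a hN ha hS θ hθ => ?_⟩
    exact h5 T hT N a hN ha hS θ (hθ.mono (h4.trans hT) (by linarith [not_le.1 hδ1]))
  obtain ⟨η, κ, T0, h1, h2, h3, h4, h5⟩ := tclt hS0 (show 0 < ε / 8 by positivity)
    (show 0 < δ / 3 by positivity)
  have hev : ∀ᶠ T : ℝ in atTop, 8 / ε ≤ T ^ (δ / 3) :=
    (tendsto_rpow_atTop (by positivity)).eventually (eventually_ge_atTop _)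
  obtain ⟨T1, hT1⟩ := eventually_atTop.1 hev
  refine ⟨η, κ, max T0 T1, h1, h2, h3, le_max_of_le_left h4, fun T hT N a hN ha hS θ hθ A B hA hAB hB => ?_⟩
  have hTge : 1 ≤ T := h4.trans ((le_max_left _ _).trans hT)
  have hTpos : 0 < T := by linarith
  have hT2 := hT1 T ((le_max_right _ _).trans hT)
  have hT3 := h5 T ((le_max_left _ _).trans hT) N a hN ha hS
  set H : ℝ := T ^ (δ / 3) with hH
  have hH0 : 0 < H := Real.rpow_pos_of_pos hTpos _
  have hSn := SS_nonneg N a
  have hc := cont_AA N a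
  have hcc : Continuous fun t : ℝ => (((AA N a t).re : ℝ) : ℂ) :=
    Complex.continuous_ofReal.comp (Complex.continuous_re.comp hc)
  have hθc : Continuous fun t : ℝ => (θ t : ℂ) := Complex.continuous_ofReal.comp hθ.diff.continuous
  set Z : ℝ → ℂ := fun t => cexp (I * ((AA N a t).re : ℂ)) - cexp (-(SS N a : ℂ) / 4) with hZ
  have hZc : Continuous Z := by rw [hZ]; fun_prop
  have hZ2 : ∀ t, ‖Z t‖ ≤ 2 := by
    intro t
    rw [hZ]
    refine (norm_sub_le _ _).trans ?_
    have q1 : ‖cexp (I * ((AA N a t).re : ℂ))‖ = 1 := by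
      rw [mul_comm]; exact Complex.norm_exp_ofReal_mul_I _
    have q2 : ‖cexp (-(SS N a : ℂ) / 4)‖ ≤ 1 := by
      have : (-(SS N a : ℂ) / 4) = ((-(SS N a) / 4 : ℝ) : ℂ) := by push_cast; ring
      rw [this, Complex.norm_exp, Complex.ofReal_re, Real.exp_le_one_iff]
      linarith
    rw [q1]
    linarith
  have hexp1 : ∀ x : ℝ, ‖cexp ((x : ℂ) * I)‖ = 1 := fun x => Complex.norm_exp_ofReal_mul_I x
  have hHT : T ^ (-δ) * H ^ 2 ≤ ε / 8 := by
    have e1 : T ^ (-δ) * H ^ 2 = (T ^ (δ / 3))⁻¹ := by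
      rw [hH, ← Real.rpow_natCast, ← Real.rpow_mul hTpos.le, ← Real.rpow_add hTpos,
        ← Real.rpow_neg hTpos.le]
      congr 1
      push_cast
      ring
    rw [e1, ← hH]
    rw [div_le_iff₀ hε] at hT2
    rw [inv_le_comm₀ hH0 (by positivity), inv_div]
    rw [div_le_iff₀ hε]
    exact hT2
  have hloc : ∀ c, A ≤ c → c + H ≤ B → ‖∫ t in c..(c + H), cexp ((θ t : ℂ) * I) * Z t‖ ≤
      (ε / 2) * H := by
    intro c hc1 hc2
    set d := deriv θ c with hd
    have e1 : (∫ t in c..(c + H), cexp ((θ t : ℂ) * I) * Z t) =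
        (∫ t in c..(c + H), (cexp ((θ t : ℂ) * I) - cexp (((θ c + d * (t - c) : ℝ) : ℂ) * I)) * Z t) +
        cexp (((θ c - d * c : ℝ) : ℂ) * I) * ∫ t in c..(c + H), ex d t * Z t := by
      rw [← intervalIntegral.integral_const_mul, ← intervalIntegral.integral_add]
      · refine intervalIntegral.integral_congr fun t _ => ?_
        have : cexp (((θ c - d * c : ℝ) : ℂ) * I) * ex d t = cexp (((θ c + d * (t - c) : ℝ) : ℂ) * I) := by
          unfold ex
          rw [← Complex.exp_add]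
          congr 1
          push_cast
          ring
        rw [← mul_assoc, this]
        ring
      · apply Continuous.intervalIntegrable
        fun_prop
      · apply Continuous.intervalIntegrable
        exact continuous_const.mul ((ex_cont d).mul hZc)
    rw [e1]
    have b1 := hT3 d c (c + H) (by linarith)
    have b2 : ‖∫ t in c..(c + H), (cexp ((θ t : ℂ) * I) - cexp (((θ c + d * (t - c) : ℝ) : ℂ) * I)) * Z t‖ ≤
        (ε / 4) * H := by
      have := intervalIntegral.norm_integral_le_of_norm_le_const (a := c) (b := c + H)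
        (f := fun t => (cexp ((θ t : ℂ) * I) - cexp (((θ c + d * (t - c) : ℝ) : ℂ) * I)) * Z t)
        (C := ε / 4) (fun t ht => ?_)
      · rwa [add_sub_cancel_left, abs_of_pos hH0] at this
      · rw [uIoc_of_le (by linarith)] at ht
        rw [norm_mul]
        have q1 := exp_diff (θ t) (θ c + d * (t - c))
        rw [mul_comm I, mul_comm I] at q1
        have q2 := hθ.taylor (by linarith) (by linarith) (Ioc_subset_Icc_self ht)
        rw [← hd] at q2
        calc _ ≤ ε / 8 * 2 := mul_le_mul (q1.trans (q2.trans hHT)) (hZ2 t) (norm_nonneg _) (by positivity)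
          _ = ε / 4 := by ring
    refine (norm_add_le _ _).trans ?_
    rw [norm_mul, hexp1, one_mul]
    rw [add_sub_cancel_left] at b1
    have b3 : ‖∫ t in c..(c + H), ex d t * Z t‖ ≤ ε / 8 * H + ε / 8 * H := b1
    linarith
  have hfin := short_sum (g := fun t => cexp ((θ t : ℂ) * I) * Z t) (by fun_prop) (C := 2)
    (fun t => by rw [norm_mul, hexp1, one_mul]; exact hZ2 t) hH0 hAB (by positivity) hloc
  refine hfin.trans ?_
  have h6 : 2 * H ≤ ε / 4 * T := by
    have e1 : H * (T ^ (δ / 3) * T ^ (1 - 2 * δ / 3)) = T := by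
      rw [hH, ← mul_assoc, ← Real.rpow_add hTpos, ← Real.rpow_add hTpos]
      have : δ / 3 + δ / 3 + (1 - 2 * δ / 3) = 1 := by ring
      rw [this, Real.rpow_one]
    have e2 : 1 ≤ T ^ (1 - 2 * δ / 3) := Real.one_le_rpow hTge (by linarith)
    rw [div_le_iff₀ hε] at hT2
    calc 2 * H = H * (8 * 1) / 4 := by ring
      _ ≤ H * ((H * ε) * T ^ (1 - 2 * δ / 3)) / 4 := by gcongr
      _ = ε / 4 * (H * (T ^ (δ / 3) * T ^ (1 - 2 * δ / 3))) := by rw [← hH]; ring
      _ = ε / 4 * T := by rw [e1]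
  have h7 : ε / 2 * (B - A) ≤ ε / 2 * T := by
    apply mul_le_mul_of_nonneg_left _ (by positivity)
    linarith
  nlinarith

end Pool.Agent.H493.MX
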