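import Pool.Agent.H203.ME.ALL2
import Pool.Agent.H493.MX.TClt

set_option autoImplicit false

/-! The linear statistics are close to prime polynomials in the mean (after helper203's MAIN.lean). -/

open Complex Filter Topology Set MeasureTheory

namespace Pool.Agent.H493.MX

open Pool.Agent.H203.ME Pool.Agent.H203.ME.CLTL

theorem l1c {V δ0 κ : ℝ} (hV0 : 0 < V) (hδ00 : 0 < δ0) (hκ : 0 < κ) :
    ∃ ε1 η T0 : ℝ, 0 < ε1 ∧ ε1 ≤ κ ∧ 0 < η ∧ η ≤ 1 ∧ 10 ≤ T0 ∧ ∀ T : ℝ, T0 ≤ T →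
      ∀ F : ℝ → ℝ, Adm η V (Real.log T) F →
        (∫ t in T..(2 * T), ‖cexp (I * (XF F T t : ℂ)) -
          cexp (I * ((AA ⌊T ^ ε1⌋₊ (ap F) t).re : ℂ))‖) ≤ δ0 * T ∧
        SS ⌊T ^ ε1⌋₊ (ap F) ≤ V + 1 ∧
        ‖cexp (-(SS ⌊T ^ ε1⌋₊ (ap F) : ℂ) / 4) - cexp (-(sg F : ℂ) / 2)‖ ≤ δ0 ∧
        ∀ p, ‖ap F p‖ ≤ η := by
  obtain ⟨CA, TA, hCA, hTA, hA⟩ := p_APX
  have hBC := t_BBC
  obtain ⟨CP, hCP, hP⟩ := t_PRM t_VAR
  obtain ⟨CV, hCV, hV⟩ := t_VAR
  obtain ⟨δ, hδ⟩ : ∃ δ, δ = δ0 / 4 := ⟨_, rfl⟩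
  have hδ0 : 0 < δ := by rw [hδ]; positivity
  obtain ⟨ε1, hε1⟩ : ∃ ε1, ε1 = min (min κ (1 / 4)) (δ ^ 2 / (2 * CP * (V + 1))) := ⟨_, rfl⟩
  have hε10 : 0 < ε1 := by rw [hε1]; positivity
  have hε1κ : ε1 ≤ κ := by rw [hε1]; exact (min_le_left _ _).trans (min_le_left _ _)
  have hε14 : ε1 ≤ 1 / 4 := by rw [hε1]; exact (min_le_left _ _).trans (min_le_right _ _)
  have hε1d : ε1 ≤ δ ^ 2 / (2 * CP * (V + 1)) := by rw [hε1]; exact min_le_right _ _
  obtain ⟨TP, hTP, hP⟩ := hP ε1 hε10 hε14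
  obtain ⟨m, hm⟩ : ∃ m, m = min 1 δ := ⟨_, rfl⟩
  have hm0 : 0 < m := by rw [hm]; positivity
  have hm1 : m ≤ 1 := by rw [hm]; exact min_le_left _ _
  have hmδ : m ≤ δ := by rw [hm]; exact min_le_right _ _
  obtain ⟨M, hM⟩ : ∃ M, M = CP + CV + CA + 1 := ⟨_, rfl⟩
  have hM0 : 0 < M := by rw [hM]; positivity
  obtain ⟨c, hc⟩ : ∃ c, c = ε1 ^ 2 * m ^ 2 / (16 * M) := ⟨_, rfl⟩
  have hc0 : 0 < c := by rw [hc]; positivity
  -- the threshold
  have hev : ∀ᶠ T : ℝ in atTop, TA ≤ T ∧ TP ≤ T ∧ 4 ≤ T ^ ε1 ∧ 8 * Real.log T ≤ δ * T := by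
    refine (eventually_ge_atTop TA).and ((eventually_ge_atTop TP).and
      (((tendsto_rpow_atTop hε10).eventually (eventually_ge_atTop 4)).and ?_))
    have h1 := Real.isLittleO_log_id_atTop.bound (show 0 < δ / 8 by positivity)
    filter_upwards [h1, eventually_ge_atTop (1 : ℝ)] with T h1 h2
    rw [Real.norm_eq_abs, abs_of_nonneg (Real.log_nonneg h2)] at h1
    simp only [id, Real.norm_eq_abs] at h1
    rw [abs_of_nonneg (by linarith)] at h1
    linarith
  obtain ⟨T1, hT1⟩ := eventually_atTop.1 hev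
  refine ⟨ε1, min 1 c, max T1 10, hε10, hε1κ, by positivity, min_le_left _ _, le_max_right _ _,
    fun T hT F hF => ?_⟩
  obtain ⟨hTA', hTP', hT4, hT8⟩ := hT1 T ((le_max_left _ _).trans hT)
  have hT10 : 10 ≤ T := (le_max_right _ _).trans hT
  have hT0 : 0 < T := by linarith
  obtain ⟨η, hη⟩ : ∃ η, η = min 1 c := ⟨_, rfl⟩
  rw [← hη] at hF ⊢
  have hη0 : 0 < η := by rw [hη]; positivity
  have hη1 : η ≤ 1 := by rw [hη]; exact min_le_left _ _
  have hηc' : η ≤ c := by rw [hη]; exact min_le_right _ _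
  obtain ⟨hL20, hA⟩ := hA T hTA'
  obtain ⟨hXc, hab, hA⟩ := hA η V F hη0 hF
  have hP := hP T hTP' η V F hη0 hη1 hV0.le hF
  set L := Real.log T with hLd
  have hL0 : 0 < L := by linarith
  set N := ⌊T ^ ε1⌋₊ with hN
  obtain ⟨hNlog, hN3⟩ := floor_log hT4
  rw [← hN] at hNlog hN3
  have hlogN : ε1 * L / 2 ≤ Real.log N := by
    rw [Real.log_rpow hT0] at hNlog; linarith
  have hlogN0 : 0 < Real.log N := lt_of_lt_of_le (by positivity) hlogN
  have hVN := hV η V L F hη0 (by linarith) hF N hN3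
  -- numerical facts
  have n1 : η * M ≤ m ^ 2 / 16 := by
    calc η * M ≤ c * M := by gcongr
      _ = ε1 ^ 2 * m ^ 2 / 16 := by rw [hc]; field_simp
      _ ≤ 1 * m ^ 2 / 16 := by
          gcongr
          nlinarith only [hε10, hε14]
      _ = _ := by ring
  have n2 : η ^ 2 / ε1 ^ 2 * M ≤ m ^ 2 / 16 := by
    calc η ^ 2 / ε1 ^ 2 * M = η / ε1 ^ 2 * (η * M) := by ring
      _ ≤ c / ε1 ^ 2 * (1 * M) := by gcongr
      _ = m ^ 2 / 16 := by rw [hc]; field_simp
  have hm2 : m ^ 2 ≤ m := by nlinarith only [hm0, hm1]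
  have n3 : CV * (η + η ^ 2 + (η * L / Real.log N) ^ 2) ≤ m ^ 2 / 2 := by
    have h1 : η * L / Real.log N ≤ 2 * η / ε1 := by
      rw [div_le_div_iff₀ hlogN0 hε10]
      nlinarith only [hlogN, hη0]
    have h2 : (η * L / Real.log N) ^ 2 ≤ (2 * η / ε1) ^ 2 := pow_le_pow_left₀ (by positivity) h1 2
    have h3 : CV ≤ M := by rw [hM]; linarith
    have h4 : η ^ 2 ≤ η := by nlinarith only [hη0, hη1]
    calc CV * (η + η ^ 2 + (η * L / Real.log N) ^ 2) ≤ M * (η + η + (2 * η / ε1) ^ 2) := by gcongr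
      _ = 2 * (η * M) + 4 * (η ^ 2 / ε1 ^ 2 * M) := by ring
      _ ≤ 2 * (m ^ 2 / 16) + 4 * (m ^ 2 / 16) := by gcongr
      _ ≤ _ := by nlinarith only [sq_nonneg m]
  set SSS := ∑ p ∈ (Finset.Icc 1 N).filter Nat.Prime, (Real.log p) ^ 2 / p * ‖FF F (Real.log p)‖ ^ 2 with hSS
  set VV := ∫ ξ in Ioi (0 : ℝ), ξ * ‖FF F ξ‖ ^ 2 with hVV
  have hSap : SS N (ap F) = 1 / Real.pi ^ 2 * SSS := by
    unfold SS
    rw [hSS, Finset.mul_sum]
    exact Finset.sum_congr rfl fun p _ => ap_sq F p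
  have hpi2 : 1 / Real.pi ^ 2 ≤ 1 := by
    rw [div_le_one (by positivity)]
    nlinarith only [Real.pi_gt_three]
  have hpi20 : 0 < 1 / Real.pi ^ 2 := by positivity
  have hSS0 : 0 ≤ SSS := Finset.sum_nonneg fun p _ => by positivity
  have hVV0 : 0 ≤ VV := by
    rw [hVV]
    apply setIntegral_nonneg measurableSet_Ioi
    intro ξ hξ
    have : (0 : ℝ) < ξ := hξ
    positivity
  have hVVV : VV ≤ V := hF.va
  have hSVabs := abs_le.1 (hVN.trans n3)
  have part3 : ‖cexp (-((1 / Real.pi ^ 2 * SSS : ℝ) : ℂ) / 4) - cexp (-(sg F : ℂ) / 2)‖ ≤ δ := by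
    have e1 : cexp (-((1 / Real.pi ^ 2 * SSS : ℝ) : ℂ) / 4) = ((Real.exp (-(1 / Real.pi ^ 2 * SSS / 4)) : ℝ) : ℂ) := by
      push_cast; congr 1; ring
    have e2 : cexp (-(sg F : ℂ) / 2) = ((Real.exp (-(sg F / 2)) : ℝ) : ℂ) := by
      push_cast; congr 1; ring
    rw [e1, e2, ← Complex.ofReal_sub, Complex.norm_real, Real.norm_eq_abs]
    have hsg : sg F = 1 / (2 * Real.pi ^ 2) * VV := rfl
    refine (exp_neg_diff (by positivity) (by rw [hsg]; positivity)).trans ?_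
    have : 1 / Real.pi ^ 2 * SSS / 4 - sg F / 2 = 1 / Real.pi ^ 2 / 4 * (SSS - VV) := by
      rw [hsg]; ring
    rw [this, abs_mul, abs_of_pos (by positivity)]
    have h1 : |SSS - VV| ≤ m ^ 2 / 2 := hVN.trans n3
    have h2 : 1 / Real.pi ^ 2 / 4 ≤ 1 := by linarith
    calc _ ≤ 1 * (m ^ 2 / 2) := by gcongr
      _ ≤ δ := by linarith only [hm2, hmδ, hm0]
  refine ⟨?_, ?_, ?_, fun p => (ap_le F p).trans hF.l1⟩
  rotate_left
  · rw [hSap]
    have : SSS ≤ V + 1 := by linarith only [hSVabs.2, hVVV, hm2, hm1]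
    nlinarith only [this, hSS0, hpi2, hpi20]
  · rw [hSap]
    refine part3.trans ?_
    rw [hδ]
    linarith
  -- the first part
  set a := T + 2 * L with ha
  set b := 2 * T - 2 * L with hb
  have hFc2 := hF.c2
  have hYc := Y1_cont F N
  have hBc := hBC F hFc2 (L / 4) (by linarith)
  have hAY : ∀ t, (AA N (ap F) t).re = - Y1 F N t := fun t => Y1_eq F N t
  simp_rw [hAY]
  set f : ℝ → ℝ := fun t => ‖cexp (I * (XF F T t : ℂ)) - cexp (I * ((-Y1 F N t : ℝ) : ℂ))‖ with hf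
  have hXcT : ContinuousOn (XF F T) (Icc T (2 * T)) := XF_contOn hFc2 (by linarith)
  have hfc : ContinuousOn f (Icc T (2 * T)) := by
    rw [hf]
    apply ContinuousOn.norm
    apply ContinuousOn.sub
    · apply ContinuousOn.cexp
      exact continuousOn_const.mul (Complex.continuous_ofReal.comp_continuousOn hXcT)
    · exact Continuous.continuousOn (by fun_prop)
  have hTa : T ≤ a := by rw [ha]; linarith
  have hb2 : b ≤ 2 * T := by rw [hb]; linarith
  have hii : ∀ x y : ℝ, T ≤ x → x ≤ y → y ≤ 2 * T → IntervalIntegrable f volume x y := by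
    intro x y hx hxy hy
    apply ContinuousOn.intervalIntegrable
    rw [uIcc_of_le hxy]
    exact hfc.mono (Icc_subset_Icc hx hy)
  have hsplit : ∫ t in T..(2 * T), f t = (∫ t in T..a, f t) + (∫ t in a..b, f t) + ∫ t in b..(2 * T), f t := by
    rw [intervalIntegral.integral_add_adjacent_intervals (hii T a le_rfl hTa (by linarith))
      (hii a b hTa hab hb2), intervalIntegral.integral_add_adjacent_intervals (hii T b le_rfl (by linarith) hb2)
      (hii b (2 * T) (by linarith) hb2 le_rfl)]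
  have q1 : ∫ t in T..a, f t ≤ 2 * (2 * L) := by
    have := intervalIntegral.norm_integral_le_of_norm_le_const (a := T) (b := a) (f := f) (C := 2)
      (fun t _ => by rw [hf]; simp only [norm_norm]; exact exp_diff2 _ _)
    rw [abs_of_nonneg (by linarith)] at this
    calc _ ≤ _ := le_abs_self _
      _ ≤ _ := this
      _ = _ := by rw [ha]; ring
  have q3 : ∫ t in b..(2 * T), f t ≤ 2 * (2 * L) := by
    have := intervalIntegral.norm_integral_le_of_norm_le_const (a := b) (b := 2 * T) (f := f) (C := 2)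
      (fun t _ => by rw [hf]; simp only [norm_norm]; exact exp_diff2 _ _)
    rw [abs_of_nonneg (by linarith)] at this
    calc _ ≤ _ := le_abs_self _
      _ ≤ _ := this
      _ = _ := by rw [hb]; ring
  have q2 : ∫ t in a..b, f t ≤ (∫ t in a..b, |XF F T t + BB F (L / 4) t|) +
      ((∫ t in a..b, (BB F (L / 4) t - Y1 F N t) ^ 2) / (2 * δ) + δ / 2 * T) := by
    have i1 : IntervalIntegrable (fun t => |XF F T t + BB F (L / 4) t|) volume a b := by
      apply ContinuousOn.intervalIntegrable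
      rw [uIcc_of_le hab]
      exact (hXc.add hBc.continuousOn).abs
    have i2 : IntervalIntegrable (fun t => (BB F (L / 4) t - Y1 F N t) ^ 2 / (2 * δ) + δ / 2) volume a b :=
      Continuous.intervalIntegrable (by fun_prop) _ _
    have h1 : ∫ t in a..b, f t ≤ ∫ t in a..b, (|XF F T t + BB F (L / 4) t| +
        ((BB F (L / 4) t - Y1 F N t) ^ 2 / (2 * δ) + δ / 2)) := by
      apply intervalIntegral.integral_mono_on hab (hii a b hTa hab hb2) (i1.add i2)
      intro t _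
      have h2 := exp_diff (XF F T t) (-Y1 F N t)
      have h3 : |XF F T t - -Y1 F N t| ≤ |XF F T t + BB F (L / 4) t| + |BB F (L / 4) t - Y1 F N t| := by
        have : XF F T t - -Y1 F N t = (XF F T t + BB F (L / 4) t) - (BB F (L / 4) t - Y1 F N t) := by ring
        rw [this]
        exact abs_sub _ _
      have h4 : |BB F (L / 4) t - Y1 F N t| ≤ (BB F (L / 4) t - Y1 F N t) ^ 2 / (2 * δ) + δ / 2 := by
        rw [← sq_abs]
        set x := |BB F (L / 4) t - Y1 F N t|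
        have h5 : x ^ 2 / (2 * δ) + δ / 2 - x = (x - δ) ^ 2 / (2 * δ) := by field_simp; ring
        have h6 : 0 ≤ (x - δ) ^ 2 / (2 * δ) := by positivity
        linarith
      exact h2.trans (by linarith)
    refine h1.trans ?_
    rw [intervalIntegral.integral_add i1 i2, intervalIntegral.integral_add, intervalIntegral.integral_const,
      intervalIntegral.integral_div, smul_eq_mul]
    · have : (b - a) * (δ / 2) ≤ δ / 2 * T := by
        rw [mul_comm]
        apply mul_le_mul_of_nonneg_left _ (by positivity)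
        rw [ha, hb]; linarith
      linarith
    · exact Continuous.intervalIntegrable (by fun_prop) _ _
    · exact intervalIntegrable_const
  have q4 : ∫ t in a..b, (BB F (L / 4) t - Y1 F N t) ^ 2 ≤ T * δ ^ 2 := by
    have h1 : ∫ t in a..b, (BB F (L / 4) t - Y1 F N t) ^ 2 ≤ ∫ t in T..(2 * T), (BB F (L / 4) t - Y1 F N t) ^ 2 := by
      apply intervalIntegral.integral_mono_interval hTa hab hb2
      · exact Eventually.of_forall fun t => sq_nonneg _
      · exact Continuous.intervalIntegrable (by fun_prop) _ _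
    refine h1.trans (hP.trans ?_)
    have h2 : CP * (η ^ 2 / ε1 ^ 2) ≤ δ ^ 2 / 2 := by
      have h3 : CP ≤ M := by rw [hM]; linarith
      calc CP * (η ^ 2 / ε1 ^ 2) ≤ M * (η ^ 2 / ε1 ^ 2) := by gcongr
        _ = η ^ 2 / ε1 ^ 2 * M := mul_comm _ _
        _ ≤ m ^ 2 / 16 := n2
        _ ≤ δ ^ 2 / 2 := by
            have : m ^ 2 ≤ δ ^ 2 := pow_le_pow_left₀ hm0.le hmδ 2
            have := sq_nonneg δ
            linarith
    have h4 : CP * (ε1 ^ 4 * (V + 1)) ≤ δ ^ 2 / 2 := by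
      have h5 : ε1 ^ 4 ≤ ε1 := by
        have : ε1 ^ 3 ≤ 1 := pow_le_one₀ hε10.le (by linarith)
        calc ε1 ^ 4 = ε1 ^ 3 * ε1 := by ring
          _ ≤ 1 * ε1 := by gcongr
          _ = ε1 := one_mul _
      calc CP * (ε1 ^ 4 * (V + 1)) ≤ CP * (ε1 * (V + 1)) := by gcongr
        _ ≤ CP * (δ ^ 2 / (2 * CP * (V + 1)) * (V + 1)) := by gcongr
        _ = δ ^ 2 / 2 := by field_simp
    calc CP * T * (η ^ 2 / ε1 ^ 2 + ε1 ^ 4 * (V + 1)) = T * (CP * (η ^ 2 / ε1 ^ 2) + CP * (ε1 ^ 4 * (V + 1))) := by ring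
      _ ≤ T * (δ ^ 2 / 2 + δ ^ 2 / 2) := by gcongr
      _ = _ := by ring
  rw [hsplit]
  have h3 : (∫ t in a..b, (BB F (L / 4) t - Y1 F N t) ^ 2) / (2 * δ) ≤ T * δ / 2 := by
    rw [div_le_iff₀ (by positivity)]
    calc _ ≤ _ := q4
      _ = _ := by ring
  have h4 : CA * T * η ≤ δ * T / 2 := by
    have h5 : CA ≤ M := by rw [hM]; linarith
    calc CA * T * η ≤ M * T * η := by gcongr
      _ = T * (η * M) := by ring
      _ ≤ T * (m ^ 2 / 16) := by gcongr
      _ ≤ _ := by nlinarith only [mul_le_mul_of_nonneg_left (hm2.trans hmδ) hT0.le, mul_pos hδ0 hT0]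
  have h6 : δ0 = 4 * δ := by rw [hδ]; ring
  rw [h6]
  nlinarith only [q1, q2, q3, h3, h4, hA, hT8, mul_pos hδ0 hT0]

/-- **mixing**: the characteristic functions of the linear statistics against phases -/
theorem tmain {V ε δ : ℝ} (hV : 0 < V) (hε : 0 < ε) (hδ : 0 < δ) :
    ∃ η T0 : ℝ, 0 < η ∧ η ≤ 1 ∧ 10 ≤ T0 ∧ ∀ T : ℝ, T0 ≤ T →
      ∀ F : ℝ → ℝ, Adm η V (Real.log T) F → ∀ θ : ℝ → ℝ, Ph T δ θ →
      ∀ A B : ℝ, T ≤ A → A ≤ B → B ≤ 2 * T →
        ‖∫ t in A..B, cexp ((θ t : ℂ) * I) *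
          (cexp (I * (XF F T t : ℂ)) - cexp (-(sg F : ℂ) / 2))‖ ≤ ε * T := by
  obtain ⟨η1, κ, T1, hη1, hκ, hκ1, hT1, h1⟩ := tph (show 0 < V + 1 by linarith)
    (show 0 < ε / 4 by positivity) hδ
  obtain ⟨ε1, η2, T2, hε1, hε1κ, hη2, hη21, hT2, h2⟩ := l1c hV (show 0 < ε / 4 by positivity) hκ
  refine ⟨min η1 η2, max T1 T2, by positivity, (min_le_right _ _).trans hη21,
    le_max_of_le_right hT2, fun T hT F hF θ hθ A B hA hAB hB => ?_⟩
  have hT10 : 10 ≤ T := (le_max_of_le_right hT2).trans hT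
  have mono : ∀ {η η' V L : ℝ} {F : ℝ → ℝ}, η ≤ η' → 0 ≤ L → Adm η V L F → Adm η' V L F :=
    fun hη hL h => ⟨h.c2, h.l1.trans hη, h.l2.trans (mul_le_mul_of_nonneg_right hη hL), h.va,
      h.tv.trans hη⟩
  have hL : 0 ≤ Real.log T := Real.log_nonneg (by linarith)
  obtain ⟨a1, a2, a3, a4⟩ := h2 T ((le_max_right _ _).trans hT) F (mono (min_le_right _ _) hL hF)
  have a4' : ∀ p, ‖ap F p‖ ≤ η1 := fun p => (ap_le F p).trans (hF.l1.trans (min_le_left _ _))
  set N := ⌊T ^ ε1⌋₊ with hN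
  have b1 := h1 T ((le_max_left _ _).trans hT) N (ap F) ((Nat.floor_le (by positivity)).trans
    (Real.rpow_le_rpow_of_exponent_le (by linarith) hε1κ)) a4' a2 θ hθ A B hA hAB hB
  have hXc : ContinuousOn (XF F T) (Icc T (2 * T)) := XF_contOn hF.c2 (by linarith)
  have hc := cont_AA N (ap F)
  have hcc : Continuous fun t : ℝ => (((AA N (ap F) t).re : ℝ) : ℂ) :=
    Complex.continuous_ofReal.comp (Complex.continuous_re.comp hc)
  have hθc : Continuous fun t : ℝ => (θ t : ℂ) := Complex.continuous_ofReal.comp hθ.diff.continuous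
  have hexp1 : ∀ x : ℝ, ‖cexp ((x : ℂ) * I)‖ = 1 := fun x => Complex.norm_exp_ofReal_mul_I x
  have hsub : Icc A B ⊆ Icc T (2 * T) := Icc_subset_Icc hA hB
  have hXc2 : ContinuousOn (fun t => cexp (I * (XF F T t : ℂ))) (Icc T (2 * T)) :=
    ContinuousOn.cexp (continuousOn_const.mul (Complex.continuous_ofReal.comp_continuousOn hXc))
  have hd : ContinuousOn (fun t => cexp (I * (XF F T t : ℂ)) - cexp (I * ((AA N (ap F) t).re : ℂ)))
      (Icc T (2 * T)) := hXc2.sub (Continuous.continuousOn (by fun_prop))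
  have i1 : IntervalIntegrable (fun t => cexp ((θ t : ℂ) * I) * (cexp (I * (XF F T t : ℂ)) -
      cexp (I * ((AA N (ap F) t).re : ℂ)))) volume A B := by
    apply ContinuousOn.intervalIntegrable
    rw [uIcc_of_le hAB]
    exact (Continuous.continuousOn (by fun_prop)).mul (hd.mono hsub)
  have i2 : IntervalIntegrable (fun t => cexp ((θ t : ℂ) * I) * (cexp (I * ((AA N (ap F) t).re : ℂ)) -
      cexp (-(SS N (ap F) : ℂ) / 4))) volume A B := Continuous.intervalIntegrable (by fun_prop) _ _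
  have i3 : IntervalIntegrable (fun t => cexp ((θ t : ℂ) * I) * (cexp (-(SS N (ap F) : ℂ) / 4) -
      cexp (-(sg F : ℂ) / 2))) volume A B := Continuous.intervalIntegrable (by fun_prop) _ _
  have e1 : (∫ t in A..B, cexp ((θ t : ℂ) * I) * (cexp (I * (XF F T t : ℂ)) - cexp (-(sg F : ℂ) / 2))) =
      (∫ t in A..B, cexp ((θ t : ℂ) * I) * (cexp (I * (XF F T t : ℂ)) -
        cexp (I * ((AA N (ap F) t).re : ℂ)))) +
      (∫ t in A..B, cexp ((θ t : ℂ) * I) * (cexp (I * ((AA N (ap F) t).re : ℂ)) -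
        cexp (-(SS N (ap F) : ℂ) / 4))) +
      ∫ t in A..B, cexp ((θ t : ℂ) * I) * (cexp (-(SS N (ap F) : ℂ) / 4) - cexp (-(sg F : ℂ) / 2)) := by
    rw [← intervalIntegral.integral_add i1 i2, ← intervalIntegral.integral_add (i1.add i2) i3]
    refine intervalIntegral.integral_congr fun t _ => ?_
    ring
  rw [e1]
  have c1 : ‖∫ t in A..B, cexp ((θ t : ℂ) * I) * (cexp (I * (XF F T t : ℂ)) -
        cexp (I * ((AA N (ap F) t).re : ℂ)))‖ ≤ ε / 4 * T := by
    have hii : IntervalIntegrable (fun t => ‖cexp (I * (XF F T t : ℂ)) -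
        cexp (I * ((AA N (ap F) t).re : ℂ))‖) volume T (2 * T) := by
      apply ContinuousOn.intervalIntegrable
      rw [uIcc_of_le (by linarith)]
      exact hd.norm
    refine (intervalIntegral.norm_integral_le_integral_norm hAB).trans ?_
    refine le_trans (le_of_eq ?_) ((intervalIntegral.integral_mono_interval hA hAB hB
      (Eventually.of_forall fun t => norm_nonneg _) hii).trans a1)
    refine intervalIntegral.integral_congr fun t _ => ?_
    rw [norm_mul, hexp1, one_mul]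
  have c3 : ‖∫ t in A..B, cexp ((θ t : ℂ) * I) * (cexp (-(SS N (ap F) : ℂ) / 4) -
      cexp (-(sg F : ℂ) / 2))‖ ≤ ε / 4 * T := by
    have := intervalIntegral.norm_integral_le_of_norm_le_const (a := A) (b := B)
      (f := fun t => cexp ((θ t : ℂ) * I) * (cexp (-(SS N (ap F) : ℂ) / 4) - cexp (-(sg F : ℂ) / 2)))
      (C := ε / 4) (fun t _ => by rw [norm_mul, hexp1, one_mul]; exact a3)
    rw [abs_of_nonneg (by linarith)] at this
    refine this.trans ?_
    apply mul_le_mul_of_nonneg_left _ (by positivity)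
    linarith
  have c4 := norm_add₃_le (a := ∫ t in A..B, cexp ((θ t : ℂ) * I) * (cexp (I * (XF F T t : ℂ)) -
        cexp (I * ((AA N (ap F) t).re : ℂ))))
    (b := ∫ t in A..B, cexp ((θ t : ℂ) * I) * (cexp (I * ((AA N (ap F) t).re : ℂ)) -
        cexp (-(SS N (ap F) : ℂ) / 4)))
    (c := ∫ t in A..B, cexp ((θ t : ℂ) * I) * (cexp (-(SS N (ap F) : ℂ) / 4) - cexp (-(sg F : ℂ) / 2)))
  have : 0 < ε * T := by positivity
  linarith

end Pool.Agent.H493.MX
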