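import Pool.Agent.H493.MX.Cls
import Pool.Agent.H203.ME.ALL3

set_option autoImplicit false

/-! Second moments of the mesoscopic field relative to weights. -/

open Complex Filter Topology Set MeasureTheory ProbabilityTheory
open scoped BoundedContinuousFunction RealInnerProductSpace

namespace Pool.Agent.H493.MX

open Pool.Agent.H203.ME Pool.Agent.H203.ME.CLTL Pool.Agent.H203.ME.FINL Pool.Agent.H493.WB

/-- truncation to `[-R, R]` -/
noncomputable def cR (R x : ℝ) : ℝ := max (-R) (min x R)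

lemma cR_cont (R : ℝ) : Continuous (cR R) := by unfold cR; fun_prop

lemma cR_abs {R : ℝ} (hR : 0 ≤ R) (x : ℝ) : |cR R x| ≤ R := by
  unfold cR
  rw [abs_le]
  exact ⟨le_max_left _ _, max_le (by linarith) (min_le_right _ _)⟩

lemma cR_cases {R : ℝ} (hR : 0 ≤ R) (x : ℝ) :
    (cR R x = x ∧ |x| ≤ R) ∨ (cR R x = R ∧ R ≤ x) ∨ (cR R x = -R ∧ x ≤ -R) := by
  unfold cR
  rcases le_total x R with h | h
  · rcases le_total (-R) x with h' | h'
    · left
      rw [min_eq_left h, max_eq_right h', abs_le]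
      exact ⟨rfl, h', h⟩
    · right; right
      rw [min_eq_left h, max_eq_left h']
      exact ⟨rfl, h'⟩
  · right; left
    rw [min_eq_right h, max_eq_right (by linarith)]
    exact ⟨rfl, h⟩

lemma cR_sq_le {R : ℝ} (hR : 0 ≤ R) (x : ℝ) : cR R x ^ 2 ≤ x ^ 2 := by
  rcases cR_cases hR x with ⟨h, _⟩ | ⟨h, h'⟩ | ⟨h, h'⟩ <;> rw [h] <;> nlinarith

lemma cR_abs_le {R : ℝ} (hR : 0 ≤ R) (x : ℝ) : |cR R x| ≤ |x| := by
  rw [← sq_le_sq]
  exact cR_sq_le hR x

lemma cR_diff {R : ℝ} (hR : 0 ≤ R) (x : ℝ) : (x - cR R x) ^ 2 ≤ x ^ 2 - cR R x ^ 2 := by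
  rcases cR_cases hR x with ⟨h, _⟩ | ⟨h, h'⟩ | ⟨h, h'⟩ <;> rw [h] <;> nlinarith

/-- the products -/
lemma prod_trunc {R lam : ℝ} (hR : 0 ≤ R) (hl : 0 < lam) (x y : ℝ) :
    |x * y - cR R x * cR R y| ≤ lam / 2 * (x ^ 2 - cR R x ^ 2) + 1 / (2 * lam) * y ^ 2 +
      (lam / 2 * (y ^ 2 - cR R y ^ 2) + 1 / (2 * lam) * x ^ 2) := by
  have e : x * y - cR R x * cR R y = (x - cR R x) * y + cR R x * (y - cR R y) := by ring
  rw [e]
  refine (abs_add_le _ _).trans ?_
  rw [abs_mul, abs_mul]
  have am : ∀ u v : ℝ, |u| * |v| ≤ lam / 2 * u ^ 2 + 1 / (2 * lam) * v ^ 2 := by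
    intro u v
    have h1 : lam / 2 * u ^ 2 + 1 / (2 * lam) * v ^ 2 - |u| * |v| = (lam * |u| - |v|) ^ 2 / (2 * lam) := by
      rw [← sq_abs u, ← sq_abs v]
      field_simp
      ring
    have h2 : 0 ≤ (lam * |u| - |v|) ^ 2 / (2 * lam) := by positivity
    linarith
  have h1 := am (x - cR R x) y
  have h2 := am (y - cR R y) x
  have h3 := cR_diff hR x
  have h4 := cR_diff hR y
  have h5 := cR_abs_le hR x
  have h6 : |cR R x| * |y - cR R y| ≤ |y - cR R y| * |x| := by
    rw [mul_comm]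
    exact mul_le_mul_of_nonneg_left h5 (abs_nonneg _)
  have h7 : lam / 2 * (x - cR R x) ^ 2 ≤ lam / 2 * (x ^ 2 - cR R x ^ 2) := by gcongr
  have h8 : lam / 2 * (y - cR R y) ^ 2 ≤ lam / 2 * (y ^ 2 - cR R y ^ 2) := by gcongr
  linarith

/-- from weights to phases -/
lemma phase_of_weights {n : ℕ} {φ : Fin n → ℝ → ℝ} (hm : ∀ i, Measurable (φ i))
    (h0 : ∀ i t, 0 ≤ φ i t) (h1 : ∀ i t, φ i t ≤ 1) {K δ T e : ℝ} (hT1 : 1 ≤ T) {Z : ℝ → ℝ}
    (hZ : IntegrableOn Z (Ioc T (2 * T)))
    (hT : ∀ W ∈ Wcl φ K δ T, |∫ t in T..(2 * T), W t * Z t| ≤ e * T) :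
    ∀ θ : ℝ → ℝ, Ph T δ θ → ∀ a : Fin n → ℝ, (∀ i, 0 ≤ a i ∧ a i ≤ K * T) →
      ∀ A B : ℝ, T ≤ A → A ≤ B → B ≤ 2 * T →
      ‖∫ t in A..B, cexp ((θ t : ℂ) * I) * ((PWt φ a t * Z t : ℝ) : ℂ)‖ ≤ 6 * e * T := by
  intro θ hθ a ha A B hA hAB hB1
  set Y : ℝ → ℝ := fun t => PWt φ a t * Z t with hY
  have hsub : Ioc A B ⊆ Ioc T (2 * T) := Ioc_subset_Ioc hA hB1
  have hYi : ∀ g : ℝ → ℝ, Continuous g → (∀ t, |g t| ≤ 1) →
      IntervalIntegrable (fun t => g t * Y t) volume A B := by
    intro g hg hg1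
    rw [intervalIntegrable_iff_integrableOn_Ioc_of_le hAB]
    have e1 : (fun t => g t * Y t) = fun t => (g t * PWt φ a t) * Z t := by
      funext t
      rw [hY]
      ring
    rw [e1]
    refine Integrable.bdd_mul (hZ.mono_set hsub) (c := 1)
      ((hg.measurable.mul (PWt_meas hm a)).aestronglyMeasurable) ?_
    filter_upwards with t
    rw [norm_mul, Real.norm_of_nonneg (PWt_nonneg h0 a t)]
    exact mul_le_one₀ (hg1 t) (PWt_nonneg h0 a t) (PWt_le h0 h1 a t)
  have key : ∀ θ' : ℝ → ℝ, Ph T δ θ' → |∫ t in A..B, (1 + Real.cos (θ' t)) / 2 * Y t| ≤ e * T := by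
    intro θ' hθ'
    have h3 := hT _ ⟨a, A, B, θ', ha, hA, hAB, hB1, hθ', rfl⟩
    have e : (∫ t in T..(2 * T), (Ioc A B).indicator (fun t => PWt φ a t * ((1 + Real.cos (θ' t)) / 2)) t *
        Z t) = ∫ t in A..B, (1 + Real.cos (θ' t)) / 2 * Y t := by
      rw [← ind_int hA hAB hB1]
      refine intervalIntegral.integral_congr fun t _ => ?_
      by_cases ht : t ∈ Ioc A B
      · simp only [indicator_of_mem ht, hY]
        ring
      · simp only [indicator_of_notMem ht, zero_mul]
    rw [← e]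
    exact h3
  have k0 := key _ (Ph_zero T δ (by linarith))
  have k1 := key θ hθ
  have k2 := key _ (Ph_shift hθ (-(Real.pi / 2)))
  have hcos : Continuous fun t => Real.cos (θ t) := Real.continuous_cos.comp hθ.diff.continuous
  have hsin : Continuous fun t => Real.sin (θ t) := Real.continuous_sin.comp hθ.diff.continuous
  simp only [Real.cos_zero] at k0
  have e0 : (∫ t in A..B, (1 + 1 : ℝ) / 2 * Y t) = ∫ t in A..B, Y t := by
    refine intervalIntegral.integral_congr fun t _ => ?_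
    ring
  rw [e0] at k0
  have i0 : IntervalIntegrable Y volume A B := by
    have := hYi (fun _ => 1) continuous_const (fun _ => by simp)
    simpa using this
  have i1 := hYi _ hcos (fun t => Real.abs_cos_le_one _)
  have i2 := hYi _ hsin (fun t => Real.abs_sin_le_one _)
  have e1 : (∫ t in A..B, (1 + Real.cos (θ t)) / 2 * Y t) =
      1 / 2 * (∫ t in A..B, Y t) + 1 / 2 * ∫ t in A..B, Real.cos (θ t) * Y t := by
    rw [← intervalIntegral.integral_const_mul, ← intervalIntegral.integral_const_mul,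
      ← intervalIntegral.integral_add (i0.const_mul _) (i1.const_mul _)]
    refine intervalIntegral.integral_congr fun t _ => ?_
    ring
  have e2 : (∫ t in A..B, (1 + Real.cos (θ t + -(Real.pi / 2))) / 2 * Y t) =
      1 / 2 * (∫ t in A..B, Y t) + 1 / 2 * ∫ t in A..B, Real.sin (θ t) * Y t := by
    rw [← intervalIntegral.integral_const_mul, ← intervalIntegral.integral_const_mul,
      ← intervalIntegral.integral_add (i0.const_mul _) (i2.const_mul _)]
    refine intervalIntegral.integral_congr fun t _ => ?_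
    rw [← sub_eq_add_neg, Real.cos_sub_pi_div_two]
    ring
  rw [e1] at k1
  rw [e2] at k2
  rw [abs_le] at k0 k1 k2
  have j1 : IntervalIntegrable (fun t => ((Real.cos (θ t) * Y t : ℝ) : ℂ)) volume A B :=
    ⟨i1.1.ofReal, i1.2.ofReal⟩
  have j2 : IntervalIntegrable (fun t => ((Real.sin (θ t) * Y t : ℝ) : ℂ) * I) volume A B :=
    IntervalIntegrable.mul_const ⟨i2.1.ofReal, i2.2.ofReal⟩ _
  have e3 : (∫ t in A..B, cexp ((θ t : ℂ) * I) * ((Y t : ℝ) : ℂ)) =
      ((∫ t in A..B, Real.cos (θ t) * Y t : ℝ) : ℂ) +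
      ((∫ t in A..B, Real.sin (θ t) * Y t : ℝ) : ℂ) * I := by
    rw [← intervalIntegral.integral_ofReal, ← intervalIntegral.integral_ofReal,
      ← intervalIntegral.integral_mul_const, ← intervalIntegral.integral_add j1 j2]
    refine intervalIntegral.integral_congr fun t _ => ?_
    rw [Complex.exp_mul_I]
    push_cast
    ring
  change ‖∫ t in A..B, cexp ((θ t : ℂ) * I) * ((Y t : ℝ) : ℂ)‖ ≤ 6 * e * T
  rw [e3]
  refine (norm_add_le _ _).trans ?_
  rw [norm_mul, Complex.norm_I, mul_one, Complex.norm_real, Complex.norm_real, Real.norm_eq_abs,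
    Real.norm_eq_abs]
  have q1 : |∫ t in A..B, Real.cos (θ t) * Y t| ≤ 3 * e * T := by
    rw [abs_le]
    constructor <;> linarith [k0.1, k0.2, k1.1, k1.2]
  have q2 : |∫ t in A..B, Real.sin (θ t) * Y t| ≤ 3 * e * T := by
    rw [abs_le]
    constructor <;> linarith [k0.1, k0.2, k2.1, k2.2]
  linarith

section

variable {k : ℕ} {S : Matrix (Fin k) (Fin k) ℝ}

lemma gauss_memLp (i : Fin k) : MemLp (fun x : EuclideanSpace ℝ (Fin k) => x i) 2
    (multivariateGaussian 0 S) := by
  have h2 : MemLp (id : EuclideanSpace ℝ (Fin k) → EuclideanSpace ℝ (Fin k)) 2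
    (multivariateGaussian 0 S) := IsGaussian.memLp_two_id
  refine h2.mono (by fun_prop) (Eventually.of_forall fun x => ?_)
  simpa using PiLp.norm_apply_le x i

lemma gauss_int (i j : Fin k) : Integrable (fun x : EuclideanSpace ℝ (Fin k) => x i * x j)
    (multivariateGaussian 0 S) := (gauss_memLp i).integrable_mul (gauss_memLp j)

lemma gauss_cov (hS : S.PosSemidef) (i j : Fin k) :
    ∫ x : EuclideanSpace ℝ (Fin k), x i * x j ∂(multivariateGaussian 0 S) = S i j := by
  have h1 := covariance_eval_multivariateGaussian (μ := (0 : EuclideanSpace ℝ (Fin k))) hS i j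
  rw [covariance_eq_sub (gauss_memLp i) (gauss_memLp j)] at h1
  have h2 : ∀ i : Fin k, ∫ x : EuclideanSpace ℝ (Fin k), x i ∂(multivariateGaussian 0 S) = 0 := by
    intro i
    have h3 : ∫ x : EuclideanSpace ℝ (Fin k), x i ∂(multivariateGaussian 0 S) =
        (∫ x : EuclideanSpace ℝ (Fin k), x ∂(multivariateGaussian 0 S)) i := by
      have h4 : Integrable (fun x : EuclideanSpace ℝ (Fin k) => x) (multivariateGaussian 0 S) :=
        IsGaussian.integrable_fun_id
      exact ((EuclideanSpace.proj i : EuclideanSpace ℝ (Fin k) →L[ℝ] ℝ).integral_comp_comm h4)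
    rw [h3, integral_id_multivariateGaussian]
    rfl
  rw [h2 i, zero_mul, sub_zero] at h1
  exact h1

lemma cR_tendsto (x : ℝ) : Tendsto (fun R : ℕ => cR (R : ℝ) x) atTop (𝓝 x) := by
  refine tendsto_const_nhds.congr' ?_
  obtain ⟨N, hN⟩ := exists_nat_ge |x|
  filter_upwards [eventually_ge_atTop N] with R hR
  have h1 : |x| ≤ R := hN.trans (by exact_mod_cast hR)
  rw [abs_le] at h1
  unfold cR
  rw [min_eq_left h1.2, max_eq_right h1.1]

lemma gauss_trunc (hS : S.PosSemidef) (i j : Fin k) :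
    Tendsto (fun R : ℕ => ∫ x : EuclideanSpace ℝ (Fin k), cR R (x i) * cR R (x j)
      ∂(multivariateGaussian 0 S)) atTop (𝓝 (S i j)) := by
  rw [← gauss_cov hS i j]
  refine tendsto_integral_of_dominated_convergence (fun x => ‖x i * x j‖) (fun R => ?_)
    (gauss_int i j).norm (fun R => Eventually.of_forall fun x => ?_) (Eventually.of_forall fun x => ?_)
  · have h1 := cR_cont (R : ℝ)
    exact Continuous.aestronglyMeasurable (by fun_prop)
  · rw [norm_mul, norm_mul]
    exact mul_le_mul (cR_abs_le (Nat.cast_nonneg R) _) (cR_abs_le (Nat.cast_nonneg R) _)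
      (norm_nonneg _) (norm_nonneg _)
  · exact (cR_tendsto _).mul (cR_tendsto _)

/-- the truncated product as a bounded continuous function -/
noncomputable def tr (R : ℕ) (i j : Fin k) : EuclideanSpace ℝ (Fin k) →ᵇ ℝ :=
  BoundedContinuousFunction.ofNormedAddCommGroup (fun x => cR R (x i) * cR R (x j))
    (by have h1 := cR_cont (R : ℝ); fun_prop) ((R : ℝ) * R) (fun x => by
      rw [norm_mul]
      exact mul_le_mul (cR_abs (Nat.cast_nonneg R) _) (cR_abs (Nat.cast_nonneg R) _)
        (norm_nonneg _) (Nat.cast_nonneg R))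

lemma tr_apply (R : ℕ) (i j : Fin k) (x : EuclideanSpace ℝ (Fin k)) :
    tr R i j x = cR R (x i) * cR R (x j) := rfl

end

variable {k : ℕ} {f : Fin k → ℝ → ℝ} {h : Fin k → ℝ → ℝ}

/-- second moment of one component -/
lemma sec_one (hf : ∀ j, ContDiff ℝ 2 (f j)) (hs : ∀ j, HasCompactSupport (f j)) (hh : Scales h)
    (j : Fin k) : Tendsto (fun T : ℝ => 1 / T * ∫ t in T..(2 * T),
      (Xv f (fun j => h j T) T t) j ^ 2) atTop (𝓝 (cM f h j j)) := by
  have h1 := p_SEC (f j) (f j) (hf j) (hs j) (hf j) (hs j) (h j) (hh.zero j) (hh.infty j)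
  have e : cM f h j j = cv (f j) (f j) := by
    unfold cM
    simp
  rw [e]
  refine h1.congr fun T => ?_
  congr 1
  refine intervalIntegral.integral_congr fun t _ => ?_
  simp only [Xv, pow_two]

/-- **second moments relative to weights** -/
theorem sec_weights {n : ℕ} {φ : Fin n → ℝ → ℝ} (hm : ∀ i, Measurable (φ i))
    (h0 : ∀ i t, 0 ≤ φ i t) (h1 : ∀ i t, φ i t ≤ 1) (hB : ∀ i, BAP (φ i)) {K ε δ : ℝ} (hK : 0 ≤ K)
    (hε : 0 < ε) (hδ : 0 < δ) (hf : ∀ j, ContDiff ℝ 2 (f j)) (hs : ∀ j, HasCompactSupport (f j))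
    (hh : Scales h) (i j : Fin k) :
    ∀ᶠ T : ℝ in atTop, ∀ W ∈ Wcl φ K δ T,
      |∫ t in T..(2 * T), W t * ((Xv f (fun j => h j T) T t) i * (Xv f (fun j => h j T) T t) j -
        cM f h i j)| ≤ ε * T := by
  have hS := cM_psd t_COV hf hs hh
  set S := cM f h with hSdef
  have hSjj : ∀ j, 0 ≤ S j j := by
    intro j
    rw [← gauss_cov hS j j]
    exact integral_nonneg fun x => mul_self_nonneg _
  set M : ℝ := S i i + S j j + 2 with hM
  have hM0 : 0 < M := by
    have := hSjj i
    have := hSjj j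
    linarith
  set lam : ℝ := 8 * M / ε with hlam
  have hlam0 : 0 < lam := by positivity
  set e : ℝ := min 1 (ε / (24 * (lam + 1))) with he
  have he0 : 0 < e := by positivity
  -- the truncation
  have hev : ∀ᶠ R : ℕ in atTop,
      |(∫ x : EuclideanSpace ℝ (Fin k), cR R (x i) * cR R (x i) ∂(multivariateGaussian 0 S)) - S i i| < e ∧
      |(∫ x : EuclideanSpace ℝ (Fin k), cR R (x j) * cR R (x j) ∂(multivariateGaussian 0 S)) - S j j| < e ∧
      |(∫ x : EuclideanSpace ℝ (Fin k), cR R (x i) * cR R (x j) ∂(multivariateGaussian 0 S)) - S i j| < e := by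
    have a1 := Metric.tendsto_nhds.1 (gauss_trunc hS i i) e he0
    have a2 := Metric.tendsto_nhds.1 (gauss_trunc hS j j) e he0
    have a3 := Metric.tendsto_nhds.1 (gauss_trunc hS i j) e he0
    filter_upwards [a1, a2, a3] with R b1 b2 b3
    rw [Real.dist_eq] at b1 b2 b3
    exact ⟨b1, b2, b3⟩
  obtain ⟨R, hR1, hR2, hR3⟩ := hev.exists
  have hcont : ∀ᶠ T : ℝ in atTop, ContinuousOn (fun t => Xv f (fun j => h j T) T t) (Icc T (2 * T)) := by
    filter_upwards [c2c_ev hf hs hh, eventually_ge_atTop (3 : ℝ)] with T h1 h2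
    unfold Xv
    refine (PiLp.continuous_toLp 2 _).comp_continuousOn ?_
    rw [continuousOn_pi]
    exact fun j => XF_contOn (h1 j) h2
  -- uniform integrability
  have ui : ∀ l : Fin k, |(∫ x : EuclideanSpace ℝ (Fin k), cR R (x l) * cR R (x l)
      ∂(multivariateGaussian 0 S)) - S l l| < e → ∀ᶠ T : ℝ in atTop,
      (∫ t in T..(2 * T), ((Xv f (fun j => h j T) T t) l ^ 2 - cR R ((Xv f (fun j => h j T) T t) l) ^ 2)) ≤
        3 * e * T ∧ (∫ t in T..(2 * T), (Xv f (fun j => h j T) T t) l ^ 2) ≤ (S l l + e) * T := by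
    intro l hl
    have a1 := Metric.tendsto_nhds.1 (sec_one hf hs hh l) e he0
    have a2 := Metric.tendsto_nhds.1 (finA p_MAIN t_ADM t_COV hf hs hh (tr R l l)) e he0
    filter_upwards [a1, a2, hcont, eventually_ge_atTop (1 : ℝ)] with T b1 b2 b3 b4
    have hT0 : 0 < T := by linarith
    rw [Real.dist_eq, abs_lt] at b1 b2
    rw [abs_lt] at hl
    have hci : ContinuousOn (fun t => (Xv f (fun j => h j T) T t) l) (Icc T (2 * T)) :=
      (EuclideanSpace.proj (𝕜 := ℝ) l).continuous.comp_continuousOn b3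
    have i1 : IntervalIntegrable (fun t => (Xv f (fun j => h j T) T t) l ^ 2) volume T (2 * T) := by
      apply ContinuousOn.intervalIntegrable
      rw [uIcc_of_le (by linarith)]
      exact hci.pow 2
    have i2 : IntervalIntegrable (fun t => cR R ((Xv f (fun j => h j T) T t) l) ^ 2) volume T (2 * T) := by
      apply ContinuousOn.intervalIntegrable
      rw [uIcc_of_le (by linarith)]
      exact ((cR_cont R).comp_continuousOn hci).pow 2
    rw [intervalIntegral.integral_sub i1 i2]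
    have e1 : (∫ t in T..(2 * T), cR R ((Xv f (fun j => h j T) T t) l) ^ 2) =
        ∫ t in T..(2 * T), tr R l l (Xv f (fun j => h j T) T t) := by
      refine intervalIntegral.integral_congr fun t _ => ?_
      simp only [tr_apply, pow_two]
    have e2 : ∫ x, tr R l l x ∂(multivariateGaussian 0 (cM f h)) =
        ∫ x : EuclideanSpace ℝ (Fin k), cR R (x l) * cR R (x l) ∂(multivariateGaussian 0 S) := rfl
    rw [e2] at b2
    rw [e1]
    set u := ∫ t in T..(2 * T), (Xv f (fun j => h j T) T t) l ^ 2 with hu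
    set v := ∫ t in T..(2 * T), tr R l l (Xv f (fun j => h j T) T t) with hv
    have c1 : u < (S l l + e) * T := by
      have : 1 / T * u < S l l + e := by linarith [b1.2]
      rw [one_div, inv_mul_lt_iff₀ hT0] at this
      linarith
    have c2 : (S l l - 2 * e) * T < v := by
      have : S l l - 2 * e < 1 / T * v := by linarith [b2.1, hl.1]
      rw [one_div, lt_inv_mul_iff₀ hT0] at this
      linarith
    constructor
    · nlinarith
    · exact c1.le
  filter_upwards [field_weights hm h0 h1 hB hK (show 0 < ε / 4 by positivity) hδ hf hs hh (tr R i j),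
    ui i hR1, ui j hR2, hcont, eventually_ge_atTop (1 : ℝ)] with T hT hui huj hc hT1
  intro W hW
  obtain ⟨hWm, hW01⟩ := Wcl_prop hm h0 h1 hW
  have hT0 : 0 < T := by linarith
  have key := hT W hW
  set Xi : ℝ → ℝ := fun t => (Xv f (fun j => h j T) T t) i with hXi
  set Xj : ℝ → ℝ := fun t => (Xv f (fun j => h j T) T t) j with hXj
  have hci : ContinuousOn Xi (Icc T (2 * T)) :=
    (EuclideanSpace.proj (𝕜 := ℝ) i).continuous.comp_continuousOn hc
  have hcj : ContinuousOn Xj (Icc T (2 * T)) :=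
    (EuclideanSpace.proj (𝕜 := ℝ) j).continuous.comp_continuousOn hc
  set m : ℝ := ∫ x : EuclideanSpace ℝ (Fin k), cR R (x i) * cR R (x j) ∂(multivariateGaussian 0 S) with hm'
  have key' : |∫ t in T..(2 * T), W t * (cR R (Xi t) * cR R (Xj t) - m)| ≤ ε / 4 * T := key
  have hii : ∀ {g : ℝ → ℝ}, ContinuousOn g (Icc T (2 * T)) →
      IntervalIntegrable (fun t => W t * g t) volume T (2 * T) := by
    intro g hg
    rw [intervalIntegrable_iff_integrableOn_Ioc_of_le (by linarith)]
    have hg' : IntegrableOn g (Ioc T (2 * T)) :=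
      (hg.integrableOn_compact isCompact_Icc).mono_set Ioc_subset_Icc_self
    refine hg'.bdd_mul (c := 1) hWm.aestronglyMeasurable ?_
    filter_upwards with t
    rw [Real.norm_of_nonneg (hW01 t).1]
    exact (hW01 t).2
  have hcR := cR_cont (R : ℝ)
  have e1 : (∫ t in T..(2 * T), W t * (Xi t * Xj t - S i j)) =
      (∫ t in T..(2 * T), W t * (cR R (Xi t) * cR R (Xj t) - m)) +
      (∫ t in T..(2 * T), W t * (Xi t * Xj t - cR R (Xi t) * cR R (Xj t))) +
      ∫ t in T..(2 * T), W t * (m - S i j) := by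
    rw [← intervalIntegral.integral_add, ← intervalIntegral.integral_add]
    · refine intervalIntegral.integral_congr fun t _ => ?_
      ring
    · exact (hii (((hcR.comp_continuousOn hci).mul (hcR.comp_continuousOn hcj)).sub
        continuousOn_const)).add (hii ((hci.mul hcj).sub
        ((hcR.comp_continuousOn hci).mul (hcR.comp_continuousOn hcj))))
    · exact hii continuousOn_const
    · exact hii (((hcR.comp_continuousOn hci).mul (hcR.comp_continuousOn hcj)).sub continuousOn_const)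
    · exact hii ((hci.mul hcj).sub ((hcR.comp_continuousOn hci).mul (hcR.comp_continuousOn hcj)))
  have b2 : |∫ t in T..(2 * T), W t * (Xi t * Xj t - cR R (Xi t) * cR R (Xj t))| ≤ ε / 4 * T := by
    have k1 : ∀ {g : ℝ → ℝ}, ContinuousOn g (Icc T (2 * T)) → IntervalIntegrable g volume T (2 * T) := by
      intro g hg
      apply ContinuousOn.intervalIntegrable
      rwa [uIcc_of_le (by linarith)]
    have d1 : IntervalIntegrable (fun t => Xi t ^ 2 - cR R (Xi t) ^ 2) volume T (2 * T) :=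
      k1 ((hci.pow 2).sub ((hcR.comp_continuousOn hci).pow 2))
    have d2 : IntervalIntegrable (fun t => Xj t ^ 2 - cR R (Xj t) ^ 2) volume T (2 * T) :=
      k1 ((hcj.pow 2).sub ((hcR.comp_continuousOn hcj).pow 2))
    have d3 : IntervalIntegrable (fun t => Xi t ^ 2) volume T (2 * T) := k1 (hci.pow 2)
    have d4 : IntervalIntegrable (fun t => Xj t ^ 2) volume T (2 * T) := k1 (hcj.pow 2)
    have g1 : IntervalIntegrable (fun t => lam / 2 * (Xi t ^ 2 - cR R (Xi t) ^ 2) +
        1 / (2 * lam) * Xj t ^ 2) volume T (2 * T) :=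
      (d1.const_mul (lam / 2)).add (d4.const_mul (1 / (2 * lam)))
    have g2 : IntervalIntegrable (fun t => lam / 2 * (Xj t ^ 2 - cR R (Xj t) ^ 2) +
        1 / (2 * lam) * Xi t ^ 2) volume T (2 * T) :=
      (d2.const_mul (lam / 2)).add (d3.const_mul (1 / (2 * lam)))
    rw [← Real.norm_eq_abs]
    refine (intervalIntegral.norm_integral_le_of_norm_le (by linarith) (g := fun t =>
      (lam / 2 * (Xi t ^ 2 - cR R (Xi t) ^ 2) + 1 / (2 * lam) * Xj t ^ 2) +
      (lam / 2 * (Xj t ^ 2 - cR R (Xj t) ^ 2) + 1 / (2 * lam) * Xi t ^ 2)) ?_ (g1.add g2)).trans ?_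
    · filter_upwards with t _
      rw [norm_mul, Real.norm_of_nonneg (hW01 t).1, Real.norm_eq_abs]
      refine (mul_le_of_le_one_left (abs_nonneg _) (hW01 t).2).trans ?_
      exact prod_trunc (Nat.cast_nonneg R) hlam0 _ _
    · rw [intervalIntegral.integral_add g1 g2, intervalIntegral.integral_add (d1.const_mul _)
        (d4.const_mul _), intervalIntegral.integral_add (d2.const_mul _) (d3.const_mul _),
        intervalIntegral.integral_const_mul, intervalIntegral.integral_const_mul,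
        intervalIntegral.integral_const_mul, intervalIntegral.integral_const_mul]
      have q1 : (∫ t in T..(2 * T), (Xi t ^ 2 - cR R (Xi t) ^ 2)) ≤ 3 * e * T := hui.1
      have q2 : (∫ t in T..(2 * T), (Xj t ^ 2 - cR R (Xj t) ^ 2)) ≤ 3 * e * T := huj.1
      have q3 : (∫ t in T..(2 * T), Xi t ^ 2) ≤ (S i i + e) * T := hui.2
      have q4 : (∫ t in T..(2 * T), Xj t ^ 2) ≤ (S j j + e) * T := huj.2
      have r1 : lam / 2 * (3 * e * T) ≤ ε / 16 * T := by
        have : e ≤ ε / (24 * (lam + 1)) := min_le_right _ _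
        calc lam / 2 * (3 * e * T) ≤ lam / 2 * (3 * (ε / (24 * (lam + 1))) * T) := by gcongr
          _ = ε / 16 * T * (lam / (lam + 1)) := by field_simp; ring
          _ ≤ ε / 16 * T * 1 := by
              gcongr
              rw [div_le_one (by positivity)]
              linarith
          _ = _ := mul_one _
      have he1 : e ≤ 1 := min_le_left _ _
      have r2 : 1 / (2 * lam) * ((S i i + e) * T + (S j j + e) * T) ≤ ε / 16 * T := by
        calc 1 / (2 * lam) * ((S i i + e) * T + (S j j + e) * T) ≤ 1 / (2 * lam) * (M * T) := by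
              gcongr
              rw [hM]
              nlinarith
          _ = ε / 16 * T := by rw [hlam]; field_simp; norm_num
      have s1 : lam / 2 * (∫ t in T..(2 * T), (Xi t ^ 2 - cR R (Xi t) ^ 2)) ≤ lam / 2 * (3 * e * T) := by
        gcongr
      have s2 : lam / 2 * (∫ t in T..(2 * T), (Xj t ^ 2 - cR R (Xj t) ^ 2)) ≤ lam / 2 * (3 * e * T) := by
        gcongr
      have s3 : 1 / (2 * lam) * (∫ t in T..(2 * T), Xi t ^ 2) ≤ 1 / (2 * lam) * ((S i i + e) * T) := by
        gcongr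
      have s4 : 1 / (2 * lam) * (∫ t in T..(2 * T), Xj t ^ 2) ≤ 1 / (2 * lam) * ((S j j + e) * T) := by
        gcongr
      have : 0 < ε * T := by positivity
      nlinarith
  have b3 : |∫ t in T..(2 * T), W t * (m - S i j)| ≤ ε / 4 * T := by
    have := intervalIntegral.norm_integral_le_of_norm_le_const (a := T) (b := 2 * T)
      (f := fun t => W t * (m - S i j)) (C := ε / 4) (fun t _ => ?_)
    · rw [show 2 * T - T = T by ring, abs_of_pos hT0] at this
      exact this
    · rw [norm_mul, Real.norm_of_nonneg (hW01 t).1, Real.norm_eq_abs]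
      refine (mul_le_of_le_one_left (abs_nonneg _) (hW01 t).2).trans (hR3.le.trans ?_)
      have h5 : e ≤ ε / (24 * (lam + 1)) := min_le_right _ _
      refine h5.trans ?_
      apply div_le_div_of_nonneg_left hε.le (by norm_num)
      linarith
  change |∫ t in T..(2 * T), W t * (Xi t * Xj t - S i j)| ≤ ε * T
  rw [e1]
  refine (abs_add_three _ _ _).trans ?_
  have : 0 < ε * T := by positivity
  linarith

/-- **mixing for the second moments** -/
theorem sec_mix {n : ℕ} {φ : Fin n → ℝ → ℝ} (hm : ∀ i, Measurable (φ i))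
    (h0 : ∀ i t, 0 ≤ φ i t) (h1 : ∀ i t, φ i t ≤ 1) (hB : ∀ i, BAP (φ i)) {K ε δ : ℝ} (hK : 0 ≤ K)
    (hε : 0 < ε) (hδ : 0 < δ) (hf : ∀ j, ContDiff ℝ 2 (f j)) (hs : ∀ j, HasCompactSupport (f j))
    (hh : Scales h) (i j : Fin k) :
    ∀ᶠ T : ℝ in atTop, ∀ θ : ℝ → ℝ, Ph T δ θ → ∀ a : Fin n → ℝ, (∀ i, 0 ≤ a i ∧ a i ≤ K * T) →
      ∀ A B : ℝ, T ≤ A → A ≤ B → B ≤ 2 * T →
      ‖∫ t in A..B, cexp ((θ t : ℂ) * I) * (((PWt φ a t) *
        ((Xv f (fun j => h j T) T t) i * (Xv f (fun j => h j T) T t) j - cM f h i j) : ℝ) : ℂ)‖ ≤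
        ε * T := by
  have hcont : ∀ᶠ T : ℝ in atTop, ContinuousOn (fun t => Xv f (fun j => h j T) T t) (Icc T (2 * T)) := by
    filter_upwards [c2c_ev hf hs hh, eventually_ge_atTop (3 : ℝ)] with T h1 h2
    unfold Xv
    refine (PiLp.continuous_toLp 2 _).comp_continuousOn ?_
    rw [continuousOn_pi]
    exact fun j => XF_contOn (h1 j) h2
  filter_upwards [sec_weights hm h0 h1 hB hK (show 0 < ε / 6 by positivity) hδ hf hs hh i j,
    hcont, eventually_ge_atTop (1 : ℝ)] with T hT hc hT1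
  have hci : ContinuousOn (fun t => (Xv f (fun j => h j T) T t) i) (Icc T (2 * T)) :=
    (EuclideanSpace.proj (𝕜 := ℝ) i).continuous.comp_continuousOn hc
  have hcj : ContinuousOn (fun t => (Xv f (fun j => h j T) T t) j) (Icc T (2 * T)) :=
    (EuclideanSpace.proj (𝕜 := ℝ) j).continuous.comp_continuousOn hc
  have hZ : IntegrableOn (fun t => (Xv f (fun j => h j T) T t) i * (Xv f (fun j => h j T) T t) j -
      cM f h i j) (Ioc T (2 * T)) :=
    (((hci.mul hcj).sub continuousOn_const).integrableOn_compact isCompact_Icc).mono_set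
      Ioc_subset_Icc_self
  have := phase_of_weights hm h0 h1 hT1 hZ hT
  intro θ hθ a ha A B hA hAB hB1
  refine (this θ hθ a ha A B hA hAB hB1).trans (le_of_eq ?_)
  ring

end Pool.Agent.H493.MX
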