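import Pool.Agent.H203.ME.MOM
import Pool.Agent.H203.ME.CLT

set_option autoImplicit false

/-! Mean values of powers of prime polynomials against arbitrary exponentials, in arbitrary
intervals: there is no resonance. -/

open Complex Filter Topology Set MeasureTheory

namespace Pool.Agent.H493.MX

open Pool.Agent.H203.ME Pool.Agent.H203.ME.MOML

/-- `e^{i λ t}` -/
noncomputable def ex (lam t : ℝ) : ℂ := cexp (((lam * t : ℝ) : ℂ) * I)

lemma ex_norm (lam t : ℝ) : ‖ex lam t‖ = 1 := Complex.norm_exp_ofReal_mul_I _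

lemma ex_cont (lam : ℝ) : Continuous (ex lam) := by
  unfold ex
  fun_prop

lemma ex_int (d A B : ℝ) (hd : d ≠ 0) : ‖∫ t in A..B, ex d t‖ ≤ 2 / |d| := by
  have hc : ((d : ℂ) * I) ≠ 0 := by
    simp only [ne_eq, mul_eq_zero, Complex.ofReal_eq_zero, Complex.I_ne_zero, or_false]
    exact hd
  have e1 : ∀ t : ℝ, ex d t = cexp (((d : ℂ) * I) * t) := by
    intro t
    unfold ex
    congr 1
    push_cast
    ring
  simp_rw [e1]
  rw [integral_exp_mul_complex hc, norm_div]
  have h5 : ‖(d : ℂ) * I‖ = |d| := by simp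
  rw [h5]
  refine div_le_div_of_nonneg_right ?_ (abs_nonneg d)
  refine (norm_sub_le _ _).trans ?_
  rw [← e1, ← e1, ex_norm, ex_norm]
  norm_num

/-- the frequency of a pair -/
lemma tw_eq (lam : ℝ) (m n : ℕ) (t : ℝ) :
    ex lam t * (ee m t * (starRingEnd ℂ) (ee n t)) = ex (lam - (Real.log m - Real.log n)) t := by
  rw [ee_mul_conj]
  unfold ex
  rw [← Complex.exp_add]
  congr 1
  push_cast
  ring

lemma log_gap {m n : ℕ} (hm : 0 < m) (hn : 0 < n) (hmn : m ≠ n) {M : ℝ} (h1 : (m : ℝ) ≤ M)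
    (h2 : (n : ℝ) ≤ M) : 1 / M ≤ |Real.log m - Real.log n| := by
  wlog h : m < n generalizing m n
  · rw [abs_sub_comm]
    exact this hn hm (Ne.symm hmn) h2 h1 (lt_of_le_of_ne (not_lt.1 h) (Ne.symm hmn))
  have hm' : (0 : ℝ) < m := by exact_mod_cast hm
  have hn' : (0 : ℝ) < n := by exact_mod_cast hn
  have h3 : (m : ℝ) + 1 ≤ n := by exact_mod_cast h
  have h4 := Real.log_le_sub_one_of_pos (div_pos hm' hn')
  rw [Real.log_div hm'.ne' hn'.ne'] at h4
  have h5 : (m : ℝ) / n - 1 ≤ -(1 / n) := by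
    rw [div_sub_one hn'.ne', ← neg_div, div_le_div_iff_of_pos_right hn']
    linarith
  have h6 : 1 / M ≤ 1 / (n : ℝ) := one_div_le_one_div_of_le hn' h2
  rw [abs_of_nonpos (by have : 0 < 1 / (n : ℝ) := by positivity
                        linarith)]
  linarith

/-- the number of tuples with a given product -/
lemma cnt_le (N l n : ℕ) : ((TP N l).filter fun y => ∏ i, y i = n).card ≤ l.factorial := by
  classical
  rcases ((TP N l).filter fun y => ∏ i, y i = n).eq_empty_or_nonempty with h | ⟨y0, hy0⟩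
  · rw [h]; simp
  · rw [Finset.mem_filter] at hy0
    refine le_trans (le_of_eq ?_) (cc_le hy0.1)
    unfold cc
    congr 1
    refine Finset.filter_congr fun y _ => ?_
    rw [hy0.2]
    exact eq_comm

/-- tuples containing a given prime -/
lemma sum_dvd {N j : ℕ} (b : ℕ → ℝ) (θ : ℝ) (hb : ∀ p, 0 ≤ b p) (hb2 : ∀ p, b p ≤ θ ^ 2) {q : ℕ}
    (hq : q.Prime) :
    ∑ x ∈ (TP N j).filter (fun x => q ∣ ∏ i, x i), ∏ i, b (x i) ≤
      j * θ ^ 2 * (1 + ∑ p ∈ PP N, b p) ^ j := by
  classical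
  set S := ∑ p ∈ PP N, b p with hS
  have hS0 : 0 ≤ S := Finset.sum_nonneg fun p _ => hb p
  have hone : ∀ i : Fin j, ∑ x ∈ (TP N j).filter (fun x => x i = q), ∏ m, b (x m) ≤
      θ ^ 2 * (1 + S) ^ j := by
    intro i
    have h1 : ∑ x ∈ (TP N j).filter (fun x => x i = q), ∏ m, b (x m) =
        ∑ x ∈ TP N j, ∏ m, (if m = i then (if x m = q then b (x m) else 0) else b (x m)) := by
      rw [Finset.sum_filter]
      refine Finset.sum_congr rfl fun x hx => ?_
      split_ifs with h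
      · refine Finset.prod_congr rfl fun m _ => ?_
        by_cases hm : m = i
        · subst hm
          rw [if_pos rfl, if_pos h]
        · rw [if_neg hm]
      · symm
        apply Finset.prod_eq_zero (Finset.mem_univ i)
        rw [if_pos rfl, if_neg h]
    rw [h1]
    have h3 := Finset.sum_prod_piFinset (ι := Fin j) (PP N) (fun (m : Fin j) (p : ℕ) =>
      (if m = i then (if p = q then b p else 0) else b p))
    rw [TP, h3]
    have h4 : ∀ m : Fin j, ∑ p ∈ PP N, (if m = i then (if p = q then b p else 0) else b p) ≤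
        if m ∈ ({i} : Finset (Fin j)) then θ ^ 2 else 1 + S := by
      intro m
      by_cases hm : m = i
      · simp only [if_pos hm]
        rw [if_pos (by simpa using hm), Finset.sum_ite_eq']
        split_ifs
        · exact hb2 q
        · positivity
      · simp only [if_neg hm]
        rw [if_neg (by simpa using hm)]
        linarith
    have h4' : ∀ m : Fin j, 0 ≤ ∑ p ∈ PP N, (if m = i then (if p = q then b p else 0) else b p) := by
      intro m
      refine Finset.sum_nonneg fun p _ => ?_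
      split_ifs
      · exact hb p
      · exact le_rfl
      · exact hb p
    refine (Finset.prod_le_prod (fun m _ => h4' m) fun m _ => h4 m).trans ?_
    rw [Finset.prod_ite, Finset.prod_const, Finset.prod_const]
    have h5 : (Finset.univ.filter fun m => m ∈ ({i} : Finset (Fin j))) = {i} := by
      ext m; simp
    rw [h5, Finset.card_singleton, pow_one]
    refine mul_le_mul_of_nonneg_left ?_ (by positivity)
    refine pow_le_pow_right₀ (by linarith) ?_
    refine (Finset.card_filter_le _ _).trans ?_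
    simp
  calc ∑ x ∈ (TP N j).filter (fun x => q ∣ ∏ i, x i), ∏ i, b (x i)
      ≤ ∑ x ∈ TP N j, ∑ i : Fin j, (if x i = q then ∏ m, b (x m) else 0) := by
        rw [Finset.sum_filter]
        refine Finset.sum_le_sum fun x hx => ?_
        have hw : 0 ≤ ∏ i, b (x i) := Finset.prod_nonneg fun i _ => hb _
        split_ifs with h
        · obtain ⟨i, -, hi⟩ := (Prime.dvd_finsetProd_iff hq.prime _).1 h
          have h2 : x i = q := ((Nat.prime_dvd_prime_iff_eq hq (mem_TP hx i).1).1 hi).symm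
          have h3 := Finset.single_le_sum (f := fun i : Fin j => (if x i = q then ∏ m, b (x m) else 0))
            (fun i _ => by split_ifs <;> simp [hw]) (Finset.mem_univ i)
          rw [if_pos h2] at h3
          exact h3
        · exact Finset.sum_nonneg fun i _ => by split_ifs <;> simp [hw]
    _ = ∑ i : Fin j, ∑ x ∈ (TP N j).filter (fun x => x i = q), ∏ m, b (x m) := by
        rw [Finset.sum_comm]
        refine Finset.sum_congr rfl fun i _ => ?_
        rw [Finset.sum_filter]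
    _ ≤ ∑ _i : Fin j, θ ^ 2 * (1 + S) ^ j := Finset.sum_le_sum fun i _ => hone i
    _ = j * θ ^ 2 * (1 + S) ^ j := by
        rw [Finset.sum_const, nsmul_eq_mul]
        simp
        ring

lemma al_sq (a : ℕ → ℂ) {j : ℕ} (x : Fin j → ℕ) : ‖al a x‖ ^ 2 = ∏ i, ‖a (x i)‖ ^ 2 := by
  rw [al, norm_prod, Finset.prod_pow]

lemma sum_al (N l : ℕ) (a : ℕ → ℂ) : ∑ y ∈ TP N l, ‖al a y‖ ^ 2 = (∑ p ∈ PP N, ‖a p‖ ^ 2) ^ l := by
  rw [Finset.sum_pow']
  exact Finset.sum_congr rfl fun x _ => al_sq a x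

open Classical in
/-- pairs with the same ratio, all containing a given prime on the left -/
lemma half {N j l : ℕ} {a : ℕ → ℂ} {θ : ℝ} (hθ : 0 < θ) (ha : ∀ p, ‖a p‖ ≤ θ)
    (Q : (Fin j → ℕ) → (Fin l → ℕ) → Prop) {q r s : ℕ} (hq : q.Prime) (hr : 0 < r) (hs : 0 < s)
    (h1 : ∀ x ∈ TP N j, ∀ y ∈ TP N l, Q x y → q ∣ ∏ i, x i)
    (h2 : ∀ x ∈ TP N j, ∀ y ∈ TP N l, Q x y → (∏ i, x i) * s = (∏ i, y i) * r) :
    ∑ x ∈ TP N j, ∑ y ∈ TP N l, (if Q x y then ‖al a x‖ * ‖al a y‖ else 0) ≤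
      (l.factorial * j + j.factorial : ℝ) * θ * (1 + ∑ p ∈ PP N, ‖a p‖ ^ 2) ^ (j + l) := by
  set S := ∑ p ∈ PP N, ‖a p‖ ^ 2 with hS
  have hS0 : 0 ≤ S := Finset.sum_nonneg fun p _ => by positivity
  have hp : ∀ x : Fin j → ℕ, ∀ y : Fin l → ℕ, ‖al a x‖ * ‖al a y‖ ≤
      ‖al a x‖ ^ 2 / θ + θ * ‖al a y‖ ^ 2 := by
    intro x y
    have e1 : ‖al a x‖ ^ 2 / θ + θ * ‖al a y‖ ^ 2 - ‖al a x‖ * ‖al a y‖ =
        ((‖al a x‖ - θ * ‖al a y‖ / 2) ^ 2 + 3 / 4 * (θ * ‖al a y‖) ^ 2) / θ := by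
      field_simp
      ring
    have e2 : 0 ≤ ((‖al a x‖ - θ * ‖al a y‖ / 2) ^ 2 + 3 / 4 * (θ * ‖al a y‖) ^ 2) / θ := by
      positivity
    linarith
  have hA : ∑ x ∈ TP N j, ∑ y ∈ TP N l, (if Q x y then ‖al a x‖ ^ 2 / θ else 0) ≤
      l.factorial * j * θ * (1 + S) ^ j := by
    have b1 : ∀ x ∈ TP N j, ∑ y ∈ TP N l, (if Q x y then ‖al a x‖ ^ 2 / θ else 0) ≤
        if q ∣ ∏ i, x i then l.factorial * (‖al a x‖ ^ 2 / θ) else 0 := by
      intro x hx
      rw [← Finset.sum_filter, Finset.sum_const, nsmul_eq_mul]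
      by_cases h : q ∣ ∏ i, x i
      · rw [if_pos h]
        refine mul_le_mul_of_nonneg_right ?_ (by positivity)
        have h3 : ((TP N l).filter fun y => Q x y).card ≤
            ((TP N l).filter fun y => ∏ i, y i = (∏ i, x i) * s / r).card := by
          refine Finset.card_le_card fun y hy => ?_
          rw [Finset.mem_filter] at hy ⊢
          refine ⟨hy.1, ?_⟩
          rw [h2 x hx y hy.1 hy.2, Nat.mul_div_cancel _ hr]
        exact_mod_cast h3.trans (cnt_le N l _)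
      · rw [if_neg h]
        have h3 : ((TP N l).filter fun y => Q x y) = ∅ := by
          rw [Finset.filter_eq_empty_iff]
          intro y hy hQ
          exact h (h1 x hx y hy hQ)
        rw [h3]
        simp
    refine (Finset.sum_le_sum b1).trans ?_
    rw [← Finset.sum_filter, ← Finset.mul_sum, ← Finset.sum_div]
    simp_rw [al_sq]
    have b2 := sum_dvd (N := N) (j := j) (fun p => ‖a p‖ ^ 2) θ (fun p => sq_nonneg _)
      (fun p => pow_le_pow_left₀ (norm_nonneg _) (ha p) 2) hq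
    calc (l.factorial : ℝ) * ((∑ x ∈ (TP N j).filter (fun x => q ∣ ∏ i, x i), ∏ i, ‖a (x i)‖ ^ 2) / θ)
        ≤ (l.factorial : ℝ) * ((j * θ ^ 2 * (1 + S) ^ j) / θ) := by gcongr
      _ = l.factorial * j * θ * (1 + S) ^ j := by field_simp
  have hB : ∑ x ∈ TP N j, ∑ y ∈ TP N l, (if Q x y then θ * ‖al a y‖ ^ 2 else 0) ≤
      j.factorial * θ * (1 + S) ^ l := by
    rw [Finset.sum_comm]
    have b1 : ∀ y ∈ TP N l, ∑ x ∈ TP N j, (if Q x y then θ * ‖al a y‖ ^ 2 else 0) ≤
        j.factorial * (θ * ‖al a y‖ ^ 2) := by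
      intro y hy
      rw [← Finset.sum_filter, Finset.sum_const, nsmul_eq_mul]
      refine mul_le_mul_of_nonneg_right ?_ (by positivity)
      have h3 : ((TP N j).filter fun x => Q x y).card ≤
          ((TP N j).filter fun x => ∏ i, x i = (∏ i, y i) * r / s).card := by
        refine Finset.card_le_card fun x hx => ?_
        rw [Finset.mem_filter] at hx ⊢
        refine ⟨hx.1, ?_⟩
        rw [← h2 x hx.1 y hy hx.2, Nat.mul_div_cancel _ hs]
      exact_mod_cast h3.trans (cnt_le N j _)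
    refine (Finset.sum_le_sum b1).trans ?_
    rw [← Finset.mul_sum, ← Finset.mul_sum, sum_al]
    have b3 : S ^ l ≤ (1 + S) ^ l := pow_le_pow_left₀ hS0 (by linarith) l
    calc (j.factorial : ℝ) * (θ * S ^ l) ≤ j.factorial * (θ * (1 + S) ^ l) := by gcongr
      _ = _ := by ring
  have h1S : (1 : ℝ) ≤ 1 + S := by linarith
  calc ∑ x ∈ TP N j, ∑ y ∈ TP N l, (if Q x y then ‖al a x‖ * ‖al a y‖ else 0)
      ≤ ∑ x ∈ TP N j, ∑ y ∈ TP N l, ((if Q x y then ‖al a x‖ ^ 2 / θ else 0) +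
          (if Q x y then θ * ‖al a y‖ ^ 2 else 0)) := by
        refine Finset.sum_le_sum fun x _ => Finset.sum_le_sum fun y _ => ?_
        split_ifs
        · exact hp x y
        · simp
    _ = (∑ x ∈ TP N j, ∑ y ∈ TP N l, (if Q x y then ‖al a x‖ ^ 2 / θ else 0)) +
        ∑ x ∈ TP N j, ∑ y ∈ TP N l, (if Q x y then θ * ‖al a y‖ ^ 2 else 0) := by
        simp_rw [Finset.sum_add_distrib]
    _ ≤ l.factorial * j * θ * (1 + S) ^ j + j.factorial * θ * (1 + S) ^ l := add_le_add hA hB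
    _ ≤ l.factorial * j * θ * (1 + S) ^ (j + l) + j.factorial * θ * (1 + S) ^ (j + l) := by
        have c1 : (1 + S) ^ j ≤ (1 + S) ^ (j + l) := pow_le_pow_right₀ h1S (by omega)
        have c2 : (1 + S) ^ l ≤ (1 + S) ^ (j + l) := pow_le_pow_right₀ h1S (by omega)
        gcongr
    _ = _ := by ring

/-- resonant pairs of tuples: different products, ratio close to `e^λ` -/
def Res (lam : ℝ) (N : ℕ) {j l : ℕ} (x : Fin j → ℕ) (y : Fin l → ℕ) : Prop :=
  ∏ i, x i ≠ ∏ i, y i ∧
    |lam - (Real.log (∏ i, x i : ℕ) - Real.log (∏ i, y i : ℕ))| < 1 / (2 * (N : ℝ) ^ (j + l))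

lemma Res_ratio {lam : ℝ} {N j l : ℕ} (hN : 1 ≤ N) {x x0 : Fin j → ℕ} {y y0 : Fin l → ℕ}
    (hx : x ∈ TP N j) (hx0 : x0 ∈ TP N j) (hy : y ∈ TP N l) (hy0 : y0 ∈ TP N l)
    (h : Res lam N x y) (h0 : Res lam N x0 y0) :
    (∏ i, x i) * ∏ i, y0 i = (∏ i, x0 i) * ∏ i, y i := by
  have hN1 : (1 : ℝ) ≤ N := by exact_mod_cast hN
  by_contra hne
  have p1 := prod_pos' hx
  have p2 := prod_pos' hx0
  have p3 := prod_pos' hy
  have p4 := prod_pos' hy0
  have b1 : (((∏ i, x i) * ∏ i, y0 i : ℕ) : ℝ) ≤ (N : ℝ) ^ (j + l) := by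
    have : (∏ i, x i) * ∏ i, y0 i ≤ N ^ (j + l) := by
      rw [pow_add]; exact Nat.mul_le_mul (prod_le' hx) (prod_le' hy0)
    exact_mod_cast this
  have b2 : (((∏ i, x0 i) * ∏ i, y i : ℕ) : ℝ) ≤ (N : ℝ) ^ (j + l) := by
    have : (∏ i, x0 i) * ∏ i, y i ≤ N ^ (j + l) := by
      rw [pow_add]; exact Nat.mul_le_mul (prod_le' hx0) (prod_le' hy)
    exact_mod_cast this
  have g := log_gap (Nat.mul_pos p1 p4) (Nat.mul_pos p2 p3) hne b1 b2
  have q1 : ((∏ i, x i : ℕ) : ℝ) ≠ 0 := by exact_mod_cast p1.ne'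
  have q2 : ((∏ i, x0 i : ℕ) : ℝ) ≠ 0 := by exact_mod_cast p2.ne'
  have q3 : ((∏ i, y i : ℕ) : ℝ) ≠ 0 := by exact_mod_cast p3.ne'
  have q4 : ((∏ i, y0 i : ℕ) : ℝ) ≠ 0 := by exact_mod_cast p4.ne'
  rw [Nat.cast_mul, Nat.cast_mul, Real.log_mul q1 q4, Real.log_mul q2 q3] at g
  have c1 := h.2
  have c2 := h0.2
  have e : Real.log ((∏ i, x i : ℕ) : ℝ) + Real.log ((∏ i, y0 i : ℕ) : ℝ) -
      (Real.log ((∏ i, x0 i : ℕ) : ℝ) + Real.log ((∏ i, y i : ℕ) : ℝ)) =
      (lam - (Real.log (∏ i, x0 i : ℕ) - Real.log (∏ i, y0 i : ℕ))) -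
      (lam - (Real.log (∏ i, x i : ℕ) - Real.log (∏ i, y i : ℕ))) := by ring
  rw [e] at g
  have c3 := abs_sub (lam - (Real.log (∏ i, x0 i : ℕ) - Real.log (∏ i, y0 i : ℕ)))
    (lam - (Real.log (∏ i, x i : ℕ) - Real.log (∏ i, y i : ℕ)))
  have c4 : 1 / (2 * (N : ℝ) ^ (j + l)) + 1 / (2 * (N : ℝ) ^ (j + l)) = 1 / (N : ℝ) ^ (j + l) := by
    field_simp
    norm_num
  linarith

open Classical in
/-- the resonant pairs are negligible -/
lemma res_bound {N j l : ℕ} (hN : 1 ≤ N) (lam : ℝ) {a : ℕ → ℂ} {θ : ℝ} (hθ : 0 < θ)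
    (ha : ∀ p, ‖a p‖ ≤ θ) :
    ∑ x ∈ TP N j, ∑ y ∈ TP N l, (if Res lam N x y then ‖al a x‖ * ‖al a y‖ else 0) ≤
      (l.factorial * j + j.factorial + (j.factorial * l + l.factorial) : ℝ) * θ *
        (1 + ∑ p ∈ PP N, ‖a p‖ ^ 2) ^ (j + l) := by
  set S := ∑ p ∈ PP N, ‖a p‖ ^ 2 with hS
  have hS0 : 0 ≤ S := Finset.sum_nonneg fun p _ => by positivity
  by_cases hex : ∃ x0 ∈ TP N j, ∃ y0 ∈ TP N l, Res lam N x0 y0
  · obtain ⟨x0, hx0, y0, hy0, h0⟩ := hex
    set m0 := ∏ i, x0 i with hm0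
    set n0 := ∏ i, y0 i with hn0
    have pm : 0 < m0 := prod_pos' hx0
    have pn : 0 < n0 := prod_pos' hy0
    obtain ⟨g, r, s, hg, hrs, hmr, hns⟩ : ∃ g r s : ℕ, 0 < g ∧ Nat.Coprime r s ∧ m0 = r * g ∧
        n0 = s * g := by
      obtain ⟨r, s, h1, h2, h3⟩ := Nat.exists_coprime m0 n0
      exact ⟨Nat.gcd m0 n0, r, s, Nat.gcd_pos_of_pos_left _ pm, h1, h2, h3⟩
    have hr : 0 < r := by
      rcases Nat.eq_zero_or_pos r with h | h
      · rw [h, zero_mul] at hmr; omega
      · exact h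
    have hs : 0 < s := by
      rcases Nat.eq_zero_or_pos s with h | h
      · rw [h, zero_mul] at hns; omega
      · exact h
    have key : ∀ x ∈ TP N j, ∀ y ∈ TP N l, Res lam N x y → (∏ i, x i) * s = (∏ i, y i) * r := by
      intro x hx y hy hQ
      have h1 := Res_ratio hN hx hx0 hy hy0 hQ h0
      rw [← hm0, ← hn0, hmr, hns] at h1
      have h2 : ((∏ i, x i) * s) * g = ((∏ i, y i) * r) * g := by
        calc ((∏ i, x i) * s) * g = (∏ i, x i) * (s * g) := by ring
          _ = r * g * ∏ i, y i := h1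
          _ = _ := by ring
      exact Nat.eq_of_mul_eq_mul_right hg h2
    have hne : r ≠ 1 ∨ s ≠ 1 := by
      by_contra hcon
      push Not at hcon
      apply h0.1
      rw [← hm0, ← hn0, hmr, hns, hcon.1, hcon.2]
    have f1 : (0 : ℝ) ≤ (l.factorial * j + j.factorial : ℝ) * θ * (1 + S) ^ (j + l) := by positivity
    have f2 : (0 : ℝ) ≤ (j.factorial * l + l.factorial : ℝ) * θ * (1 + S) ^ (j + l) := by positivity
    rcases hne with h | h
    · have hq : (Nat.minFac r).Prime := Nat.minFac_prime h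
      have := half hθ ha (Res lam N) hq hr hs (fun x hx y hy hQ => by
        have h1 := key x hx y hy hQ
        have h2 : r ∣ (∏ i, x i) * s := ⟨∏ i, y i, by rw [h1]; ring⟩
        exact (Nat.minFac_dvd r).trans (hrs.dvd_of_dvd_mul_right h2)) key
      linarith
    · have hq : (Nat.minFac s).Prime := Nat.minFac_prime h
      have h3 := half hθ ha (fun (y : Fin l → ℕ) (x : Fin j → ℕ) => Res lam N x y) hq hs hr
        (fun y hy x hx hQ => by
        have h1 := key x hx y hy hQ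
        have h2 : s ∣ (∏ i, y i) * r := ⟨∏ i, x i, by rw [← h1]; ring⟩
        exact (Nat.minFac_dvd s).trans (hrs.symm.dvd_of_dvd_mul_right h2))
        (fun y hy x hx hQ => (key x hx y hy hQ).symm)
      rw [Finset.sum_comm] at h3
      have h4 : ∑ x ∈ TP N j, ∑ y ∈ TP N l, (if Res lam N x y then ‖al a x‖ * ‖al a y‖ else 0) =
          ∑ x ∈ TP N j, ∑ y ∈ TP N l, (if Res lam N x y then ‖al a y‖ * ‖al a x‖ else 0) := by
        refine Finset.sum_congr rfl fun x _ => Finset.sum_congr rfl fun y _ => ?_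
        rw [mul_comm]
      rw [h4]
      rw [← hS, add_comm l j] at h3
      linarith
  · push Not at hex
    rw [Finset.sum_eq_zero]
    · positivity
    · intro x hx
      refine Finset.sum_eq_zero fun y hy => ?_
      rw [if_neg (hex x hx y hy)]

/-- the constant -/
noncomputable def Kjl (j l : ℕ) : ℝ :=
  j.factorial * j ^ 2 + (l.factorial * j + j.factorial + (j.factorial * l + l.factorial))

lemma Kjl_nonneg (j l : ℕ) : 0 ≤ Kjl j l := by unfold Kjl; positivity

lemma tw_int (lam : ℝ) (N j l : ℕ) (a : ℕ → ℂ) (A B : ℝ) :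
    ∫ t in A..B, ex lam t * ((∑ p ∈ PP N, a p * ee p t) ^ j *
      ((starRingEnd ℂ) (∑ p ∈ PP N, a p * ee p t)) ^ l) =
    ∑ x ∈ TP N j, ∑ y ∈ TP N l, (al a x * (starRingEnd ℂ) (al a y)) *
      ∫ t in A..B, ex (lam - (Real.log (∏ i, x i : ℕ) - Real.log (∏ i, y i : ℕ))) t := by
  have h1 : ∀ t, ex lam t * ((∑ p ∈ PP N, a p * ee p t) ^ j *
      ((starRingEnd ℂ) (∑ p ∈ PP N, a p * ee p t)) ^ l) =
      ∑ x ∈ TP N j, ∑ y ∈ TP N l, (al a x * (starRingEnd ℂ) (al a y)) *
        ex (lam - (Real.log (∏ i, x i : ℕ) - Real.log (∏ i, y i : ℕ))) t := by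
    intro t
    rw [← map_pow, pow_exp, pow_exp, map_sum, Finset.sum_mul_sum, Finset.mul_sum]
    refine Finset.sum_congr rfl fun x _ => ?_
    rw [Finset.mul_sum]
    refine Finset.sum_congr rfl fun y _ => ?_
    rw [map_mul, ← tw_eq]
    ring
  simp only [h1]
  have hc : ∀ (x : Fin j → ℕ) (y : Fin l → ℕ), Continuous fun t : ℝ =>
      (al a x * (starRingEnd ℂ) (al a y)) *
        ex (lam - (Real.log (∏ i, x i : ℕ) - Real.log (∏ i, y i : ℕ))) t :=
    fun x y => continuous_const.mul (ex_cont _)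
  rw [intervalIntegral.integral_finsetSum]
  · refine Finset.sum_congr rfl fun x _ => ?_
    rw [intervalIntegral.integral_finsetSum]
    · refine Finset.sum_congr rfl fun y _ => ?_
      rw [intervalIntegral.integral_const_mul]
    · intro y _
      exact (hc x y).intervalIntegrable _ _
  · intro x _
    exact (continuous_finsetSum _ fun y _ => hc x y).intervalIntegrable _ _

/-- **mean values of powers of prime polynomials against exponentials: there is no resonance** -/
theorem tmom (j l N : ℕ) (a : ℕ → ℂ) (θ lam A B : ℝ) (hN : 1 ≤ N) (hθ : 0 < θ) (hθ1 : θ ≤ 1)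
    (hAB : A ≤ B) (ha : ∀ p, ‖a p‖ ≤ θ) :
    ‖∫ t in A..B, ex lam t * ((∑ p ∈ PP N, a p * ee p t) ^ j *
      ((starRingEnd ℂ) (∑ p ∈ PP N, a p * ee p t)) ^ l -
      (if j = l then ((j.factorial : ℂ)) * ((∑ p ∈ PP N, ‖a p‖ ^ 2 : ℝ) : ℂ) ^ j else 0))‖ ≤
    (B - A) * (Kjl j l * θ * (1 + ∑ p ∈ PP N, ‖a p‖ ^ 2) ^ (j + l)) + 4 * (N : ℝ) ^ (2 * (j + l)) := by
  classical
  set S := ∑ p ∈ PP N, ‖a p‖ ^ 2 with hS
  have hS0 : 0 ≤ S := Finset.sum_nonneg fun p _ => by positivity
  have hN1 : (1 : ℝ) ≤ N := by exact_mod_cast hN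
  set W : ℂ := (if j = l then ((j.factorial : ℂ)) * ((S : ℝ) : ℂ) ^ j else 0) with hW
  have hcA : Continuous fun t : ℝ => ex lam t * ((∑ p ∈ PP N, a p * ee p t) ^ j *
      ((starRingEnd ℂ) (∑ p ∈ PP N, a p * ee p t)) ^ l) := by
    have h1 : Continuous fun t : ℝ => ∑ p ∈ PP N, a p * ee p t := by
      unfold ee
      fun_prop
    exact (ex_cont lam).mul ((h1.pow j).mul ((Complex.continuous_conj.comp h1).pow l))
  have e1 : (∫ t in A..B, ex lam t * ((∑ p ∈ PP N, a p * ee p t) ^ j *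
      ((starRingEnd ℂ) (∑ p ∈ PP N, a p * ee p t)) ^ l - W)) =
      (∫ t in A..B, ex lam t * ((∑ p ∈ PP N, a p * ee p t) ^ j *
      ((starRingEnd ℂ) (∑ p ∈ PP N, a p * ee p t)) ^ l)) - W * ∫ t in A..B, ex lam t := by
    rw [← intervalIntegral.integral_const_mul, ← intervalIntegral.integral_sub]
    · refine intervalIntegral.integral_congr fun t _ => ?_
      ring
    · exact hcA.intervalIntegrable _ _
    · exact (continuous_const.mul (ex_cont lam)).intervalIntegrable _ _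
  rw [e1, tw_int]
  set J : (Fin j → ℕ) → (Fin l → ℕ) → ℂ := fun x y =>
    ∫ t in A..B, ex (lam - (Real.log (∏ i, x i : ℕ) - Real.log (∏ i, y i : ℕ))) t with hJ
  have hJ1 : ∀ x y, ‖J x y‖ ≤ B - A := by
    intro x y
    have := intervalIntegral.norm_integral_le_of_norm_le_const (a := A) (b := B)
      (f := fun t => ex (lam - (Real.log (∏ i, x i : ℕ) - Real.log (∏ i, y i : ℕ))) t) (C := 1)
      (fun t _ => (ex_norm _ _).le)
    rw [one_mul, abs_of_nonneg (by linarith)] at this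
    exact this
  set D : ℂ := ∑ x ∈ TP N j, ∑ y ∈ TP N l, if ∏ i, x i = ∏ i, y i then
    al a x * (starRingEnd ℂ) (al a y) else 0 with hD
  set E : ℂ := ∑ x ∈ TP N j, ∑ y ∈ TP N l, if ∏ i, x i = ∏ i, y i then 0 else
    (al a x * (starRingEnd ℂ) (al a y)) * J x y with hE
  have hsplit : ∑ x ∈ TP N j, ∑ y ∈ TP N l, (al a x * (starRingEnd ℂ) (al a y)) * J x y =
      D * (∫ t in A..B, ex lam t) + E := by
    rw [hD, hE, Finset.sum_mul, ← Finset.sum_add_distrib]
    refine Finset.sum_congr rfl fun x _ => ?_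
    rw [Finset.sum_mul, ← Finset.sum_add_distrib]
    refine Finset.sum_congr rfl fun y _ => ?_
    split_ifs with h
    · rw [hJ]
      simp only
      rw [h, sub_self, sub_zero, add_zero]
    · rw [zero_mul, zero_add]
  rw [hsplit]
  have hL : ‖∫ t in A..B, ex lam t‖ ≤ B - A := by
    have := intervalIntegral.norm_integral_le_of_norm_le_const (a := A) (b := B)
      (f := fun t => ex lam t) (C := 1) (fun t _ => (ex_norm _ _).le)
    rw [one_mul, abs_of_nonneg (by linarith)] at this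
    exact this
  have hDW : ‖D - W‖ ≤ (j.factorial : ℝ) * j ^ 2 * θ * (1 + S) ^ (j + l) := by
    by_cases hjl : j = l
    · subst hjl
      rw [hW, if_pos rfl]
      refine (diag ha).trans ?_
      have h1S : (1 : ℝ) ≤ 1 + S := by linarith
      have c1 : (1 + S) ^ j ≤ (1 + S) ^ (j + j) := pow_le_pow_right₀ h1S (by omega)
      have c2 : θ ^ 2 ≤ θ := by nlinarith
      gcongr
    · rw [hW, if_neg hjl]
      have hD0 : D = 0 := by
        rw [hD]
        refine Finset.sum_eq_zero fun x hx => Finset.sum_eq_zero fun y hy => ?_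
        rw [if_neg]
        intro h
        exact hjl (len_eq x y (fun i => (mem_TP hx i).1) (fun i => (mem_TP hy i).1) h)
      rw [hD0, sub_zero, norm_zero]
      positivity
  have hEb : ‖E‖ ≤ (B - A) * ((l.factorial * j + j.factorial + (j.factorial * l + l.factorial) : ℝ) * θ *
        (1 + S) ^ (j + l)) + 4 * (N : ℝ) ^ (2 * (j + l)) := by
    have b1 : ∀ x ∈ TP N j, ∀ y ∈ TP N l, ‖(if ∏ i, x i = ∏ i, y i then 0 else
        (al a x * (starRingEnd ℂ) (al a y)) * J x y)‖ ≤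
        (B - A) * (if Res lam N x y then ‖al a x‖ * ‖al a y‖ else 0) + 4 * (N : ℝ) ^ (j + l) := by
      intro x hx y hy
      by_cases h : ∏ i, x i = ∏ i, y i
      · rw [if_pos h, norm_zero]
        have : 0 ≤ B - A := by linarith
        have h2 : (0 : ℝ) ≤ (if Res lam N x y then ‖al a x‖ * ‖al a y‖ else 0) := by
          split_ifs <;> positivity
        positivity
      · rw [if_neg h, norm_mul, norm_mul, RCLike.norm_conj]
        by_cases hR : Res lam N x y
        · rw [if_pos hR]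
          have : ‖al a x‖ * ‖al a y‖ * ‖J x y‖ ≤ ‖al a x‖ * ‖al a y‖ * (B - A) := by
            gcongr
            exact hJ1 x y
          have h3 : (0 : ℝ) ≤ 4 * (N : ℝ) ^ (j + l) := by positivity
          linarith
        · rw [if_neg hR, mul_zero, zero_add]
          have h3 : 1 / (2 * (N : ℝ) ^ (j + l)) ≤
              |lam - (Real.log (∏ i, x i : ℕ) - Real.log (∏ i, y i : ℕ))| := by
            by_contra hlt
            push Not at hlt
            exact hR ⟨h, hlt⟩
          have h4 : (0 : ℝ) < 1 / (2 * (N : ℝ) ^ (j + l)) := by positivity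
          have h5 := ex_int (lam - (Real.log (∏ i, x i : ℕ) - Real.log (∏ i, y i : ℕ))) A B
            (fun h0 => by rw [h0, abs_zero] at h3; linarith)
          have h6 : 2 / |lam - (Real.log (∏ i, x i : ℕ) - Real.log (∏ i, y i : ℕ))| ≤
              4 * (N : ℝ) ^ (j + l) := by
            rw [div_le_iff₀ (by linarith)]
            calc (2 : ℝ) = 4 * (N : ℝ) ^ (j + l) * (1 / (2 * (N : ℝ) ^ (j + l))) := by
                  field_simp
                  norm_num
              _ ≤ _ := by gcongr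
          have h7 := al_le hθ1 ha x
          have h8 := al_le hθ1 ha y
          calc ‖al a x‖ * ‖al a y‖ * ‖J x y‖ ≤ 1 * 1 * (4 * (N : ℝ) ^ (j + l)) := by
                gcongr
                exact h5.trans h6
            _ = _ := by ring
    rw [hE]
    calc ‖∑ x ∈ TP N j, ∑ y ∈ TP N l, if ∏ i, x i = ∏ i, y i then 0 else
        (al a x * (starRingEnd ℂ) (al a y)) * J x y‖
        ≤ ∑ x ∈ TP N j, ∑ y ∈ TP N l, ((B - A) * (if Res lam N x y then ‖al a x‖ * ‖al a y‖ else 0) +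
            4 * (N : ℝ) ^ (j + l)) := by
          refine (norm_sum_le _ _).trans (Finset.sum_le_sum fun x hx => ?_)
          exact (norm_sum_le _ _).trans (Finset.sum_le_sum fun y hy => b1 x hx y hy)
      _ = (B - A) * (∑ x ∈ TP N j, ∑ y ∈ TP N l, (if Res lam N x y then ‖al a x‖ * ‖al a y‖ else 0)) +
          ((TP N j).card : ℝ) * ((TP N l).card : ℝ) * (4 * (N : ℝ) ^ (j + l)) := by
          simp_rw [Finset.sum_add_distrib, ← Finset.mul_sum, Finset.sum_const, nsmul_eq_mul]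
          ring
      _ ≤ _ := by
          refine add_le_add ?_ ?_
          · exact mul_le_mul_of_nonneg_left (res_bound hN lam hθ ha) (by linarith)
          · have h5 : ((TP N j).card : ℝ) ≤ (N : ℝ) ^ j := by exact_mod_cast card_TP N j
            have h6 : ((TP N l).card : ℝ) ≤ (N : ℝ) ^ l := by exact_mod_cast card_TP N l
            calc ((TP N j).card : ℝ) * ((TP N l).card : ℝ) * (4 * (N : ℝ) ^ (j + l))
                ≤ (N : ℝ) ^ j * (N : ℝ) ^ l * (4 * (N : ℝ) ^ (j + l)) := by gcongr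
              _ = 4 * (N : ℝ) ^ (2 * (j + l)) := by ring
  have heq : D * (∫ t in A..B, ex lam t) + E - W * ∫ t in A..B, ex lam t =
      (D - W) * (∫ t in A..B, ex lam t) + E := by ring
  rw [heq]
  refine (norm_add_le _ _).trans ?_
  rw [norm_mul]
  have h9 : ‖D - W‖ * ‖∫ t in A..B, ex lam t‖ ≤
      (j.factorial : ℝ) * j ^ 2 * θ * (1 + S) ^ (j + l) * (B - A) := by gcongr
  unfold Kjl
  linarith

end Pool.Agent.H493.MX
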