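import Pool.Agent.H493.MX.Wt

set_option autoImplicit false

/-! Weak convergence relative to weights, uniformly in the weights. -/

open Complex Filter Topology Set MeasureTheory ProbabilityTheory
open scoped BoundedContinuousFunction RealInnerProductSpace

namespace Pool.Agent.H493.MX

open Pool.Agent.H203.ME Pool.Agent.H203.ME.CLTL Pool.Agent.H203.ME.FINL

lemma wint {k : ℕ} {μ0 : Measure ℝ} {W : ℝ → ℝ} (hW : Measurable W) (h0 : ∀ t, 0 ≤ W t)
    {X : ℝ → EuclideanSpace ℝ (Fin k)} (hX : AEMeasurable X μ0) {G : Type} [NormedAddCommGroup G]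
    [NormedSpace ℝ G] (g : EuclideanSpace ℝ (Fin k) → G) (hg : Continuous g) :
    ∫ x, g x ∂((μ0.withDensity (fun t => ENNReal.ofReal (W t))).map X) = ∫ t, W t • g (X t) ∂μ0 := by
  have hX' : AEMeasurable X (μ0.withDensity (fun t => ENNReal.ofReal (W t))) :=
    hX.mono_ac (withDensity_absolutelyContinuous _ _)
  rw [integral_map hX' hg.aestronglyMeasurable,
    integral_withDensity_eq_integral_toReal_smul hW.ennreal_ofReal
      (Eventually.of_forall fun t => ENNReal.ofReal_lt_top)]
  congr 1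
  funext t
  rw [ENNReal.toReal_ofReal (h0 t)]

theorem wweak {k : ℕ} {X : ℝ → ℝ → EuclideanSpace ℝ (Fin k)} {ν : Measure (EuclideanSpace ℝ (Fin k))}
    [IsProbabilityMeasure ν] (𝒲 : ℝ → Set (ℝ → ℝ))
    (hX : ∀ᶠ T in atTop, AEMeasurable (X T) (volume.restrict (Ioc T (2 * T))))
    (hW : ∀ T, ∀ W ∈ 𝒲 T, Measurable W ∧ ∀ t, 0 ≤ W t ∧ W t ≤ 1)
    (hc : ∀ u : EuclideanSpace ℝ (Fin k), ∀ ε : ℝ, 0 < ε → ∀ᶠ T : ℝ in atTop, ∀ W ∈ 𝒲 T,
      ‖∫ t in T..(2 * T), (W t : ℂ) * (cexp (⟪X T t, u⟫ * I) - charFun ν u)‖ ≤ ε * T)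
    (ψ : EuclideanSpace ℝ (Fin k) →ᵇ ℝ) {ε : ℝ} (hε : 0 < ε) :
    ∀ᶠ T : ℝ in atTop, ∀ W ∈ 𝒲 T,
      |∫ t in T..(2 * T), W t * (ψ (X T t) - ∫ x, ψ x ∂ν)| ≤ ε * T := by
  classical
  set m : ℝ := ∫ x, ψ x ∂ν with hm
  set Bad : Set ℝ := {T : ℝ | 1 ≤ T ∧ AEMeasurable (X T) (volume.restrict (Ioc T (2 * T))) ∧
    ∃ W ∈ 𝒲 T, ε * T < |∫ t in T..(2 * T), W t * (ψ (X T t) - m)|} with hBad
  by_contra hcon
  rw [not_eventually] at hcon
  have hfr : ∃ᶠ T in atTop, T ∈ Bad := by
    have := hcon.and_eventually (hX.and (eventually_ge_atTop (1 : ℝ)))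
    refine this.mono ?_
    rintro T ⟨h1, h2, h3⟩
    push Not at h1
    exact ⟨h3, h2, h1⟩
  -- the bad weight
  have hex : ∀ T : ℝ, ∃ W : ℝ → ℝ, T ∈ Bad → (W ∈ 𝒲 T ∧
      ε * T < |∫ t in T..(2 * T), W t * (ψ (X T t) - m)|) := by
    intro T
    by_cases h : T ∈ Bad
    · obtain ⟨-, -, W, h1, h2⟩ := h
      exact ⟨W, fun _ => ⟨h1, h2⟩⟩
    · exact ⟨0, fun h' => absurd h' h⟩
  choose W hWb using hex
  set μ0 : ℝ → Measure ℝ := fun T => volume.restrict (Ioc T (2 * T)) with hμ0
  set M : ℝ := 2 * ‖ψ‖ + 1 with hMdef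
  have hM0 : 0 < M := by positivity
  set ρ : ℝ → Measure ℝ := fun T => (μ0 T).withDensity (fun t => ENNReal.ofReal (W T t)) with hρ
  -- total mass
  set cT : ℝ → ℝ := fun T => ∫ t, W T t ∂(μ0 T) with hcT
  have hWi : ∀ T ∈ Bad, Integrable (W T) (μ0 T) := by
    intro T hT
    obtain ⟨h1, h2⟩ := hW T (W T) (hWb T hT).1
    have : IsFiniteMeasure (μ0 T) := ⟨by rw [hμ0]; simp⟩
    exact Integrable.of_bound h1.aestronglyMeasurable 1 (Eventually.of_forall fun t => by
      rw [Real.norm_of_nonneg (h2 t).1]; exact (h2 t).2)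
  have hmass : ∀ T ∈ Bad, (ρ T) univ = ENNReal.ofReal (cT T) := by
    intro T hT
    obtain ⟨h1, h2⟩ := hW T (W T) (hWb T hT).1
    rw [hρ]
    simp only
    rw [withDensity_apply _ MeasurableSet.univ, Measure.restrict_univ,
      ofReal_integral_eq_lintegral_ofReal (hWi T hT) (Eventually.of_forall fun t => (h2 t).1)]
  have hψi : ∀ T ∈ Bad, IntervalIntegrable (fun t => W T t * (ψ (X T t) - m)) volume T (2 * T) := by
    intro T hT
    obtain ⟨h1, h2⟩ := hW T (W T) (hWb T hT).1
    rw [intervalIntegrable_iff_integrableOn_Ioc_of_le (by linarith [hT.1])]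
    refine Integrable.of_bound (C := 1 * (‖ψ‖ + |m|)) ?_ ?_
    · refine h1.aestronglyMeasurable.mul ?_
      exact ((ψ.continuous.measurable.comp_aemeasurable hT.2.1).sub_const m).aestronglyMeasurable
    · filter_upwards with t
      rw [norm_mul, Real.norm_of_nonneg (h2 t).1]
      refine mul_le_mul (h2 t).2 ?_ (norm_nonneg _) zero_le_one
      refine (norm_sub_le _ _).trans (add_le_add (ψ.norm_coe_le_norm _) (le_of_eq rfl))
  have hml : |m| ≤ ‖ψ‖ := by
    rw [hm, ← Real.norm_eq_abs]
    have := norm_integral_le_of_norm_le_const (μ := ν) (f := fun x => ψ x) (C := ‖ψ‖)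
      (Eventually.of_forall fun x => ψ.norm_coe_le_norm x)
    simpa using this
  have hcle : ∀ T ∈ Bad, cT T ≤ T := by
    intro T hT
    obtain ⟨h1, h2⟩ := hW T (W T) (hWb T hT).1
    have h3 : ∫ t, W T t ∂(μ0 T) ≤ ∫ _t, (1 : ℝ) ∂(μ0 T) := by
      refine integral_mono (hWi T hT) ?_ fun t => (h2 t).2
      have : IsFiniteMeasure (μ0 T) := ⟨by rw [hμ0]; simp⟩
      exact integrable_const 1
    refine h3.trans (le_of_eq ?_)
    rw [integral_const, smul_eq_mul, mul_one, hμ0]
    simp only [measureReal_restrict_apply MeasurableSet.univ, univ_inter]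
    rw [Real.volume_real_Ioc_of_le (by linarith [hT.1])]
    ring
  have hcge : ∀ T ∈ Bad, ε / M * T ≤ cT T := by
    intro T hT
    obtain ⟨h1, h2⟩ := hW T (W T) (hWb T hT).1
    have h3 := (hWb T hT).2
    have h4 : |∫ t in T..(2 * T), W T t * (ψ (X T t) - m)| ≤ M * cT T := by
      rw [← Real.norm_eq_abs]
      have h5 : M * cT T = ∫ t in T..(2 * T), M * W T t := by
        rw [intervalIntegral.integral_const_mul, intervalIntegral.integral_of_le (by linarith [hT.1])]
      rw [h5]
      refine intervalIntegral.norm_integral_le_of_norm_le (by linarith [hT.1]) ?_ ?_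
      · filter_upwards with t _
        rw [norm_mul, Real.norm_of_nonneg (h2 t).1, mul_comm]
        refine mul_le_mul_of_nonneg_right ?_ (h2 t).1
        refine (norm_sub_le _ _).trans ?_
        have h6 := ψ.norm_coe_le_norm (X T t)
        rw [Real.norm_eq_abs m]
        linarith
      · rw [intervalIntegrable_iff_integrableOn_Ioc_of_le (by linarith [hT.1])]
        exact (hWi T hT).const_mul M
    have h5 : ε * T ≤ M * cT T := h3.le.trans h4
    rw [div_mul_eq_mul_div, div_le_iff₀ hM0]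
    linarith
  have hcpos : ∀ T ∈ Bad, 0 < cT T := by
    intro T hT
    have := hcge T hT
    have h1 := hT.1
    have : 0 < ε / M * T := by positivity
    linarith
  set μ : ℝ → Measure (EuclideanSpace ℝ (Fin k)) := fun T =>
    if T ∈ Bad then (ENNReal.ofReal (cT T))⁻¹ • (ρ T).map (X T) else ν with hμ
  have hXρ : ∀ T ∈ Bad, AEMeasurable (X T) (ρ T) := fun T hT =>
    hT.2.1.mono_ac (withDensity_absolutelyContinuous _ _)
  have hp : ∀ T, IsProbabilityMeasure (μ T) := by
    intro T
    by_cases hT : T ∈ Bad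
    · constructor
      rw [hμ]
      simp only [if_pos hT, Measure.smul_apply, smul_eq_mul]
      rw [Measure.map_apply_of_aemeasurable (hXρ T hT) MeasurableSet.univ, preimage_univ, hmass T hT]
      exact ENNReal.inv_mul_cancel (by simpa using hcpos T hT) ENNReal.ofReal_ne_top
    · rw [hμ]
      simp only [if_neg hT]
      infer_instance
  have hint : ∀ T ∈ Bad, ∀ {G : Type} [NormedAddCommGroup G] [NormedSpace ℝ G]
      (g : EuclideanSpace ℝ (Fin k) → G), Continuous g →
      ∫ x, g x ∂(μ T) = (cT T)⁻¹ • ∫ t in T..(2 * T), W T t • g (X T t) := by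
    intro T hT G _ _ g hg
    obtain ⟨h1, h2⟩ := hW T (W T) (hWb T hT).1
    rw [hμ]
    simp only [if_pos hT]
    rw [integral_smul_measure, hρ]
    simp only
    rw [wint h1 (fun t => (h2 t).1) hT.2.1 g hg, ENNReal.toReal_inv,
      ENNReal.toReal_ofReal (hcpos T hT).le, intervalIntegral.integral_of_le (by linarith [hT.1])]
  have hone : ∀ T ∈ Bad, ∫ t in T..(2 * T), W T t = cT T := by
    intro T hT
    rw [intervalIntegral.integral_of_le (by linarith [hT.1])]
  have hchar : ∀ u, Tendsto (fun T => charFun (μ T) u) atTop (𝓝 (charFun ν u)) := by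
    intro u
    rw [Metric.tendsto_nhds]
    intro e he
    filter_upwards [hc u (e / 2 * (ε / M)) (by positivity), eventually_ge_atTop (1 : ℝ)] with T h1 h2
    by_cases hT : T ∈ Bad
    · have h3 := h1 (W T) (hWb T hT).1
      obtain ⟨k1, k2⟩ := hW T (W T) (hWb T hT).1
      have i1 : IntervalIntegrable (fun t => W T t • cexp (⟪X T t, u⟫ * I)) volume T (2 * T) := by
        rw [intervalIntegrable_iff_integrableOn_Ioc_of_le (by linarith [hT.1])]
        refine Integrable.of_bound (C := 1) ?_ ?_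
        · refine k1.aestronglyMeasurable.smul ?_
          have hcts : Continuous fun x : EuclideanSpace ℝ (Fin k) => cexp (⟪x, u⟫ * I) := by fun_prop
          exact (hcts.measurable.comp_aemeasurable hT.2.1).aestronglyMeasurable
        · filter_upwards with t
          rw [norm_smul, Complex.norm_exp_ofReal_mul_I, mul_one, Real.norm_of_nonneg (k2 t).1]
          exact (k2 t).2
      have i2 : IntervalIntegrable (fun t => (W T t : ℂ) * charFun ν u) volume T (2 * T) := by
        rw [intervalIntegrable_iff_integrableOn_Ioc_of_le (by linarith [hT.1])]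
        exact ((hWi T hT).ofReal).mul_const _
      have e1 : charFun (μ T) u - charFun ν u = ((cT T)⁻¹ : ℝ) •
          ∫ t in T..(2 * T), (W T t : ℂ) * (cexp (⟪X T t, u⟫ * I) - charFun ν u) := by
        have e2 : ∫ t in T..(2 * T), (W T t : ℂ) * (cexp (⟪X T t, u⟫ * I) - charFun ν u) =
            (∫ t in T..(2 * T), W T t • cexp (⟪X T t, u⟫ * I)) - (cT T : ℂ) * charFun ν u := by
          rw [← hone T hT, ← intervalIntegral.integral_ofReal, ← intervalIntegral.integral_mul_const,
            ← intervalIntegral.integral_sub i1 i2]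
          refine intervalIntegral.integral_congr fun t _ => ?_
          simp only [Complex.real_smul]
          ring
        rw [e2, charFun_apply, hint T hT (fun x => cexp (⟪x, u⟫ * I)) (by fun_prop), smul_sub]
        congr 1
        rw [Complex.real_smul]
        have : (cT T : ℂ) ≠ 0 := by
          rw [Complex.ofReal_ne_zero]; exact (hcpos T hT).ne'
        push_cast
        field_simp
      rw [dist_eq_norm, e1, norm_smul, Real.norm_of_nonneg (inv_nonneg.2 (hcpos T hT).le)]
      have h5 := hcge T hT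
      have h6 : 0 < ε / M * T := by positivity
      calc (cT T)⁻¹ * ‖∫ t in T..(2 * T), (W T t : ℂ) * (cexp (⟪X T t, u⟫ * I) - charFun ν u)‖
          ≤ (ε / M * T)⁻¹ * (e / 2 * (ε / M) * T) := by gcongr
        _ = e / 2 := by field_simp
        _ < e := by linarith
    · rw [hμ]
      simp only [if_neg hT, dist_self]
      exact he
  have hw := weak (Eventually.of_forall hp) hchar ψ
  rw [Metric.tendsto_nhds] at hw
  have h9 := hfr.and_eventually (hw ε hε)
  obtain ⟨T, hT, h10⟩ := h9.exists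
  rw [hint T hT ψ ψ.continuous, Real.dist_eq] at h10
  obtain ⟨k1, k2⟩ := hW T (W T) (hWb T hT).1
  have hcp := hcpos T hT
  have i1 : IntervalIntegrable (fun t => W T t • ψ (X T t)) volume T (2 * T) := by
    rw [intervalIntegrable_iff_integrableOn_Ioc_of_le (by linarith [hT.1])]
    refine Integrable.of_bound (C := ‖ψ‖) ?_ ?_
    · refine k1.aestronglyMeasurable.smul ?_
      exact (ψ.continuous.measurable.comp_aemeasurable hT.2.1).aestronglyMeasurable
    · filter_upwards with t
      rw [norm_smul, Real.norm_of_nonneg (k2 t).1]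
      calc W T t * ‖ψ (X T t)‖ ≤ 1 * ‖ψ‖ := mul_le_mul (k2 t).2 (ψ.norm_coe_le_norm _)
            (norm_nonneg _) zero_le_one
        _ = ‖ψ‖ := one_mul _
  have i2 : IntervalIntegrable (fun t => W T t * m) volume T (2 * T) := by
    rw [intervalIntegrable_iff_integrableOn_Ioc_of_le (by linarith [hT.1])]
    exact (hWi T hT).mul_const _
  have e1 : (cT T)⁻¹ • (∫ t in T..(2 * T), W T t • ψ (X T t)) - m =
      (cT T)⁻¹ * ∫ t in T..(2 * T), W T t * (ψ (X T t) - m) := by
    have e2 : ∫ t in T..(2 * T), W T t * (ψ (X T t) - m) =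
        (∫ t in T..(2 * T), W T t • ψ (X T t)) - cT T * m := by
      rw [← hone T hT, ← intervalIntegral.integral_mul_const, ← intervalIntegral.integral_sub i1 i2]
      refine intervalIntegral.integral_congr fun t _ => ?_
      simp only [smul_eq_mul]
      ring
    rw [e2, smul_eq_mul, mul_sub]
    congr 1
    field_simp
  rw [e1, abs_mul, abs_of_pos (inv_pos.2 hcp)] at h10
  have h11 := (hWb T hT).2
  have h12 := hcle T hT
  have h13 : ε ≤ (cT T)⁻¹ * |∫ t in T..(2 * T), W T t * (ψ (X T t) - m)| := by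
    have hT0 : 0 < T := by linarith [hT.1]
    calc ε = (cT T)⁻¹ * (ε * cT T) := by field_simp
      _ ≤ (cT T)⁻¹ * (ε * T) := by gcongr
      _ ≤ _ := by gcongr
  linarith

end Pool.Agent.H493.MX
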