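import Pool.Agent.H493.MX.L1c
import Pool.Agent.H493.WB.Uni

set_option autoImplicit false

/-! Weights: phases times products of translates of Besicovitch almost periodic functions. -/

open Complex Filter Topology Set MeasureTheory

namespace Pool.Agent.H493.MX

open Pool.Agent.H203.ME Pool.Agent.H203.ME.CLTL

/-- finite exponential sums with coefficients of total size at most `C` -/
def Wn (C : ℝ) (w : ℝ → ℂ) : Prop := ∃ (ι : Type) (s : Finset ι) (c : ι → ℂ) (lam : ι → ℝ),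
  ∑ i ∈ s, ‖c i‖ ≤ C ∧ ∀ t, w t = ∑ i ∈ s, c i * ex (lam i) t

lemma ex_add (l m t : ℝ) : ex l t * ex m t = ex (l + m) t := by
  unfold ex
  rw [← Complex.exp_add]
  congr 1
  push_cast
  ring

lemma ex_shift (l b t : ℝ) : ex l (t + b) = cexp (((l * b : ℝ) : ℂ) * I) * ex l t := by
  unfold ex
  rw [← Complex.exp_add]
  congr 1
  push_cast
  ring

lemma Wn_one : Wn 1 (fun _ => 1) :=
  ⟨Unit, {()}, fun _ => 1, fun _ => 0, by simp, fun t => by simp [ex]⟩

lemma Wn.mul {C C' : ℝ} {w w' : ℝ → ℂ} (h : Wn C w) (h' : Wn C' w') :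
    Wn (C * C') (fun t => w t * w' t) := by
  obtain ⟨ι, s, c, l, h1, h2⟩ := h
  obtain ⟨ι', s', c', l', h1', h2'⟩ := h'
  refine ⟨ι × ι', s ×ˢ s', fun p => c p.1 * c' p.2, fun p => l p.1 + l' p.2, ?_, fun t => ?_⟩
  · simp_rw [norm_mul]
    rw [Finset.sum_product' (f := fun i j => ‖c i‖ * ‖c' j‖), ← Finset.sum_mul_sum]
    have : 0 ≤ ∑ i ∈ s, ‖c i‖ := Finset.sum_nonneg fun _ _ => norm_nonneg _
    exact mul_le_mul h1 h1' (Finset.sum_nonneg fun _ _ => norm_nonneg _) (this.trans h1)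
  · simp only
    rw [h2, h2', Finset.sum_mul_sum, ← Finset.sum_product']
    refine Finset.sum_congr rfl fun p _ => ?_
    rw [← ex_add]
    ring

lemma Wn.shift {C : ℝ} {w : ℝ → ℂ} (h : Wn C w) (b : ℝ) : Wn C (fun t => w (t + b)) := by
  obtain ⟨ι, s, c, l, h1, h2⟩ := h
  refine ⟨ι, s, fun i => c i * cexp (((l i * b : ℝ) : ℂ) * I), l, ?_, fun t => ?_⟩
  · simp_rw [norm_mul, Complex.norm_exp_ofReal_mul_I, mul_one]
    exact h1
  · simp only
    rw [h2]
    refine Finset.sum_congr rfl fun i _ => ?_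
    rw [ex_shift]
    ring

lemma Wn.mono {C C' : ℝ} {w : ℝ → ℂ} (h : Wn C w) (hC : C ≤ C') : Wn C' w := by
  obtain ⟨ι, s, c, l, h1, h2⟩ := h
  exact ⟨ι, s, c, l, h1.trans hC, h2⟩

lemma Wn.nonneg {C : ℝ} {w : ℝ → ℂ} (h : Wn C w) : 0 ≤ C := by
  obtain ⟨ι, s, c, l, h1, h2⟩ := h
  exact (Finset.sum_nonneg fun _ _ => norm_nonneg _).trans h1

lemma Wn.cont {C : ℝ} {w : ℝ → ℂ} (h : Wn C w) : Continuous w := by
  obtain ⟨ι, s, c, l, h1, h2⟩ := h
  rw [funext h2]
  exact continuous_finsetSum _ fun i _ => continuous_const.mul (ex_cont _)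

lemma Wn.norm_le {C : ℝ} {w : ℝ → ℂ} (h : Wn C w) (t : ℝ) : ‖w t‖ ≤ C := by
  obtain ⟨ι, s, c, l, h1, h2⟩ := h
  rw [h2]
  refine (norm_sum_le _ _).trans (le_trans (le_of_eq ?_) h1)
  exact Finset.sum_congr rfl fun i _ => by rw [norm_mul, ex_norm, mul_one]

lemma Wn_prod {n : ℕ} {C : Fin n → ℝ} {w : Fin n → ℝ → ℂ} (h : ∀ i, Wn (C i) (w i)) :
    Wn (∏ i, C i) (fun t => ∏ i, w i t) := by
  induction n with
  | zero => simpa using Wn_one
  | succ n ih =>
    simp_rw [Fin.prod_univ_succ]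
    exact (h 0).mul (ih fun i => h i.succ)

lemma Wn_tp (S : Finset ℝ) (c : ℝ → ℂ) :
    ∃ C, Wn C (fun t => ((TH803TW.tp S c t : ℝ) : ℂ)) := by
  refine ⟨∑ p ∈ S ×ˢ (Finset.univ : Finset Bool), ‖(if p.2 then c p.1 / 2 else (starRingEnd ℂ) (c p.1) / 2)‖,
    ℝ × Bool, S ×ˢ (Finset.univ : Finset Bool),
    fun p => if p.2 then c p.1 / 2 else (starRingEnd ℂ) (c p.1) / 2,
    fun p => if p.2 then p.1 else - p.1, le_rfl, fun t => ?_⟩
  unfold TH803TW.tp
  simp only
  rw [Complex.re_eq_add_conj, Finset.sum_product, map_sum, ← Finset.sum_add_distrib, Finset.sum_div]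
  refine Finset.sum_congr rfl fun τ _ => ?_
  rw [Fintype.sum_bool]
  have e1 : cexp (I * τ * t) = ex τ t := by
    unfold ex
    congr 1
    push_cast
    ring
  have e2 : (starRingEnd ℂ) (ex τ t) = ex (-τ) t := by
    unfold ex
    rw [← Complex.exp_conj]
    congr 1
    rw [map_mul, Complex.conj_ofReal, Complex.conj_I]
    push_cast
    ring
  simp only [if_true, Bool.false_eq_true, if_false]
  rw [e1, map_mul, e2]
  ring

/-- products -/
lemma prod_close (ε : ℝ) (hε : 0 ≤ ε) (n : ℕ) : ∀ (x : Fin n → ℝ) (y : Fin n → ℝ),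
    (∀ i, |x i| ≤ 1) → (∀ i, |y i| ≤ 2) → (∀ i, |x i - y i| ≤ ε) →
    |∏ i, x i - ∏ i, y i| ≤ (2 ^ n - 1) * ε := by
  induction n with
  | zero => intro x y _ _ _; simp
  | succ n ih =>
    intro x y hx hy hxy
    rw [Fin.prod_univ_succ, Fin.prod_univ_succ]
    have h1 := ih (fun i => x i.succ) (fun i => y i.succ) (fun i => hx _) (fun i => hy _)
      (fun i => hxy _)
    have h2 : |∏ i : Fin n, x i.succ| ≤ 1 := by
      rw [Finset.abs_prod]
      exact Finset.prod_le_one (fun i _ => abs_nonneg _) fun i _ => hx _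
    have e : x 0 * ∏ i : Fin n, x i.succ - y 0 * ∏ i : Fin n, y i.succ =
        (x 0 - y 0) * ∏ i : Fin n, x i.succ + y 0 * (∏ i : Fin n, x i.succ - ∏ i : Fin n, y i.succ) := by
      ring
    rw [e]
    refine (abs_add_le _ _).trans ?_
    rw [abs_mul, abs_mul]
    have h3 : |x 0 - y 0| * |∏ i : Fin n, x i.succ| ≤ ε * 1 :=
      mul_le_mul (hxy 0) h2 (abs_nonneg _) hε
    have h4 : |y 0| * |∏ i : Fin n, x i.succ - ∏ i : Fin n, y i.succ| ≤ 2 * ((2 ^ n - 1) * ε) :=
      mul_le_mul (hy 0) h1 (abs_nonneg _) (by norm_num)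
    have h6 : ε * 1 + 2 * ((2 ^ n - 1) * ε) = (2 ^ (n + 1) - 1) * ε := by ring
    linarith

/-- the weight: a product of translates -/
noncomputable def PWt {n : ℕ} (φ : Fin n → ℝ → ℝ) (a : Fin n → ℝ) (t : ℝ) : ℝ := ∏ i, φ i (t + a i)

open TH803TW Pool.Agent.H493.BS Pool.Agent.H493.WB

/-- **mixing for the characteristic functions, Wiener algebra weights** -/
lemma mix_Wn {V ε δ C : ℝ} (hV : 0 < V) (hε : 0 < ε) (hδ : 0 < δ) (hC : 0 ≤ C) :
    ∃ η T0 : ℝ, 0 < η ∧ η ≤ 1 ∧ 10 ≤ T0 ∧ ∀ T : ℝ, T0 ≤ T →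
      ∀ F : ℝ → ℝ, Adm η V (Real.log T) F → ∀ θ : ℝ → ℝ, Ph T δ θ → ∀ w : ℝ → ℂ, Wn C w →
      ∀ A B : ℝ, T ≤ A → A ≤ B → B ≤ 2 * T →
        ‖∫ t in A..B, cexp ((θ t : ℂ) * I) * w t *
          (cexp (I * (XF F T t : ℂ)) - cexp (-(sg F : ℂ) / 2))‖ ≤ ε * T := by
  obtain ⟨η, T0, h1, h2, h3, h4⟩ := tmain hV (show 0 < ε / (C + 1) by positivity) hδ
  refine ⟨η, T0, h1, h2, h3, fun T hT F hF θ hθ w hw A B hA hAB hB => ?_⟩
  have hT10 : 10 ≤ T := h3.trans hT
  obtain ⟨ι, s, c, l, hc, hw⟩ := hw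
  have hXc : ContinuousOn (XF F T) (Icc T (2 * T)) := XF_contOn hF.c2 (by linarith)
  have hXc2 : ContinuousOn (fun t => cexp (I * (XF F T t : ℂ)) - cexp (-(sg F : ℂ) / 2)) (Icc A B) :=
    (ContinuousOn.cexp (continuousOn_const.mul (Complex.continuous_ofReal.comp_continuousOn
      (hXc.mono (Icc_subset_Icc hA hB))))).sub continuousOn_const
  have e1 : (∫ t in A..B, cexp ((θ t : ℂ) * I) * w t *
      (cexp (I * (XF F T t : ℂ)) - cexp (-(sg F : ℂ) / 2))) =
      ∑ i ∈ s, c i * ∫ t in A..B, cexp (((θ t + (l i * t + 0) : ℝ) : ℂ) * I) *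
        (cexp (I * (XF F T t : ℂ)) - cexp (-(sg F : ℂ) / 2)) := by
    simp_rw [← intervalIntegral.integral_const_mul]
    rw [← intervalIntegral.integral_finsetSum]
    · refine intervalIntegral.integral_congr fun t _ => ?_
      rw [hw t, Finset.mul_sum, Finset.sum_mul]
      refine Finset.sum_congr rfl fun i _ => ?_
      have : cexp (((θ t + (l i * t + 0) : ℝ) : ℂ) * I) = cexp ((θ t : ℂ) * I) * ex (l i) t := by
        unfold ex
        rw [← Complex.exp_add]
        congr 1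
        push_cast
        ring
      rw [this]
      ring
    · intro i _
      apply ContinuousOn.intervalIntegrable
      rw [uIcc_of_le hAB]
      refine continuousOn_const.mul (ContinuousOn.mul (Continuous.continuousOn ?_) hXc2)
      have := (hθ.add_linear (l i) 0).diff.continuous
      fun_prop
  rw [e1]
  refine (norm_sum_le _ _).trans ?_
  have h5 : ∀ i ∈ s, ‖c i * ∫ t in A..B, cexp (((θ t + (l i * t + 0) : ℝ) : ℂ) * I) *
        (cexp (I * (XF F T t : ℂ)) - cexp (-(sg F : ℂ) / 2))‖ ≤ ‖c i‖ * (ε / (C + 1) * T) := by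
    intro i _
    rw [norm_mul]
    exact mul_le_mul_of_nonneg_left (h4 T hT F hF _ (hθ.add_linear (l i) 0) A B hA hAB hB)
      (norm_nonneg _)
  refine (Finset.sum_le_sum h5).trans ?_
  rw [← Finset.sum_mul]
  calc (∑ i ∈ s, ‖c i‖) * (ε / (C + 1) * T) ≤ C * (ε / (C + 1) * T) := by gcongr
    _ = ε * T * (C / (C + 1)) := by ring
    _ ≤ ε * T * 1 := by
        gcongr
        rw [div_le_one (by positivity)]
        linarith
    _ = ε * T := mul_one _

lemma tp_meas (S : Finset ℝ) (c : ℝ → ℂ) : Measurable (tp S c) := (tp_cont S c).measurable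

/-- approximation of the weights by the Wiener algebra, uniformly in the translates -/
lemma wt_approx {n : ℕ} {φ : Fin n → ℝ → ℝ} (hm : ∀ i, Measurable (φ i)) (h0 : ∀ i t, 0 ≤ φ i t)
    (h1 : ∀ i t, φ i t ≤ 1) (hB : ∀ i, BAP (φ i)) {K ε : ℝ} (hK : 0 ≤ K) (hε : 0 < ε) :
    ∃ C T0 : ℝ, 0 ≤ C ∧ 10 ≤ T0 ∧ ∀ T : ℝ, T0 ≤ T → ∀ a : Fin n → ℝ, (∀ i, 0 ≤ a i ∧ a i ≤ K * T) →
      ∃ w : ℝ → ℂ, Wn C w ∧ ∫ t in T..(2 * T), ‖((PWt φ a t : ℝ) : ℂ) - w t‖ ≤ ε * T := by
  classical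
  set ε1 : ℝ := ε / (2 * (n + 1) * (1 + K)) with hε1
  have hε1' : 0 < ε1 := by positivity
  set ε2 : ℝ := min 1 (ε / (2 * 2 ^ n)) with hε2
  have hε2' : 0 < ε2 := by positivity
  have hcl := fun i => BAP_clip (hm i) (h0 i) (h1 i) (hB i) hε1'
  choose G hG hG0 hG1 X0 hX0 hX using hcl
  have hgc : ∀ i, ∃ (S : Finset ℝ) (c : ℝ → ℂ), ∀ t, |G i t - tp S c t| ≤ ε2 :=
    fun i => hG i ε2 hε2'
  choose S c hSc using hgc
  have hWn := fun i => Wn_tp (S i) (c i)
  choose C hC using hWn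
  set X1 : ℝ := ∑ i, X0 i with hX1
  have hXi : ∀ i, X0 i ≤ X1 := fun i =>
    Finset.single_le_sum (f := X0) (fun i _ => by linarith [hX0 i]) (Finset.mem_univ i)
  refine ⟨∏ i, C i, max 10 X1, Finset.prod_nonneg fun i _ => (hC i).nonneg, le_max_left _ _,
    fun T hT a ha => ?_⟩
  have hT10 : 10 ≤ T := (le_max_left _ _).trans hT
  have hTX : X1 ≤ T := (le_max_right _ _).trans hT
  refine ⟨fun t => ∏ i, ((tp (S i) (c i) (t + a i) : ℝ) : ℂ), Wn_prod fun i => (hC i).shift (a i), ?_⟩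
  have hGm : ∀ i, Measurable (G i) := fun i => (hG i).cont.measurable
  have i0 : ∀ i, IntervalIntegrable (fun t => |φ i (t + a i) - G i (t + a i)|) volume T (2 * T) := by
    intro i
    have h2 : Measurable fun t => φ i (t + a i) - G i (t + a i) :=
      ((hm i).comp (measurable_id.add_const _)).sub ((hGm i).comp (measurable_id.add_const _))
    refine (bdd_ii h2 (C := 1) (fun t => ?_) _ _).abs
    rw [abs_le]
    constructor <;> linarith [h0 i (t + a i), h1 i (t + a i), hG0 i (t + a i), hG1 i (t + a i)]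
  have hpt : ∀ t, ‖((PWt φ a t : ℝ) : ℂ) - ∏ i, ((tp (S i) (c i) (t + a i) : ℝ) : ℂ)‖ ≤
      (∑ i, |φ i (t + a i) - G i (t + a i)|) + ε / 2 := by
    intro t
    rw [← Complex.ofReal_prod, ← Complex.ofReal_sub, Complex.norm_real, Real.norm_eq_abs]
    unfold PWt
    have q1 := prod_diff Finset.univ (fun i => φ i (t + a i)) (fun i => G i (t + a i))
      (fun i => h0 i _) (fun i => h1 i _) (fun i => hG0 i _) (fun i => hG1 i _)
    have q2 := prod_close ε2 hε2'.le n (fun i => G i (t + a i)) (fun i => tp (S i) (c i) (t + a i))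
      (fun i => by rw [abs_of_nonneg (hG0 i _)]; exact hG1 i _) (fun i => by
        have := hSc i (t + a i)
        have h3 : ε2 ≤ 1 := min_le_left _ _
        have h4 := hG0 i (t + a i)
        have h5 := hG1 i (t + a i)
        rw [abs_le] at this ⊢
        constructor <;> linarith [this.1, this.2]) (fun i => hSc i _)
    have q3 : (2 ^ n - 1) * ε2 ≤ ε / 2 := by
      have h3 : ε2 ≤ ε / (2 * 2 ^ n) := min_le_right _ _
      have h4 : (0 : ℝ) < 2 ^ n := by positivity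
      calc (2 ^ n - 1) * ε2 ≤ 2 ^ n * ε2 := by nlinarith
        _ ≤ 2 ^ n * (ε / (2 * 2 ^ n)) := by gcongr
        _ = ε / 2 := by field_simp
    have e : ∏ i, φ i (t + a i) - ∏ i, tp (S i) (c i) (t + a i) =
        (∏ i, φ i (t + a i) - ∏ i, G i (t + a i)) +
        (∏ i, G i (t + a i) - ∏ i, tp (S i) (c i) (t + a i)) := by ring
    rw [e]
    refine (abs_add_le _ _).trans ?_
    linarith
  have hmeas : Measurable fun t => PWt φ a t := by
    unfold PWt
    exact Finset.measurable_fun_prod _ fun i _ => (hm i).comp (measurable_id.add_const _)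
  have i1 : IntervalIntegrable (fun t => ‖((PWt φ a t : ℝ) : ℂ) - ∏ i, ((tp (S i) (c i) (t + a i) : ℝ) : ℂ)‖)
      volume T (2 * T) := by
    have h2 : Measurable fun t => ‖((PWt φ a t : ℝ) : ℂ) - ∏ i, ((tp (S i) (c i) (t + a i) : ℝ) : ℂ)‖ := by
      have h3 : Measurable fun t => ∏ i, ((tp (S i) (c i) (t + a i) : ℝ) : ℂ) :=
        (Wn_prod fun i => (hC i).shift (a i)).cont.measurable
      exact ((Complex.measurable_ofReal.comp hmeas).sub h3).norm
    refine bdd_ii h2 (C := n + ε / 2) (fun t => ?_) _ _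
    rw [abs_of_nonneg (norm_nonneg _)]
    refine (hpt t).trans ?_
    have : ∑ i : Fin n, |φ i (t + a i) - G i (t + a i)| ≤ ∑ _i : Fin n, (1 : ℝ) := by
      refine Finset.sum_le_sum fun i _ => ?_
      rw [abs_le]
      constructor <;> linarith [h0 i (t + a i), h1 i (t + a i), hG0 i (t + a i), hG1 i (t + a i)]
    rw [Finset.sum_const, nsmul_eq_mul, Finset.card_univ, Fintype.card_fin, mul_one] at this
    linarith
  have i2 : IntervalIntegrable (fun t => (∑ i, |φ i (t + a i) - G i (t + a i)|)) volume T (2 * T) := by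
    have := IntervalIntegrable.sum (μ := volume) (a := T) (b := 2 * T) Finset.univ
      (f := fun (i : Fin n) t => |φ i (t + a i) - G i (t + a i)|) (fun i _ => i0 i)
    refine this.congr fun t _ => ?_
    simp
  have h5 := intervalIntegral.integral_mono_on (by linarith : T ≤ 2 * T) i1
    (i2.add (intervalIntegrable_const (c := ε / 2))) (fun t _ => hpt t)
  rw [intervalIntegral.integral_add i2 intervalIntegrable_const,
    intervalIntegral.integral_finsetSum fun i _ => i0 i, intervalIntegral.integral_const,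
    smul_eq_mul] at h5
  have h6 : ∀ i, ∫ t in T..(2 * T), |φ i (t + a i) - G i (t + a i)| ≤ ε1 * ((1 + K) * T) := by
    intro i
    have := L1_shift (hm i) (h0 i) (h1 i) (hGm i) (hG0 i) (hG1 i) (hX0 i) (hX i)
      (T := T) (H := T) (a := a i) ((hXi i).trans hTX) (ha i).1 le_rfl
    rw [show T + T = 2 * T by ring] at this
    refine this.trans ?_
    apply mul_le_mul_of_nonneg_left _ hε1'.le
    linarith [(ha i).2]
  have h7 : ∑ i : Fin n, ∫ t in T..(2 * T), |φ i (t + a i) - G i (t + a i)| ≤ ε / 2 * T := by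
    refine (Finset.sum_le_sum fun i _ => h6 i).trans ?_
    rw [Finset.sum_const, nsmul_eq_mul, Finset.card_univ, Fintype.card_fin]
    have e : (n : ℝ) * (ε1 * ((1 + K) * T)) = ε / 2 * T * (n / (n + 1)) := by
      rw [hε1]; field_simp
    rw [e]
    have : (n : ℝ) / (n + 1) ≤ 1 := by rw [div_le_one (by positivity)]; linarith
    calc ε / 2 * T * (n / (n + 1)) ≤ ε / 2 * T * 1 := by gcongr
      _ = _ := mul_one _
  refine h5.trans ?_
  nlinarith

/-- **mixing for the characteristic functions** -/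
theorem mix_char {n : ℕ} {φ : Fin n → ℝ → ℝ} (hm : ∀ i, Measurable (φ i)) (h0 : ∀ i t, 0 ≤ φ i t)
    (h1 : ∀ i t, φ i t ≤ 1) (hB : ∀ i, BAP (φ i)) {V K ε δ : ℝ} (hV : 0 < V) (hK : 0 ≤ K)
    (hε : 0 < ε) (hδ : 0 < δ) :
    ∃ η T0 : ℝ, 0 < η ∧ η ≤ 1 ∧ 10 ≤ T0 ∧ ∀ T : ℝ, T0 ≤ T →
      ∀ F : ℝ → ℝ, Adm η V (Real.log T) F → ∀ θ : ℝ → ℝ, Ph T δ θ →
      ∀ a : Fin n → ℝ, (∀ i, 0 ≤ a i ∧ a i ≤ K * T) → ∀ A B : ℝ, T ≤ A → A ≤ B → B ≤ 2 * T →
        ‖∫ t in A..B, cexp ((θ t : ℂ) * I) * (PWt φ a t : ℂ) *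
          (cexp (I * (XF F T t : ℂ)) - cexp (-(sg F : ℂ) / 2))‖ ≤ ε * T := by
  obtain ⟨C, T1, hC, hT1, happ⟩ := wt_approx hm h0 h1 hB hK (show 0 < ε / 4 by positivity)
  obtain ⟨η, T0, hη, hη1, hT0, hmix⟩ := mix_Wn hV (show 0 < ε / 2 by positivity) hδ hC
  refine ⟨η, max T0 T1, hη, hη1, le_max_of_le_left hT0, fun T hT F hF θ hθ a ha A B hA hAB hB => ?_⟩
  have hT10 : 10 ≤ T := hT0.trans ((le_max_left _ _).trans hT)
  obtain ⟨w, hw, hwa⟩ := happ T ((le_max_right _ _).trans hT) a ha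
  have b1 := hmix T ((le_max_left _ _).trans hT) F hF θ hθ w hw A B hA hAB hB
  have hXc : ContinuousOn (XF F T) (Icc T (2 * T)) := XF_contOn hF.c2 (by linarith)
  set Z : ℝ → ℂ := fun t => cexp (I * (XF F T t : ℂ)) - cexp (-(sg F : ℂ) / 2) with hZ
  have hZc : ContinuousOn Z (Icc T (2 * T)) :=
    (ContinuousOn.cexp (continuousOn_const.mul (Complex.continuous_ofReal.comp_continuousOn
      hXc))).sub continuousOn_const
  have hZ2 : ∀ t, ‖Z t‖ ≤ 2 := by
    intro t
    rw [hZ]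
    refine (norm_sub_le _ _).trans ?_
    have q1 : ‖cexp (I * (XF F T t : ℂ))‖ = 1 := by
      rw [mul_comm]; exact Complex.norm_exp_ofReal_mul_I _
    have q2 : ‖cexp (-(sg F : ℂ) / 2)‖ ≤ 1 := by
      have : (-(sg F : ℂ) / 2) = ((-(sg F) / 2 : ℝ) : ℂ) := by push_cast; ring
      rw [this, Complex.norm_exp, Complex.ofReal_re, Real.exp_le_one_iff]
      linarith [FINL.sg_nonneg F]
    rw [q1]
    linarith
  have hexp1 : ∀ x : ℝ, ‖cexp ((x : ℂ) * I)‖ = 1 := fun x => Complex.norm_exp_ofReal_mul_I x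
  have hθc := hθ.diff.continuous
  have hPm : Measurable fun t => ((PWt φ a t : ℝ) : ℂ) := by
    refine Complex.measurable_ofReal.comp ?_
    unfold PWt
    exact Finset.measurable_fun_prod _ fun i _ => (hm i).comp (measurable_id.add_const _)
  have hP1 : ∀ t, ‖((PWt φ a t : ℝ) : ℂ)‖ ≤ 1 := by
    intro t
    rw [Complex.norm_real, Real.norm_eq_abs]
    unfold PWt
    rw [Finset.abs_prod]
    exact Finset.prod_le_one (fun i _ => abs_nonneg _) fun i _ => by
      rw [abs_of_nonneg (h0 i _)]; exact h1 i _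
  have hii : ∀ {x y : ℝ}, T ≤ x → x ≤ y → y ≤ 2 * T → ∀ {g : ℝ → ℂ}, Measurable g →
      (∃ M : ℝ, ∀ t, ‖g t‖ ≤ M) → IntervalIntegrable (fun t => g t * Z t) volume x y := by
    intro x y hx hxy hy g hg hgM
    obtain ⟨M, hM⟩ := hgM
    rw [intervalIntegrable_iff_integrableOn_Ioc_of_le hxy]
    refine Integrable.of_bound (C := M * 2) ?_ ?_
    · refine AEStronglyMeasurable.mul hg.aestronglyMeasurable ?_
      have hsub : Ioc x y ⊆ Icc T (2 * T) := fun t ht => ⟨by linarith [ht.1], by linarith [ht.2]⟩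
      exact (hZc.mono hsub).aestronglyMeasurable measurableSet_Ioc
    · filter_upwards with t
      rw [norm_mul]
      exact mul_le_mul (hM t) (hZ2 t) (norm_nonneg _) ((norm_nonneg _).trans (hM t))
  have j1 : IntervalIntegrable (fun t => cexp ((θ t : ℂ) * I) * (((PWt φ a t : ℝ) : ℂ) - w t) * Z t)
      volume A B := by
    refine hii hA hAB hB (g := fun t => cexp ((θ t : ℂ) * I) * (((PWt φ a t : ℝ) : ℂ) - w t)) ?_ ?_
    · exact (Continuous.measurable (by fun_prop)).mul (hPm.sub hw.cont.measurable)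
    · refine ⟨1 * (1 + C), fun t => ?_⟩
      rw [norm_mul, hexp1]
      gcongr
      exact (norm_sub_le _ _).trans (add_le_add (hP1 t) (hw.norm_le t))
  have j2 : IntervalIntegrable (fun t => cexp ((θ t : ℂ) * I) * w t * Z t) volume A B := by
    refine hii hA hAB hB (g := fun t => cexp ((θ t : ℂ) * I) * w t) ?_ ?_
    · exact (Continuous.measurable (by fun_prop)).mul hw.cont.measurable
    · refine ⟨1 * C, fun t => ?_⟩
      rw [norm_mul, hexp1]
      gcongr
      exact hw.norm_le t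
  have e1 : (∫ t in A..B, cexp ((θ t : ℂ) * I) * (PWt φ a t : ℂ) * Z t) =
      (∫ t in A..B, cexp ((θ t : ℂ) * I) * (((PWt φ a t : ℝ) : ℂ) - w t) * Z t) +
      ∫ t in A..B, cexp ((θ t : ℂ) * I) * w t * Z t := by
    rw [← intervalIntegral.integral_add j1 j2]
    refine intervalIntegral.integral_congr fun t _ => ?_
    ring
  have b2 : ‖∫ t in A..B, cexp ((θ t : ℂ) * I) * (((PWt φ a t : ℝ) : ℂ) - w t) * Z t‖ ≤
      ε / 2 * T := by
    have k1 : IntervalIntegrable (fun t => 2 * ‖((PWt φ a t : ℝ) : ℂ) - w t‖) volume T (2 * T) := by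
      rw [intervalIntegrable_iff_integrableOn_Ioc_of_le (by linarith)]
      refine Measure.integrableOn_of_bounded (M := 2 * (1 + C)) measure_Ioc_lt_top.ne ?_ ?_
      · exact (measurable_const.mul (hPm.sub hw.cont.measurable).norm).aestronglyMeasurable
      · filter_upwards with t
        rw [Real.norm_of_nonneg (by positivity)]
        gcongr
        exact (norm_sub_le _ _).trans (add_le_add (hP1 t) (hw.norm_le t))
    have k2 : IntervalIntegrable (fun t => 2 * ‖((PWt φ a t : ℝ) : ℂ) - w t‖) volume A B :=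
      k1.mono_set (by rw [uIcc_of_le hAB, uIcc_of_le (by linarith)]; exact Icc_subset_Icc hA hB)
    refine (intervalIntegral.norm_integral_le_of_norm_le hAB ?_ k2).trans ?_
    · filter_upwards with t _
      rw [norm_mul, norm_mul, hexp1, one_mul, mul_comm]
      exact mul_le_mul_of_nonneg_right (hZ2 t) (norm_nonneg _)
    · refine (intervalIntegral.integral_mono_interval hA hAB hB
        (Eventually.of_forall fun t => by positivity) k1).trans ?_
      rw [intervalIntegral.integral_const_mul]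
      linarith
  change ‖∫ t in A..B, cexp ((θ t : ℂ) * I) * (PWt φ a t : ℂ) * Z t‖ ≤ ε * T
  rw [e1]
  refine (norm_add_le _ _).trans ?_
  linarith

end Pool.Agent.H493.MX
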